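import Pool.Agent.R433.GE.Stm

/-!
# Piece APX of project GE (MP_54c2ef_al): derivatives of long words have no low degree terms
-/

set_option autoImplicit false

namespace Pool.Agent.R433.GE

open scoped TensorProduct BigOperators
open MulOpposite

section APX_sec

variable {K : Type} [Field K] {n : ℕ}

lemma APX_r (s : R K n →ₐ[K] Polynomial (R K n)) (hs : IsSc s) (l : List (Fin n)) :
    ∃ Q : Polynomial (R K n),
      s ((1 : A K n) ⊗ₜ[K] op ((l.map (gx K n)).prod)) = Q * Polynomial.X ^ l.length := by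
  induction l with
  | nil =>
    refine ⟨1, ?_⟩
    have e : (1 : A K n) ⊗ₜ[K] op (((([] : List (Fin n)).map (gx K n)).prod)) = (1 : R K n) := by
      rw [List.map_nil, List.prod_nil, op_one, Algebra.TensorProduct.one_def]
    rw [e, map_one, List.length_nil, pow_zero, mul_one]
  | cons x w ih =>
    obtain ⟨Q, hQ⟩ := ih
    refine ⟨Q * Polynomial.C ((1 : A K n) ⊗ₜ[K] op (gx K n x)), ?_⟩
    have e : (1 : A K n) ⊗ₜ[K] op (((x :: w).map (gx K n)).prod) =
        ((1 : A K n) ⊗ₜ[K] op ((w.map (gx K n)).prod)) * ((1 : A K n) ⊗ₜ[K] op (gx K n x)) := by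
      rw [List.map_cons, List.prod_cons, op_mul, Algebra.TensorProduct.tmul_mul_tmul, one_mul]
    rw [e, map_mul, hQ, hs.r, List.length_cons, mul_assoc, mul_assoc, ← mul_assoc (Polynomial.X ^ _),
      Polynomial.X_pow_mul, mul_assoc, pow_succ]

lemma APX_one (d : Fin n → (A K n →ₗ[K] R K n)) (hd : IsDer d) (j : Fin n) : d j 1 = 0 := by
  have h := hd.mul j 1 1
  have e : ((1 : A K n) ⊗ₜ[K] op (1 : A K n)) = (1 : R K n) := by
    rw [op_one, Algebra.TensorProduct.one_def]
  have e2 : ((1 : A K n) ⊗ₜ[K] (1 : (A K n)ᵐᵒᵖ)) = (1 : R K n) := by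
    rw [Algebra.TensorProduct.one_def]
  rw [e, e2, mul_one, one_mul] at h
  exact left_eq_add.1 h

lemma APX_w (d : Fin n → (A K n →ₗ[K] R K n)) (hd : IsDer d)
    (s : R K n →ₐ[K] Polynomial (R K n)) (hs : IsSc s) (j : Fin n) (l : List (Fin n)) :
    ∃ P : Polynomial (R K n),
      s (d j ((l.map (gx K n)).prod)) * Polynomial.X = P * Polynomial.X ^ l.length := by
  induction l with
  | nil =>
    refine ⟨0, ?_⟩
    rw [List.map_nil, List.prod_nil, APX_one d hd, map_zero, zero_mul, zero_mul]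
  | cons x w ih =>
    obtain ⟨P, hP⟩ := ih
    obtain ⟨Q, hQ⟩ := APX_r s hs w
    refine ⟨Q * s (d j (gx K n x)) + Polynomial.C (gx K n x ⊗ₜ[K] 1) * P, ?_⟩
    rw [List.map_cons, List.prod_cons, hd.mul, map_add, map_mul, map_mul, hQ, hs.l, add_mul,
      add_mul, List.length_cons]
    congr 1
    · rw [mul_assoc Q, Polynomial.X_pow_mul, mul_assoc, mul_assoc, mul_assoc, ← pow_succ]
    · rw [mul_assoc (Polynomial.C _ * Polynomial.X), hP, mul_assoc, ← mul_assoc Polynomial.X,
        Polynomial.X_mul, mul_assoc, mul_assoc, ← pow_succ']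

end APX_sec

theorem t_APX : S_APX := by
  intro K _ n d hd s hs m a ha j k hk
  induction ha using Submodule.span_induction with
  | mem x hx =>
    obtain ⟨l, hl, rfl⟩ := hx
    obtain ⟨P, hP⟩ := APX_w d hd s hs j l
    have h1 := congrArg (fun q => Polynomial.coeff q (k + 1)) hP
    simp only [Polynomial.coeff_mul_X] at h1
    rw [h1, Polynomial.coeff_mul_X_pow', if_neg (by omega)]
  | zero => rw [map_zero, map_zero, Polynomial.coeff_zero]
  | add x y _ _ hx hy => rw [map_add, map_add, Polynomial.coeff_add, hx, hy, add_zero]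
  | smul c x _ hx => rw [map_smul, map_smul, Polynomial.coeff_smul, hx, smul_zero]

end Pool.Agent.R433.GE
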