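import Pool.Agent.R433.GE.Stm

/-! Project GE: piece BB. -/

set_option autoImplicit false

namespace Pool.Agent.R433.GE

open scoped TensorProduct BigOperators
open MulOpposite Polynomial

noncomputable section

section comp

variable {T : Type} [Ring T] {n d : ℕ}

/-- shifted sequence -/
def BB_Hs (H : ℕ → Matrix (Fin n) (Fin n) T) (k i : ℕ) : Matrix (Fin n) (Fin n) T :=
  if i ≤ k then H (k - i) else 0

/-- the vectors of the recursion -/
def BB_v (d : ℕ) (H : ℕ → Matrix (Fin n) (Fin n) T) (b : Fin n) (k : ℕ) :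
    Fin (d * n) → T :=
  fun p => BB_Hs H k (finProdFinEquiv.symm p).1 (finProdFinEquiv.symm p).2 b

/-- the companion matrix -/
def BB_C0 (d : ℕ) (L : Matrix (Fin n) (Fin n) T) (Jc : ℕ → Matrix (Fin n) (Fin n) T) :
    Fin d × Fin n → Fin d × Fin n → T :=
  fun p q => if (p.1 : ℕ) = 0 then -((L * Jc ((q.1 : ℕ) + 1)) p.2 q.2) else
    if (q.1 : ℕ) + 1 = p.1 ∧ p.2 = q.2 then 1 else 0

def BB_C (d : ℕ) (L : Matrix (Fin n) (Fin n) T) (Jc : ℕ → Matrix (Fin n) (Fin n) T) :
    Matrix (Fin (d * n)) (Fin (d * n)) T :=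
  fun p q => BB_C0 d L Jc (finProdFinEquiv.symm p) (finProdFinEquiv.symm q)

theorem BB_rec (Jc H : ℕ → Matrix (Fin n) (Fin n) T) (L : Matrix (Fin n) (Fin n) T)
    (hL : L * Jc 0 = 1) (hJ : ∀ k, d < k → Jc k = 0)
    (hJH : ∀ k, ∑ p ∈ Finset.HasAntidiagonal.antidiagonal k, Jc p.1 * H p.2 = if k = 0 then 1 else 0) (k : ℕ) :
    H (k + 1) = -(∑ j : Fin d, (L * Jc ((j : ℕ) + 1)) * BB_Hs H k j) := by
  have h1 := hJH (k + 1)
  rw [Finset.Nat.sum_antidiagonal_succ, if_neg (Nat.succ_ne_zero k)] at h1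
  have h2 : ∑ p ∈ Finset.HasAntidiagonal.antidiagonal k, Jc (p.1 + 1) * H p.2 =
      ∑ i ∈ Finset.range (k + 1), Jc (i + 1) * H (k - i) :=
    Finset.Nat.sum_antidiagonal_eq_sum_range_succ (fun i j => Jc (i + 1) * H j) k
  have h3 : ∑ i ∈ Finset.range (k + 1), Jc (i + 1) * H (k - i) =
      ∑ i ∈ Finset.range (max d (k + 1)), Jc (i + 1) * BB_Hs H k i := by
    rw [← Finset.sum_subset (Finset.range_subset_range.mpr (le_max_right d (k + 1)))]
    · refine Finset.sum_congr rfl fun i hi => ?_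
      rw [Finset.mem_range] at hi
      rw [BB_Hs, if_pos (by omega)]
    · intro i _ hi
      rw [Finset.mem_range] at hi
      rw [BB_Hs, if_neg (by omega), mul_zero]
  have h4 : ∑ i ∈ Finset.range (max d (k + 1)), Jc (i + 1) * BB_Hs H k i =
      ∑ i ∈ Finset.range d, Jc (i + 1) * BB_Hs H k i := by
    symm
    refine Finset.sum_subset (Finset.range_subset_range.mpr (le_max_left d (k + 1))) ?_
    intro i _ hi
    rw [Finset.mem_range] at hi
    rw [hJ (i + 1) (by omega), zero_mul]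
  simp only at h1
  rw [h2, h3, h4] at h1
  have h5 : H (k + 1) = L * (Jc 0 * H (k + 1)) := by rw [← mul_assoc, hL, one_mul]
  have h6 : Jc 0 * H (k + 1) = -∑ i ∈ Finset.range d, Jc (i + 1) * BB_Hs H k i :=
    eq_neg_of_add_eq_zero_left h1
  rw [h5, h6, mul_neg, Finset.mul_sum, Finset.sum_range]
  simp only [mul_assoc]

theorem BB_step (Jc H : ℕ → Matrix (Fin n) (Fin n) T) (L : Matrix (Fin n) (Fin n) T)
    (hL : L * Jc 0 = 1) (hJ : ∀ k, d < k → Jc k = 0)
    (hJH : ∀ k, ∑ p ∈ Finset.HasAntidiagonal.antidiagonal k, Jc p.1 * H p.2 = if k = 0 then 1 else 0)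
    (b : Fin n) (k : ℕ) :
    (BB_C d L Jc).mulVec (BB_v d H b k) = BB_v d H b (k + 1) := by
  funext p
  obtain ⟨⟨⟨i, hi⟩, a⟩, rfl⟩ := finProdFinEquiv.surjective p
  have h0 : (BB_C d L Jc).mulVec (BB_v d H b k) (finProdFinEquiv ((⟨i, hi⟩ : Fin d), a)) =
      ∑ x : Fin d × Fin n, BB_C0 d L Jc ((⟨i, hi⟩ : Fin d), a) x * BB_Hs H k x.1 x.2 b := by
    rw [← Equiv.sum_comp finProdFinEquiv.symm]
    simp only [Matrix.mulVec, dotProduct, BB_C, BB_v, Equiv.symm_apply_apply]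
  rw [h0, Fintype.sum_prod_type]
  have h1 : BB_v d H b (k + 1) (finProdFinEquiv ((⟨i, hi⟩ : Fin d), a)) =
      BB_Hs H (k + 1) i a b := by
    simp only [BB_v, Equiv.symm_apply_apply]
  rw [h1]
  cases i with
  | zero =>
    have h2 : BB_Hs H (k + 1) 0 = H (k + 1) := by simp [BB_Hs]
    rw [h2, BB_rec Jc H L hL hJ hJH k]
    simp only [BB_C0, if_true, neg_mul, Finset.sum_neg_distrib, Matrix.neg_apply,
      Matrix.sum_apply, Matrix.mul_apply (M := L * _)]
  | succ i =>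
    have h2 : BB_Hs H (k + 1) (i + 1) = BB_Hs H k i := by
      simp [BB_Hs]
    rw [h2, Finset.sum_eq_single (⟨i, by omega⟩ : Fin d)]
    · rw [Finset.sum_eq_single a]
      · simp [BB_C0]
      · intro c _ hc
        simp [BB_C0, Ne.symm hc]
      · intro h; exact absurd (Finset.mem_univ _) h
    · intro j _ hj
      have hj' : ¬ ((j : ℕ) = i) := fun h => hj (Fin.ext h)
      refine Finset.sum_eq_zero fun c _ => ?_
      simp [BB_C0, hj']
    · intro h; exact absurd (Finset.mem_univ _) h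

theorem BB_pow (Jc H : ℕ → Matrix (Fin n) (Fin n) T) (L : Matrix (Fin n) (Fin n) T)
    (hL : L * Jc 0 = 1) (hJ : ∀ k, d < k → Jc k = 0)
    (hJH : ∀ k, ∑ p ∈ Finset.HasAntidiagonal.antidiagonal k, Jc p.1 * H p.2 = if k = 0 then 1 else 0)
    (b : Fin n) (k : ℕ) :
    ((BB_C d L Jc) ^ k).mulVec (BB_v d H b 0) = BB_v d H b k := by
  induction k with
  | zero => rw [pow_zero, Matrix.one_mulVec]
  | succ k ih => rw [pow_succ', ← Matrix.mulVec_mulVec, ih, BB_step Jc H L hL hJ hJH]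

end comp

/-- the coefficient matrices -/
def BB_Jc {K : Type} [Field K] {n : ℕ} (s : R K n →ₐ[K] Polynomial (R K n))
    (J : Matrix (Fin n) (Fin n) (R K n)) (k : ℕ) : Matrix (Fin n) (Fin n) (R K n) :=
  fun i j => (s (J i j)).coeff k

/-- eventual vanishing under the representations -/
theorem BB_rho (hD : S_DET) {K : Type} [Field K] {n : ℕ} (s : R K n →ₐ[K] Polynomial (R K n))
    (J : Matrix (Fin n) (Fin n) (R K n))
    (hJ : ∀ m : ℕ, ∃ J' : Matrix (Fin n) (Fin n) (R K n), IsUnit J' ∧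
      ∀ i j k, k < m → (s (J i j)).coeff k = (s (J' i j)).coeff k)
    (G : PowerSeries (Matrix (Fin n) (Fin n) (R K n)))
    (hFG : PowerSeries.mk (BB_Jc s J) * G = 1)
    (E : Type) [Field E] [Algebra K E] (β : Type) [Fintype β] [DecidableEq β]
    (ρ : R K n →ₐ[K] Matrix β β E) :
    ∃ N, ∀ k, N ≤ k → ∀ a b, ρ (PowerSeries.coeff k G a b) = 0 := by
  let g : R K n →+* Matrix β β E[X] :=
    ((matPolyEquiv (R := E) (n := β)).symm : (Matrix β β E)[X] →+* Matrix β β E[X]).comp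
      ((Polynomial.mapRingHom (ρ : R K n →+* Matrix β β E)).comp (s : R K n →+* (R K n)[X]))
  have hg : ∀ z x y k, (g z x y).coeff k = ρ ((s z).coeff k) x y := by
    intro z x y k
    show ((matPolyEquiv (R := E) (n := β)).symm ((s z).map (ρ : R K n →+* Matrix β β E)) x
      y).coeff k = _
    rw [matPolyEquiv_symm_apply_coeff, Polynomial.coeff_map]
    rfl
  let Φ : Matrix (Fin n) (Fin n) (R K n) →+* Matrix (Fin n × β) (Fin n × β) E[X] :=
    ((Matrix.compRingEquiv (Fin n) β E[X]) : Matrix (Fin n) (Fin n) (Matrix β β E[X]) →+*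
      Matrix (Fin n × β) (Fin n × β) E[X]).comp g.mapMatrix
  have hΦ : ∀ (A : Matrix (Fin n) (Fin n) (R K n)) i x j y k,
      (Φ A (i, x) (j, y)).coeff k = ρ ((s (A i j)).coeff k) x y := by
    intro A i x j y k
    exact hg (A i j) x y k
  have hW : IsUnit (Φ J) := by
    refine hD E (Fin n × β) (Φ J) fun m => ?_
    obtain ⟨J', hu, h⟩ := hJ m
    refine ⟨Φ J', hu.map Φ, ?_⟩
    rintro ⟨i, x⟩ ⟨j, y⟩ k hk
    rw [hΦ, hΦ, h i j k hk]
  let r2 : Matrix (Fin n) (Fin n) (R K n) →+* Matrix (Fin n × β) (Fin n × β) E :=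
    ((Matrix.compRingEquiv (Fin n) β E) : Matrix (Fin n) (Fin n) (Matrix β β E) →+*
      Matrix (Fin n × β) (Fin n × β) E).comp (ρ : R K n →+* Matrix β β E).mapMatrix
  have hpW : IsUnit (matPolyEquiv (Φ J)) := hW.map matPolyEquiv
  obtain ⟨pV, hV⟩ := hpW.exists_left_inv
  have hcoe : ((matPolyEquiv (Φ J) : (Matrix (Fin n × β) (Fin n × β) E)[X]) :
      PowerSeries (Matrix (Fin n × β) (Fin n × β) E)) = PowerSeries.map r2
        (PowerSeries.mk (BB_Jc s J)) := by
    ext k p q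
    obtain ⟨i, x⟩ := p
    obtain ⟨j, y⟩ := q
    rw [Polynomial.coeff_coe, matPolyEquiv_coeff_apply, hΦ, PowerSeries.coeff_map,
      PowerSeries.coeff_mk]
    rfl
  have h1 : (pV : PowerSeries (Matrix (Fin n × β) (Fin n × β) E)) * PowerSeries.map r2
        (PowerSeries.mk (BB_Jc s J)) = 1 := by
    rw [← hcoe, ← Polynomial.coe_mul, hV, Polynomial.coe_one]
  have h2 : PowerSeries.map r2
        (PowerSeries.mk (BB_Jc s J)) * PowerSeries.map r2 G = 1 := by
    rw [← map_mul, hFG, map_one]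
  have h3 := left_inv_eq_right_inv h1 h2
  refine ⟨pV.natDegree + 1, fun k hk a b => ?_⟩
  have h4 := congrArg (PowerSeries.coeff k) h3
  rw [Polynomial.coeff_coe, Polynomial.coeff_eq_zero_of_natDegree_lt (by omega),
    PowerSeries.coeff_map] at h4
  ext x y
  exact (congrFun (congrFun h4 (a, x)) (b, y)).symm

theorem t_BB (hK : S_KL) (hD : S_DET) : S_BB := by
  intro K _ n s hs J hJ
  rcases Nat.eq_zero_or_pos n with rfl | hn
  · exact isUnit_of_subsingleton _
  obtain ⟨Jc, hJc⟩ : ∃ Jc : ℕ → Matrix (Fin n) (Fin n) (R K n), Jc = BB_Jc s J := ⟨_, rfl⟩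
  obtain ⟨d, hd1, hd0⟩ : ∃ d, 1 ≤ d ∧ ∀ i j, (s (J i j)).natDegree ≤ d := by
    refine ⟨(Finset.univ.sup fun p : Fin n × Fin n => (s (J p.1 p.2)).natDegree) + 1,
      by omega, fun i j => ?_⟩
    have := Finset.le_sup (f := fun p : Fin n × Fin n => (s (J p.1 p.2)).natDegree)
      (Finset.mem_univ (i, j))
    exact this.trans (Nat.le_succ _)
  have hd : ∀ k, d < k → Jc k = 0 := by
    intro k hk
    rw [hJc]
    ext i j
    exact Polynomial.coeff_eq_zero_of_natDegree_lt (lt_of_le_of_lt (hd0 i j) hk)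
  have hu : IsUnit (Jc 0) := by
    obtain ⟨J', hJ'u, hJ'⟩ := hJ 1
    have h1 : IsUnit (((Polynomial.constantCoeff).comp
      (s : R K n →+* (R K n)[X])).mapMatrix J') := hJ'u.map _
    have h2 : ((Polynomial.constantCoeff).comp
      (s : R K n →+* (R K n)[X])).mapMatrix J' = Jc 0 := by
      rw [hJc]
      ext i j
      exact (hJ' i j 0 one_pos).symm
    rwa [h2] at h1
  obtain ⟨u, hu⟩ := hu
  have hcc : PowerSeries.constantCoeff (PowerSeries.mk Jc) = (u : Matrix (Fin n) (Fin n) (R K n)) := by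
    rw [hu, ← PowerSeries.coeff_zero_eq_constantCoeff_apply, PowerSeries.coeff_mk]
  obtain ⟨G, hFG, hGF⟩ : ∃ G, PowerSeries.mk Jc * G = 1 ∧ G * PowerSeries.mk Jc = 1 :=
    ⟨PowerSeries.invOfUnit (PowerSeries.mk Jc) u, PowerSeries.mul_invOfUnit _ u hcc,
      PowerSeries.invOfUnit_mul _ u hcc⟩
  have hL : ((u⁻¹ : (Matrix (Fin n) (Fin n) (R K n))ˣ) : Matrix (Fin n) (Fin n) (R K n)) * Jc 0 = 1 := by
    rw [← hu, Units.inv_mul]
  have hJH : ∀ k, ∑ p ∈ Finset.HasAntidiagonal.antidiagonal k, Jc p.1 * PowerSeries.coeff p.2 G =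
      if k = 0 then 1 else 0 := by
    intro k
    have h1 := congrArg (PowerSeries.coeff k) hFG
    rw [PowerSeries.coeff_mul, PowerSeries.coeff_one] at h1
    rw [← h1]
    refine Finset.sum_congr rfl fun p _ => ?_
    rw [PowerSeries.coeff_mk]
  have hpow := BB_pow (d := d) Jc (fun k => PowerSeries.coeff k G) _ hL hd hJH
  have hzero : ∀ b, ((BB_C d (↑u⁻¹) Jc) ^ (d * n)).mulVec
      (BB_v d (fun k => PowerSeries.coeff k G) b 0) = 0 := by
    intro b
    refine hK K n (d * n) _ _ ?_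
    intro E _ _ β _ _ ρ
    obtain ⟨N, hN⟩ := BB_rho hD s J hJ G (by rw [← hJc]; exact hFG) E β ρ
    refine ⟨N + d, fun p => ?_⟩
    rw [hpow]
    have hi := (finProdFinEquiv.symm p).1.2
    simp only [BB_v, BB_Hs]
    rw [if_pos (by omega)]
    exact hN _ (by omega) _ _
  have hH : ∀ k, d * n ≤ k → PowerSeries.coeff k G = 0 := by
    intro k hk
    ext a b
    have h1 : BB_v d (fun k => PowerSeries.coeff k G) b k = 0 := by
      rw [← hpow, ← Nat.sub_add_cancel hk, pow_add, ← Matrix.mulVec_mulVec, hzero,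
        Matrix.mulVec_zero]
    have h2 := congrFun h1 (finProdFinEquiv ((⟨0, hd1⟩ : Fin d), a))
    simp only [BB_v, Equiv.symm_apply_apply, BB_Hs] at h2
    simpa using h2
  obtain ⟨PJ, hPJ⟩ : ∃ PJ, PJ = PowerSeries.trunc (d + 1) (PowerSeries.mk Jc) := ⟨_, rfl⟩
  obtain ⟨PH, hPH⟩ : ∃ PH, PH = PowerSeries.trunc (d * n) G := ⟨_, rfl⟩
  have hPJ1 : (PJ : PowerSeries (Matrix (Fin n) (Fin n) (R K n))) = PowerSeries.mk Jc := by
    ext k : 1
    rw [Polynomial.coeff_coe, hPJ, PowerSeries.coeff_trunc]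
    split_ifs with h
    · rfl
    · rw [PowerSeries.coeff_mk, hd k (by omega)]
  have hPH1 : (PH : PowerSeries (Matrix (Fin n) (Fin n) (R K n))) = G := by
    ext k : 1
    rw [Polynomial.coeff_coe, hPH, PowerSeries.coeff_trunc]
    split_ifs with h
    · rfl
    · rw [hH k (by omega)]
  have hm1 : PJ * PH = 1 := by
    apply Polynomial.coe_injective (R := Matrix (Fin n) (Fin n) (R K n))
    rw [Polynomial.coe_mul, hPJ1, hPH1, hFG, Polynomial.coe_one]
  have hm2 : PH * PJ = 1 := by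
    apply Polynomial.coe_injective (R := Matrix (Fin n) (Fin n) (R K n))
    rw [Polynomial.coe_mul, hPJ1, hPH1, hGF, Polynomial.coe_one]
  let E1 : (Matrix (Fin n) (Fin n) (R K n))[X] →+* Matrix (Fin n) (Fin n) (R K n) :=
    Polynomial.eval₂RingHom' (RingHom.id _) 1 (fun a => Commute.one_right _)
  have hE1 : E1 PJ = J := by
    have h1 : E1 PJ = ∑ k ∈ Finset.range (d + 1), Jc k := by
      have h2 : E1 PJ = PJ.sum fun e a => a * 1 ^ e := by
        show Polynomial.eval₂ (RingHom.id _) 1 PJ = _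
        rw [Polynomial.eval₂_eq_sum]
        rfl
      rw [h2, Polynomial.sum_over_range' _ (by intro k; rw [zero_mul]) (d + 1) ?_]
      · refine Finset.sum_congr rfl fun k hk => ?_
        rw [Finset.mem_range] at hk
        rw [one_pow, mul_one, hPJ, PowerSeries.coeff_trunc, if_pos hk, PowerSeries.coeff_mk]
      · rw [hPJ]
        exact PowerSeries.natDegree_trunc_lt _ _
    rw [h1]
    ext i j
    rw [Matrix.sum_apply]
    have h3 := hs (J i j)
    rw [Polynomial.sum_over_range' _ (by intro k; rfl) (d + 1)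
      (Nat.lt_succ_of_le (hd0 i j))] at h3
    rw [← h3]
    refine Finset.sum_congr rfl fun k _ => ?_
    rw [hJc]
    rfl
  refine ⟨⟨J, E1 PH, ?_, ?_⟩, rfl⟩
  · rw [← map_one E1, ← hm1, map_mul, hE1]
  · rw [← map_one E1, ← hm2, map_mul, hE1]

end

end Pool.Agent.R433.GE
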