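import Pool.Agent.R433.GE.Stm

set_option autoImplicit false

namespace Pool.Agent.R433.GE

open scoped TensorProduct BigOperators
open MulOpposite

noncomputable section

/-- formal right inverse -/
def BB2_h {B : Type} [Ring B] (L : B) (a : ℕ → B) : ℕ → B
  | 0 => L
  | (k + 1) => - (L * ∑ i : Fin (k + 1), a (i + 1) * BB2_h L a (k - i))
  termination_by k => k
  decreasing_by omega

lemma BB2_h_zero {B : Type} [Ring B] (L : B) (a : ℕ → B) : BB2_h L a 0 = L := by
  rw [BB2_h]

lemma BB2_h_succ {B : Type} [Ring B] (L : B) (a : ℕ → B) (k : ℕ) :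
    BB2_h L a (k + 1) = - (L * ∑ i ∈ Finset.range (k + 1), a (i + 1) * BB2_h L a (k - i)) := by
  rw [BB2_h, Finset.sum_range]

/-- the convolution -/
lemma BB2_conv {B : Type} [Ring B] (L : B) (a : ℕ → B) (h : a 0 * L = 1) (m : ℕ) :
    ∑ p ∈ Finset.HasAntidiagonal.antidiagonal m, a p.1 * BB2_h L a p.2 = if m = 0 then 1 else 0 := by
  rcases m with _ | k
  · simp [BB2_h_zero, h]
  · rw [Finset.Nat.sum_antidiagonal_succ, if_neg (by omega), BB2_h_succ]
    rw [Finset.Nat.sum_antidiagonal_eq_sum_range_succ (fun i j => a (i + 1) * BB2_h L a j)]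
    rw [mul_neg, ← mul_assoc, h, one_mul]
    simp

/-- uniqueness -/
lemma BB2_uniq {B : Type} [Ring B] (L : B) (a : ℕ → B) (h : L * a 0 = 1) (x y : ℕ → B)
    (hxy : ∀ m, ∑ p ∈ Finset.HasAntidiagonal.antidiagonal m, a p.1 * x p.2 =
      ∑ p ∈ Finset.HasAntidiagonal.antidiagonal m, a p.1 * y p.2) : ∀ m, x m = y m := by
  intro m
  induction m using Nat.strong_induction_on with
  | _ m ih =>
    rcases m with _ | k
    · have := hxy 0
      simp at this
      have h2 := congrArg (fun t => L * t) this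
      simpa [← mul_assoc, h] using h2
    · have := hxy (k + 1)
      rw [Finset.Nat.sum_antidiagonal_succ, Finset.Nat.sum_antidiagonal_succ] at this
      have h3 : ∑ p ∈ Finset.HasAntidiagonal.antidiagonal k, a (p.1 + 1) * x p.2 =
          ∑ p ∈ Finset.HasAntidiagonal.antidiagonal k, a (p.1 + 1) * y p.2 := by
        refine Finset.sum_congr rfl fun p hp => ?_
        rw [ih p.2 (by have := Finset.HasAntidiagonal.mem_antidiagonal.1 hp; omega)]
      rw [h3] at this
      have h4 := add_right_cancel this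
      have h2 := congrArg (fun t => L * t) h4
      simpa [← mul_assoc, h] using h2

/-- companion matrix -/
def BB2_C {B : Type} [Ring B] (L : B) (a : ℕ → B) (d : ℕ) : Matrix (Fin (d + 1)) (Fin (d + 1)) B :=
  fun l l' => if (l : ℕ) = 0 then - (L * a (l' + 1)) else if (l : ℕ) = l' + 1 then 1 else 0

def BB2_u {B : Type} [Ring B] (L : B) (a : ℕ → B) (d : ℕ) (k : ℕ) : Fin (d + 1) → B :=
  fun l => if (l : ℕ) ≤ k then BB2_h L a (k - l) else 0

lemma BB2_step {B : Type} [Ring B] (L : B) (a : ℕ → B) (d : ℕ) (had : ∀ k, d < k → a k = 0)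
    (k : ℕ) : (BB2_C L a d).mulVec (BB2_u L a d k) = BB2_u L a d (k + 1) := by
  funext l
  rw [Matrix.mulVec, dotProduct]
  by_cases hl : (l : ℕ) = 0
  · simp only [BB2_C, hl, if_true, BB2_u, Nat.zero_le, Nat.sub_zero]
    rw [BB2_h_succ, Finset.mul_sum, ← Finset.sum_neg_distrib]
    rw [← Fin.sum_univ_eq_sum_range (fun i => -(L * (a (i + 1) * BB2_h L a (k - i)))) (k + 1)]
    rw [Fin.sum_univ_eq_sum_range
      (fun i => -(L * a (i + 1)) * (if i ≤ k then BB2_h L a (k - i) else 0)) (d + 1)]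
    rw [Fin.sum_univ_eq_sum_range (fun i => -(L * (a (i + 1) * BB2_h L a (k - i)))) (k + 1)]
    have e1 : ∑ i ∈ Finset.range (d + 1), -(L * a (i + 1)) * (if i ≤ k then BB2_h L a (k - i) else 0)
        = ∑ i ∈ Finset.range (d + k + 1), -(L * a (i + 1)) * (if i ≤ k then BB2_h L a (k - i) else 0) := by
      refine Finset.sum_subset (Finset.range_mono (by omega)) fun i _ hi => ?_
      rw [Finset.mem_range] at hi
      rw [had (i + 1) (by omega)]
      simp
    have e2 : ∑ i ∈ Finset.range (k + 1), -(L * (a (i + 1) * BB2_h L a (k - i)))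
        = ∑ i ∈ Finset.range (d + k + 1), -(L * a (i + 1)) * (if i ≤ k then BB2_h L a (k - i) else 0) := by
      rw [← Finset.sum_subset (Finset.range_mono (by omega : k + 1 ≤ d + k + 1)) fun i _ hi => ?_]
      · refine Finset.sum_congr rfl fun i hi => ?_
        rw [Finset.mem_range] at hi
        rw [if_pos (by omega), neg_mul, mul_assoc]
      · rw [Finset.mem_range] at hi
        rw [if_neg (by omega), mul_zero]
    rw [e1, e2]
  · simp only [BB2_C, if_neg hl, BB2_u]
    have hl' : (l : ℕ) - 1 < d + 1 := by have := l.2; omega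
    rw [Finset.sum_eq_single (⟨(l : ℕ) - 1, hl'⟩ : Fin (d + 1))]
    · have e : (l : ℕ) = (l : ℕ) - 1 + 1 := by omega
      rw [if_pos e, one_mul]
      by_cases hk : (l : ℕ) ≤ k + 1
      · rw [if_pos (by show (l : ℕ) - 1 ≤ k; omega), if_pos hk]
        congr 1
        show k - ((l : ℕ) - 1) = _
        omega
      · rw [if_neg (by show ¬ ((l : ℕ) - 1 ≤ k); omega), if_neg hk]
    · intro b _ hb
      rw [if_neg, zero_mul]
      intro h
      apply hb
      ext
      show (b : ℕ) = (l : ℕ) - 1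
      omega
    · intro h
      exact absurd (Finset.mem_univ _) h

lemma BB2_pow {B : Type} [Ring B] (L : B) (a : ℕ → B) (d : ℕ) (had : ∀ k, d < k → a k = 0)
    (j k : ℕ) : ((BB2_C L a d) ^ j).mulVec (BB2_u L a d k) = BB2_u L a d (k + j) := by
  induction j with
  | zero => simp
  | succ j ih =>
    rw [pow_succ', ← Matrix.mulVec_mulVec, ih, BB2_step L a d had]
    rfl

/-- S_KL for a general index type -/
lemma BB2_KL (hK : S_KL) {K : Type} [Field K] {n : ℕ} {ι : Type} [Fintype ι] [DecidableEq ι]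
    (C : Matrix ι ι (R K n)) (u : ι → R K n)
    (h : ∀ (E : Type) [Field E] [Algebra K E] (β : Type) [Fintype β] [DecidableEq β]
      (ρ : R K n →ₐ[K] Matrix β β E), ∃ k : ℕ, ∀ i, ρ (((C ^ k).mulVec u) i) = 0) :
    (C ^ (Fintype.card ι)).mulVec u = 0 := by
  let e : ι ≃ Fin (Fintype.card ι) := Fintype.equivFin ι
  have key : ∀ k, (((C.submatrix e.symm e.symm) ^ k).mulVec (u ∘ e.symm)) =
      ((C ^ k).mulVec u) ∘ e.symm := by
    intro k
    have h1 : (C.submatrix e.symm e.symm) ^ k = (C ^ k).submatrix e.symm e.symm := by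
      induction k with
      | zero => simp
      | succ k ih => rw [pow_succ, pow_succ, ih, Matrix.submatrix_mul_equiv]
    rw [h1, Matrix.submatrix_mulVec_equiv]
    congr 2
    funext x
    simp
  have := hK K n (Fintype.card ι) (C.submatrix e.symm e.symm) (u ∘ e.symm) (by
    intro E _ _ β _ _ ρ
    obtain ⟨k, hk⟩ := h E β ρ
    refine ⟨k, fun i => ?_⟩
    rw [key]
    exact hk _)
  rw [key] at this
  funext i
  have := congrFun this (e i)
  simpa using this

lemma BB2_comp_mulVec {Rr : Type} [Ring Rr] {I J : Type} [Fintype I] [Fintype J] [DecidableEq I]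
    [DecidableEq J] (M : Matrix I I (Matrix J J Rr)) (v : I → Matrix J J Rr) (c : J) :
    (Matrix.compRingEquiv I J Rr M).mulVec (fun p => v p.1 p.2 c) =
      fun p => (M.mulVec v) p.1 p.2 c := by
  funext p
  simp only [Matrix.mulVec, dotProduct, Fintype.sum_prod_type, Matrix.compRingEquiv_apply,
    Matrix.comp_apply]
  rw [Matrix.sum_apply]
  refine Finset.sum_congr rfl fun x _ => ?_
  rw [Matrix.mul_apply]

/-- the evaluation to matrices of polynomials -/
def BB2_Psi {K : Type} [Field K] {n : ℕ} (s : R K n →ₐ[K] Polynomial (R K n))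
    {E β : Type} [Field E] [Algebra K E] [Fintype β] [DecidableEq β]
    (ρ : R K n →ₐ[K] Matrix β β E) :
    Matrix (Fin n) (Fin n) (R K n) →+* Matrix (Fin n × β) (Fin n × β) (Polynomial E) :=
  (Matrix.compRingEquiv (Fin n) β (Polynomial E)).toRingHom.comp
    (RingHom.mapMatrix (((matPolyEquiv (n := β) (R := E)).symm.toRingEquiv.toRingHom).comp
      ((Polynomial.mapRingHom ρ.toRingHom).comp s.toRingHom)))

lemma BB2_Psi_coeff {K : Type} [Field K] {n : ℕ} (s : R K n →ₐ[K] Polynomial (R K n))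
    {E β : Type} [Field E] [Algebra K E] [Fintype β] [DecidableEq β]
    (ρ : R K n →ₐ[K] Matrix β β E) (M : Matrix (Fin n) (Fin n) (R K n)) (p q : Fin n × β) (k : ℕ) :
    (BB2_Psi s ρ M p q).coeff k = ρ ((s (M p.1 q.1)).coeff k) p.2 q.2 := by
  show ((matPolyEquiv (n := β) (R := E)).symm ((s (M p.1 q.1)).map ρ.toRingHom) p.2 q.2).coeff k = _
  rw [matPolyEquiv_symm_apply_coeff, Polynomial.coeff_map]
  rfl

/-- entrywise `ρ` -/
def BB2_hat {K : Type} [Field K] {n : ℕ}
    {E β : Type} [Field E] [Algebra K E] [Fintype β] [DecidableEq β]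
    (ρ : R K n →ₐ[K] Matrix β β E) :
    Matrix (Fin n) (Fin n) (R K n) →+* Matrix (Fin n × β) (Fin n × β) E :=
  (Matrix.compRingEquiv (Fin n) β E).toRingHom.comp (RingHom.mapMatrix ρ.toRingHom)

lemma BB2_rho (hD : S_DET) {K : Type} [Field K] {n : ℕ} (s : R K n →ₐ[K] Polynomial (R K n))
    (J : Matrix (Fin n) (Fin n) (R K n))
    (hJ : ∀ m : ℕ, ∃ J' : Matrix (Fin n) (Fin n) (R K n), IsUnit J' ∧
      ∀ i j k, k < m → (s (J i j)).coeff k = (s (J' i j)).coeff k)
    (a : ℕ → Matrix (Fin n) (Fin n) (R K n)) (ha : ∀ k i j, a k i j = (s (J i j)).coeff k)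
    (L : Matrix (Fin n) (Fin n) (R K n)) (h1 : L * a 0 = 1) (h2 : a 0 * L = 1)
    {E β : Type} [Field E] [Algebra K E] [Fintype β] [DecidableEq β]
    (ρ : R K n →ₐ[K] Matrix β β E) : ∃ k0 : ℕ, ∀ k, k0 ≤ k → ∀ i j, ρ (BB2_h L a k i j) = 0 := by
  have hW : IsUnit (BB2_Psi s ρ J) := by
    refine hD E (Fin n × β) (BB2_Psi s ρ J) fun m => ?_
    obtain ⟨J', hJ', hc⟩ := hJ m
    refine ⟨BB2_Psi s ρ J', hJ'.map _, fun i j k hk => ?_⟩
    rw [BB2_Psi_coeff, BB2_Psi_coeff, hc _ _ _ hk]
  obtain ⟨U, hU⟩ := hW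
  set V : Matrix (Fin n × β) (Fin n × β) (Polynomial E) := (U⁻¹).val with hV
  have hWV : BB2_Psi s ρ J * V = 1 := by rw [← hU, hV]; exact U.mul_inv
  have hWV' : matPolyEquiv (BB2_Psi s ρ J) * matPolyEquiv V = 1 := by
    rw [← map_mul, hWV, map_one]
  have hcoef : ∀ k, (matPolyEquiv (BB2_Psi s ρ J)).coeff k = BB2_hat ρ (a k) := by
    intro k
    ext p q
    rw [matPolyEquiv_coeff_apply, BB2_Psi_coeff, ← ha]
    rfl
  have huniq := BB2_uniq (BB2_hat ρ L) (fun k => BB2_hat ρ (a k)) (by rw [← map_mul, h1, map_one])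
    (fun k => BB2_hat ρ (BB2_h L a k)) (fun k => (matPolyEquiv V).coeff k) (by
      intro m
      have e1 : ∑ p ∈ Finset.HasAntidiagonal.antidiagonal m,
          BB2_hat ρ (a p.1) * BB2_hat ρ (BB2_h L a p.2) = if m = 0 then 1 else 0 := by
        have := congrArg (BB2_hat ρ) (BB2_conv L a h2 m)
        rw [map_sum] at this
        simp only [map_mul] at this
        rw [this]
        split_ifs
        · exact map_one _
        · exact map_zero _
      have e2 : ∑ p ∈ Finset.HasAntidiagonal.antidiagonal m,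
          BB2_hat ρ (a p.1) * (matPolyEquiv V).coeff p.2 = if m = 0 then 1 else 0 := by
        have := congrArg (fun P => Polynomial.coeff P m) hWV'
        simp only [Polynomial.coeff_mul, hcoef, Polynomial.coeff_one] at this
        exact this
      rw [e1, e2])
  refine ⟨(matPolyEquiv V).natDegree + 1, fun k hk i j => ?_⟩
  have h3 : BB2_hat ρ (BB2_h L a k) = 0 := by
    rw [huniq k]
    exact Polynomial.coeff_eq_zero_of_natDegree_lt (by omega)
  ext b b'
  exact congrFun (congrFun h3 (i, b)) (j, b')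

theorem t_BB' (hK : S_KL) (hD : S_DET) : S_BB := by
  intro K _ n s hs J hJ
  classical
  set a : ℕ → Matrix (Fin n) (Fin n) (R K n) := fun k i j => (s (J i j)).coeff k with ha
  set d : ℕ := Finset.univ.sup (fun p : Fin n × Fin n => (s (J p.1 p.2)).natDegree) with hd
  have hdeg : ∀ i j, (s (J i j)).natDegree ≤ d := fun i j =>
    Finset.le_sup (f := fun p : Fin n × Fin n => (s (J p.1 p.2)).natDegree)
      (Finset.mem_univ (i, j))
  have had : ∀ k, d < k → a k = 0 := by
    intro k hk
    ext i j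
    exact Polynomial.coeff_eq_zero_of_natDegree_lt (lt_of_le_of_lt (hdeg i j) hk)
  have hunit : IsUnit (a 0) := by
    obtain ⟨J', hJ', hc⟩ := hJ 1
    have h1 := hJ'.map (RingHom.mapMatrix (m := Fin n)
      ((Polynomial.constantCoeff (R := R K n)).comp s.toRingHom))
    have h2 : a 0 = (RingHom.mapMatrix (m := Fin n)
      ((Polynomial.constantCoeff (R := R K n)).comp s.toRingHom)) J' := by
      ext i j
      exact hc i j 0 Nat.zero_lt_one
    rw [h2]
    exact h1
  obtain ⟨U, hU⟩ := hunit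
  set L : Matrix (Fin n) (Fin n) (R K n) := (U⁻¹).val with hL
  have hL1 : L * a 0 = 1 := by rw [← hU, hL]; exact U.inv_mul
  have hL2 : a 0 * L = 1 := by rw [← hU, hL]; exact U.mul_inv
  -- the companion matrix
  set C' : Matrix (Fin (d + 1) × Fin n) (Fin (d + 1) × Fin n) (R K n) :=
    Matrix.compRingEquiv (Fin (d + 1)) (Fin n) (R K n) (BB2_C L a d) with hC'
  have hpow : ∀ (c : Fin n) (k : ℕ),
      (C' ^ k).mulVec (fun p => BB2_u L a d 0 p.1 p.2 c) = fun p => BB2_u L a d k p.1 p.2 c := by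
    intro c k
    rw [hC', ← map_pow, BB2_comp_mulVec, BB2_pow L a d had, Nat.zero_add]
  set N := Fintype.card (Fin (d + 1) × Fin n) with hN
  have hzero : BB2_u L a d N = 0 := by
    funext l
    ext i c
    have := BB2_KL hK C' (fun p => BB2_u L a d 0 p.1 p.2 c) (by
      intro E _ _ β _ _ ρ
      obtain ⟨k0, hk0⟩ := BB2_rho hD s J hJ a (fun _ _ _ => rfl) L hL1 hL2 ρ
      refine ⟨k0 + d + 1, fun p => ?_⟩
      rw [hpow]
      show ρ (BB2_u L a d (k0 + d + 1) p.1 p.2 c) = 0
      have hp := p.1.2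
      rw [BB2_u, if_pos (by omega)]
      exact hk0 _ (by omega) _ _)
    rw [hpow] at this
    exact congrFun this (l, i)
  have hh : ∀ k, N ≤ k → BB2_h L a k = 0 := by
    intro k hk
    obtain ⟨j, rfl⟩ := Nat.exists_eq_add_of_le hk
    have h1 := BB2_pow L a d had j N
    rw [hzero, Matrix.mulVec_zero] at h1
    have h2 := congrFun h1 0
    simpa [BB2_u] using h2.symm
  set P : Polynomial (Matrix (Fin n) (Fin n) (R K n)) :=
    ∑ k ∈ Finset.range (d + 1), Polynomial.monomial k (a k) with hP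
  set Q : Polynomial (Matrix (Fin n) (Fin n) (R K n)) :=
    ∑ k ∈ Finset.range N, Polynomial.monomial k (BB2_h L a k) with hQ
  have hPc : ∀ k, P.coeff k = a k := by
    intro k
    rw [hP, Polynomial.finsetSum_coeff]
    simp only [Polynomial.coeff_monomial]
    rw [Finset.sum_ite_eq']
    split_ifs with h
    · rfl
    · rw [had k (by simpa using h)]
  have hQc : ∀ k, Q.coeff k = BB2_h L a k := by
    intro k
    rw [hQ, Polynomial.finsetSum_coeff]
    simp only [Polynomial.coeff_monomial]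
    rw [Finset.sum_ite_eq']
    split_ifs with h
    · rfl
    · rw [hh k (by simpa using h)]
  have hPQ : P * Q = 1 := by
    ext1 m
    rw [Polynomial.coeff_mul, Polynomial.coeff_one]
    simp only [hPc, hQc]
    exact BB2_conv L a hL2 m
  have hQP : Q * P = 1 := by
    ext1 m
    refine BB2_uniq L a hL1 (fun k => (Q * P).coeff k)
      (fun k => (1 : Polynomial (Matrix (Fin n) (Fin n) (R K n))).coeff k) (fun m => ?_) m
    have e1 : P * (Q * P) = P * 1 := by rw [← mul_assoc, hPQ, one_mul, mul_one]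
    have := congrArg (fun T => Polynomial.coeff T m) e1
    simp only [Polynomial.coeff_mul P, hPc] at this
    exact this
  set ev : Polynomial (Matrix (Fin n) (Fin n) (R K n)) →+* Matrix (Fin n) (Fin n) (R K n) :=
    Polynomial.eval₂RingHom' (RingHom.id _) 1 (fun x => Commute.one_right _) with hev
  have hevP : ev P = J := by
    rw [hP, map_sum]
    have h1 : ∀ k, ev (Polynomial.monomial k (a k)) = a k := by
      intro k
      show Polynomial.eval₂ (RingHom.id _) 1 (Polynomial.monomial k (a k)) = a k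
      rw [Polynomial.eval₂_monomial]
      simp
    simp only [h1]
    ext i j
    rw [Matrix.sum_apply]
    have h2 := hs (J i j)
    rw [Polynomial.sum_over_range' (s (J i j)) (fun _ => rfl) (d + 1)
      (Nat.lt_succ_of_le (hdeg i j))] at h2
    exact h2
  refine ⟨⟨J, ev Q, ?_, ?_⟩, rfl⟩
  · rw [← hevP, ← map_mul, hPQ, map_one]
  · rw [← hevP, ← map_mul, hQP, map_one]

end

end Pool.Agent.R433.GE
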