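import Pool.Agent.R433.GE.Stm

/-!
# Piece BB of project GE
-/

set_option autoImplicit false

namespace Pool.Agent.R433.GE

open scoped TensorProduct BigOperators
open MulOpposite

noncomputable section

/-- KL for general index types -/
theorem BB_KL (hK : S_KL) (K : Type) [Field K] (n : ℕ) (ι : Type) [Fintype ι] [DecidableEq ι]
    (C : Matrix ι ι (R K n)) (u : ι → R K n)
    (h : ∀ (E : Type) [Field E] [Algebra K E] (β : Type) [Fintype β] [DecidableEq β]
      (ρ : R K n →ₐ[K] Matrix β β E), ∃ k : ℕ, ∀ i, ρ (((C ^ k).mulVec u) i) = 0) :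
    ∃ M : ℕ, ∀ k, M ≤ k → (C ^ k).mulVec u = 0 := by
  classical
  let e : ι ≃ Fin (Fintype.card ι) := Fintype.equivFin ι
  have aux : ∀ k : ℕ, ((C.submatrix e.symm e.symm) ^ k).mulVec (u ∘ e.symm) =
      ((C ^ k).mulVec u) ∘ e.symm := by
    intro k
    induction k with
    | zero => simp
    | succ k ih =>
      rw [pow_succ', ← Matrix.mulVec_mulVec, ih, pow_succ', ← Matrix.mulVec_mulVec]
      rw [Matrix.submatrix_mulVec_equiv]
      congr 2
      funext i
      simp
  have h0 := hK K n (Fintype.card ι) (C.submatrix e.symm e.symm) (u ∘ e.symm) (by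
    intro E _ _ β _ _ ρ
    obtain ⟨k, hk⟩ := h E β ρ
    refine ⟨k, fun i => ?_⟩
    rw [aux]
    exact hk _)
  rw [aux] at h0
  have h1 : (C ^ (Fintype.card ι)).mulVec u = 0 := by
    funext i
    have := congrFun h0 (e i)
    simpa using this
  refine ⟨Fintype.card ι, fun k hk => ?_⟩
  obtain ⟨r, rfl⟩ := Nat.exists_eq_add_of_le hk
  rw [add_comm, pow_add, ← Matrix.mulVec_mulVec, h1, Matrix.mulVec_zero]

theorem BB_rec {S : Type} [Ring S] (J H : ℕ → S) (L : S) (hL : L * J 0 = 1) (N : ℕ)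
    (hN : ∀ k, N < k → J k = 0)
    (hJH : ∀ k, ∑ p ∈ Finset.HasAntidiagonal.antidiagonal (k + 1), J p.1 * H p.2 = 0) (k : ℕ) :
    H (k + 1) = ∑ b : Fin N, -(L * J (b.val + 1)) * (if b.val ≤ k then H (k - b.val) else 0) := by
  have h1 := hJH k
  rw [Finset.Nat.sum_antidiagonal_succ] at h1
  simp only at h1
  rw [Finset.Nat.sum_antidiagonal_eq_sum_range_succ (fun a b => J (a + 1) * H b)] at h1
  have h2 : H (k + 1) = ∑ b ∈ Finset.range (k + 1),
      -(L * J (b + 1)) * (if b ≤ k then H (k - b) else 0) := by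
    have h3 : L * (J 0 * H (k + 1) + ∑ x ∈ Finset.range k.succ, J (x + 1) * H (k - x)) = 0 := by
      rw [h1, mul_zero]
    rw [mul_add, ← mul_assoc, hL, one_mul, Finset.mul_sum] at h3
    rw [eq_neg_of_add_eq_zero_left h3, ← Finset.sum_neg_distrib]
    refine Finset.sum_congr rfl fun b hb => ?_
    rw [if_pos (Nat.lt_succ_iff.mp (Finset.mem_range.mp hb))]
    simp [mul_assoc]
  rw [Fin.sum_univ_eq_sum_range
    (fun b => -(L * J (b + 1)) * (if b ≤ k then H (k - b) else 0)) N, h2]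
  rw [Finset.sum_subset (Finset.range_mono (show k + 1 ≤ k + 1 + N by omega))]
  · symm
    apply Finset.sum_subset (Finset.range_mono (show N ≤ k + 1 + N by omega))
    intro b _ hb
    rw [Finset.mem_range, not_lt] at hb
    rw [hN (b + 1) (by omega)]
    simp
  · intro b _ hb
    rw [Finset.mem_range, not_lt] at hb
    rw [if_neg (by omega), mul_zero]

/-- companion matrix -/
def BB_C {B : Type} [Ring B] {n : ℕ} (N : ℕ) (J : ℕ → Matrix (Fin n) (Fin n) B)
    (L : Matrix (Fin n) (Fin n) B) : Matrix (Fin N × Fin n) (Fin N × Fin n) B := fun p q =>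
  if p.1.val = 0 then (-(L * J (q.1.val + 1))) p.2 q.2 else
    if q.1.val + 1 = p.1.val then (1 : Matrix (Fin n) (Fin n) B) p.2 q.2 else 0

def BB_u {B : Type} [Ring B] {n : ℕ} (N : ℕ) (H : ℕ → Matrix (Fin n) (Fin n) B) (c : Fin n)
    (k : ℕ) : Fin N × Fin n → B := fun p =>
  (if p.1.val ≤ k then H (k - p.1.val) else 0) p.2 c

theorem BB_step {B : Type} [Ring B] {n : ℕ} (J H : ℕ → Matrix (Fin n) (Fin n) B)
    (L : Matrix (Fin n) (Fin n) B) (hL : L * J 0 = 1) (N : ℕ)
    (hN : ∀ k, N < k → J k = 0)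
    (hJH : ∀ k, ∑ p ∈ Finset.HasAntidiagonal.antidiagonal (k + 1), J p.1 * H p.2 = 0) (c : Fin n) (k : ℕ) :
    (BB_C N J L).mulVec (BB_u N H c k) = BB_u N H c (k + 1) := by
  funext p
  obtain ⟨a, i⟩ := p
  have e1 : (BB_C N J L).mulVec (BB_u N H c k) (a, i) =
      ∑ b : Fin N, ∑ j : Fin n, BB_C N J L (a, i) (b, j) * BB_u N H c k (b, j) := by
    rw [Matrix.mulVec, dotProduct, Fintype.sum_prod_type]
  rw [e1]
  by_cases ha : a.val = 0
  · have e2 : BB_u N H c (k + 1) (a, i) = H (k + 1) i c := by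
      simp [BB_u, ha]
    rw [e2, BB_rec J H L hL N hN hJH k, Matrix.sum_apply]
    refine Finset.sum_congr rfl fun b _ => ?_
    rw [Matrix.mul_apply]
    refine Finset.sum_congr rfl fun j _ => ?_
    simp only [BB_C, BB_u, if_pos ha]
  · obtain ⟨a', ha'⟩ : ∃ a' : ℕ, a.val = a' + 1 := ⟨a.val - 1, by omega⟩
    have haN : a' < N := by have := a.isLt; omega
    rw [Finset.sum_eq_single (⟨a', haN⟩ : Fin N)]
    · have e3 : ∀ j : Fin n, BB_C N J L (a, i) (⟨a', haN⟩, j) * BB_u N H c k (⟨a', haN⟩, j) =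
          (1 : Matrix (Fin n) (Fin n) B) i j *
            (if a' ≤ k then H (k - a') else 0) j c := by
        intro j
        have hne : ¬ (a' + 1 = 0) := by omega
        simp only [BB_C, BB_u, ha', if_neg hne, if_true]
      rw [Finset.sum_congr rfl fun j _ => e3 j, ← Matrix.mul_apply, one_mul]
      simp only [BB_u, ha']
      by_cases hk : a' ≤ k
      · rw [if_pos hk, if_pos (by omega)]
        congr 1
        simp
      · rw [if_neg hk, if_neg (by omega)]
    · intro b _ hb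
      apply Finset.sum_eq_zero
      intro j _
      have : ¬ (b.val + 1 = a.val) := by
        intro h
        apply hb
        apply Fin.ext
        simp only
        omega
      simp only [BB_C, if_neg ha, if_neg this, zero_mul]
    · intro h
      exact absurd (Finset.mem_univ _) h

theorem BB_pow {B : Type} [Ring B] {n : ℕ} (J H : ℕ → Matrix (Fin n) (Fin n) B)
    (L : Matrix (Fin n) (Fin n) B) (hL : L * J 0 = 1) (N : ℕ)
    (hN : ∀ k, N < k → J k = 0)
    (hJH : ∀ k, ∑ p ∈ Finset.HasAntidiagonal.antidiagonal (k + 1), J p.1 * H p.2 = 0) (c : Fin n) (k : ℕ) :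
    ((BB_C N J L) ^ k).mulVec (BB_u N H c 0) = BB_u N H c k := by
  induction k with
  | zero => simp
  | succ k ih =>
    rw [pow_succ', ← Matrix.mulVec_mulVec, ih, BB_step J H L hL N hN hJH]

/-- the coefficient polynomials give a ring homomorphism -/
def BB_Phi {K : Type} [Field K] {n : ℕ} (s : R K n →ₐ[K] Polynomial (R K n)) {E β : Type}
    [Field E] [Algebra K E] [Fintype β] [DecidableEq β] (ρ : R K n →ₐ[K] Matrix β β E) :
    Matrix (Fin n) (Fin n) (R K n) →+* Matrix (Fin n × β) (Fin n × β) (Polynomial E) :=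
  (Matrix.compRingEquiv (Fin n) β (Polynomial E)).toRingHom.comp
    (RingHom.mapMatrix ((matPolyEquiv.symm.toRingEquiv.toRingHom).comp
      ((Polynomial.mapRingHom ρ.toRingHom).comp s.toRingHom)))

theorem BB_Phi_coeff {K : Type} [Field K] {n : ℕ} (s : R K n →ₐ[K] Polynomial (R K n))
    {E β : Type} [Field E] [Algebra K E] [Fintype β] [DecidableEq β]
    (ρ : R K n →ₐ[K] Matrix β β E) (A : Matrix (Fin n) (Fin n) (R K n)) (p q : Fin n × β)
    (k : ℕ) : (BB_Phi s ρ A p q).coeff k = ρ ((s (A p.1 q.1)).coeff k) p.2 q.2 := by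
  have e1 : BB_Phi s ρ A p q =
      (matPolyEquiv.symm (Polynomial.map ρ.toRingHom (s (A p.1 q.1)))) p.2 q.2 := rfl
  rw [e1, ← matPolyEquiv_coeff_apply, AlgEquiv.apply_symm_apply, Polynomial.coeff_map]
  rfl

def BB_f {K : Type} [Field K] {n : ℕ} {E β : Type}
    [Field E] [Algebra K E] [Fintype β] [DecidableEq β] (ρ : R K n →ₐ[K] Matrix β β E) :
    Matrix (Fin n) (Fin n) (R K n) →+* Matrix (Fin n × β) (Fin n × β) E :=
  (Matrix.compRingEquiv (Fin n) β E).toRingHom.comp (RingHom.mapMatrix ρ.toRingHom)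

theorem BB_f_apply {K : Type} [Field K] {n : ℕ} {E β : Type}
    [Field E] [Algebra K E] [Fintype β] [DecidableEq β] (ρ : R K n →ₐ[K] Matrix β β E)
    (A : Matrix (Fin n) (Fin n) (R K n)) (p q : Fin n × β) :
    BB_f ρ A p q = ρ (A p.1 q.1) p.2 q.2 := rfl

/-- the inverse series is polynomial under every representation -/
theorem BB_van (hD : S_DET) {K : Type} [Field K] {n : ℕ}
    (s : R K n →ₐ[K] Polynomial (R K n)) (J : Matrix (Fin n) (Fin n) (R K n))
    (hJ : ∀ m : ℕ, ∃ J' : Matrix (Fin n) (Fin n) (R K n), IsUnit J' ∧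
      ∀ i j k, k < m → (s (J i j)).coeff k = (s (J' i j)).coeff k)
    (Hp : PowerSeries (Matrix (Fin n) (Fin n) (R K n)))
    (hH : Hp * (PowerSeries.mk fun k => Matrix.of fun i j => (s (J i j)).coeff k) = 1)
    {E β : Type} [Field E] [Algebra K E] [Fintype β] [DecidableEq β]
    (ρ : R K n →ₐ[K] Matrix β β E) :
    ∃ M : ℕ, ∀ k, M ≤ k → ∀ i j, ρ (PowerSeries.coeff k Hp i j) = 0 := by
  classical
  have hU : IsUnit (BB_Phi s ρ J) := by
    apply hD E (Fin n × β) (BB_Phi s ρ J)
    intro m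
    obtain ⟨J', hJ', hc⟩ := hJ m
    refine ⟨BB_Phi s ρ J', hJ'.map (BB_Phi s ρ), fun i j k hk => ?_⟩
    rw [BB_Phi_coeff, BB_Phi_coeff, hc _ _ _ hk]
  obtain ⟨V, hV⟩ := hU.exists_right_inv
  have hV' : matPolyEquiv (BB_Phi s ρ J) * matPolyEquiv V = 1 := by
    rw [← map_mul, hV, map_one]
  set Wp := matPolyEquiv (BB_Phi s ρ J) with hWp
  set Vp := matPolyEquiv V with hVp
  have h1 : (PowerSeries.mk fun k => Wp.coeff k) * (PowerSeries.mk fun k => Vp.coeff k) = 1 := by
    ext1 k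
    have := congrArg (fun p => Polynomial.coeff p k) hV'
    simp only [Polynomial.coeff_mul, Polynomial.coeff_one] at this
    rw [PowerSeries.coeff_mul, PowerSeries.coeff_one]
    simpa using this
  have h2 : PowerSeries.map (BB_f ρ)
      (PowerSeries.mk fun k => Matrix.of fun i j => (s (J i j)).coeff k) =
      PowerSeries.mk fun k => Wp.coeff k := by
    ext1 k
    rw [PowerSeries.coeff_map, PowerSeries.coeff_mk, PowerSeries.coeff_mk]
    ext p q
    rw [BB_f_apply, hWp, matPolyEquiv_coeff_apply, BB_Phi_coeff]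
    rfl
  have h3 : PowerSeries.map (BB_f ρ) Hp = PowerSeries.mk fun k => Vp.coeff k := by
    have h4 : PowerSeries.map (BB_f ρ) Hp * (PowerSeries.mk fun k => Wp.coeff k) = 1 := by
      rw [← h2, ← map_mul, hH, map_one]
    calc PowerSeries.map (BB_f ρ) Hp = PowerSeries.map (BB_f ρ) Hp *
          ((PowerSeries.mk fun k => Wp.coeff k) * (PowerSeries.mk fun k => Vp.coeff k)) := by
          rw [h1, mul_one]
      _ = _ := by rw [← mul_assoc, h4, one_mul]
  refine ⟨Vp.natDegree + 1, fun k hk i j => ?_⟩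
  have h5 := congrArg (PowerSeries.coeff k) h3
  rw [PowerSeries.coeff_map, PowerSeries.coeff_mk,
    Polynomial.coeff_eq_zero_of_natDegree_lt (by omega)] at h5
  ext b c
  have := congrFun (congrFun h5 (i, b)) (j, c)
  rw [BB_f_apply] at this
  simpa using this

theorem BB_eval_mul {S : Type} [Ring S] (p q : Polynomial S) :
    (p * q).eval 1 = p.eval 1 * q.eval 1 :=
  Polynomial.eval₂_mul_noncomm (RingHom.id S) 1 (fun k => Commute.one_right _)

def BB_P {S : Type} [Ring S] (D : ℕ) (a : ℕ → S) : Polynomial S :=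
  ∑ k ∈ Finset.range D, Polynomial.monomial k (a k)

theorem BB_P_coeff {S : Type} [Ring S] (D : ℕ) (a : ℕ → S) (h : ∀ k, D ≤ k → a k = 0) (k : ℕ) :
    (BB_P D a).coeff k = a k := by
  rw [BB_P, Polynomial.finsetSum_coeff]
  simp only [Polynomial.coeff_monomial]
  rw [Finset.sum_ite_eq']
  split_ifs with hk
  · rfl
  · rw [h k (by simpa using hk)]

theorem BB_P_eval {S : Type} [Ring S] (D : ℕ) (a : ℕ → S) :
    (BB_P D a).eval 1 = ∑ k ∈ Finset.range D, a k := by
  rw [BB_P, Polynomial.eval_finsetSum]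
  simp

theorem BB_P_mul {S : Type} [Ring S] (D D' : ℕ) (a a' : ℕ → S) (h : ∀ k, D ≤ k → a k = 0)
    (h' : ∀ k, D' ≤ k → a' k = 0)
    (hm : (PowerSeries.mk a) * (PowerSeries.mk a') = 1) : BB_P D a * BB_P D' a' = 1 := by
  ext1 k
  have := congrArg (PowerSeries.coeff k) hm
  rw [PowerSeries.coeff_mul, PowerSeries.coeff_one] at this
  rw [Polynomial.coeff_mul, Polynomial.coeff_one]
  simp only [BB_P_coeff D a h, BB_P_coeff D' a' h']
  simpa [eq_comm] using this

theorem t_BB (hK : S_KL) (hD : S_DET) : S_BB := by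
  classical
  intro K _ n s hs J hJ
  obtain ⟨a, ha0, ha⟩ : ∃ a : ℕ → Matrix (Fin n) (Fin n) (R K n),
      (a = fun k => Matrix.of fun i j => (s (J i j)).coeff k) ∧
      ∀ k i j, a k i j = (s (J i j)).coeff k := ⟨_, rfl, fun _ _ _ => rfl⟩
  -- a bound for the degrees
  obtain ⟨D, hD1, hDb⟩ : ∃ D : ℕ, 1 ≤ D ∧ ∀ i j, (s (J i j)).natDegree < D := by
    refine ⟨(Finset.univ.sup fun i : Fin n => Finset.univ.sup fun j : Fin n =>
      (s (J i j)).natDegree) + 1, by omega, fun i j => ?_⟩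
    have h1 : (s (J i j)).natDegree ≤ Finset.univ.sup fun j : Fin n => (s (J i j)).natDegree :=
      Finset.le_sup (f := fun j : Fin n => (s (J i j)).natDegree) (Finset.mem_univ j)
    have h2 := Finset.le_sup (f := fun i : Fin n => Finset.univ.sup fun j : Fin n =>
      (s (J i j)).natDegree) (Finset.mem_univ i)
    exact Nat.lt_succ_of_le (le_trans h1 h2)
  have haD : ∀ k, D ≤ k → a k = 0 := by
    intro k hk
    ext i j
    rw [ha, Matrix.zero_apply]
    exact Polynomial.coeff_eq_zero_of_natDegree_lt (lt_of_lt_of_le (hDb i j) hk)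
  -- the constant coefficient is a unit
  have h0 : IsUnit (a 0) := by
    obtain ⟨J', hJ', hc⟩ := hJ 1
    have h1 : IsUnit ((RingHom.mapMatrix (Polynomial.constantCoeff.comp s.toRingHom) :
        Matrix (Fin n) (Fin n) (R K n) →+* Matrix (Fin n) (Fin n) (R K n)) J') := hJ'.map _
    have h2 : (RingHom.mapMatrix (Polynomial.constantCoeff.comp s.toRingHom) :
        Matrix (Fin n) (Fin n) (R K n) →+* Matrix (Fin n) (Fin n) (R K n)) J' = a 0 := by
      ext i j
      rw [ha, hc i j 0 (by omega)]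
      rfl
    rw [← h2]
    exact h1
  obtain ⟨L, hL⟩ := h0
  set Jp : PowerSeries (Matrix (Fin n) (Fin n) (R K n)) := PowerSeries.mk a with hJp
  have hc0 : PowerSeries.constantCoeff Jp = (L : Matrix (Fin n) (Fin n) (R K n)) := by
    rw [hJp, hL, ← PowerSeries.coeff_zero_eq_constantCoeff_apply, PowerSeries.coeff_mk]
  set Hp := PowerSeries.invOfUnit Jp L with hHp
  have hJH : Jp * Hp = 1 := PowerSeries.mul_invOfUnit Jp L hc0
  have hHJ : Hp * Jp = 1 := PowerSeries.invOfUnit_mul Jp L hc0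
  set H : ℕ → Matrix (Fin n) (Fin n) (R K n) := fun k => PowerSeries.coeff k Hp with hHdef
  have hHmk : PowerSeries.mk H = Hp := by
    ext1 k
    rw [PowerSeries.coeff_mk]
  have hconv : ∀ k, ∑ p ∈ Finset.HasAntidiagonal.antidiagonal (k + 1), a p.1 * H p.2 = 0 := by
    intro k
    have h1 := congrArg (PowerSeries.coeff (k + 1)) hJH
    rw [PowerSeries.coeff_mul, PowerSeries.coeff_one, if_neg (by omega)] at h1
    simpa [hJp, PowerSeries.coeff_mk] using h1
  have hLa : ((L⁻¹ : (Matrix (Fin n) (Fin n) (R K n))ˣ) : Matrix (Fin n) (Fin n) (R K n)) * a 0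
      = 1 := by
    rw [← hL]; simp
  have hvan : ∀ c : Fin n, ∃ M : ℕ, ∀ k, M ≤ k → ∀ i, H k i c = 0 := by
    intro c
    obtain ⟨M, hM⟩ := BB_KL hK K n (Fin D × Fin n)
      (BB_C D a ((L⁻¹ : (Matrix (Fin n) (Fin n) (R K n))ˣ) : Matrix (Fin n) (Fin n) (R K n)))
      (BB_u D H c 0) (by
        intro E _ _ β _ _ ρ
        obtain ⟨M, hM⟩ := BB_van hD s J hJ Hp (by rw [← ha0]; exact hHJ) ρ
        refine ⟨M + D, fun p => ?_⟩
        rw [BB_pow a H _ hLa D (fun k hk => haD k (le_of_lt hk)) hconv]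
        have hp := p.1.isLt
        rw [BB_u, if_pos (by omega)]
        exact hM _ (by omega) _ _)
    refine ⟨M, fun k hk i => ?_⟩
    have h1 := hM k hk
    rw [BB_pow a H _ hLa D (fun k hk => haD k (le_of_lt hk)) hconv] at h1
    have h2 := congrFun h1 (⟨0, by omega⟩, i)
    simpa [BB_u] using h2
  choose M hM using hvan
  have hHD : ∀ k, Finset.univ.sup M ≤ k → H k = 0 := by
    intro k hk
    ext i c
    exact hM c k (le_trans (Finset.le_sup (Finset.mem_univ c)) hk) i
  have hP1 : BB_P D a * BB_P (Finset.univ.sup M) H = 1 :=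
    BB_P_mul _ _ _ _ haD hHD (by rw [hHmk]; exact hJH)
  have hP2 : BB_P (Finset.univ.sup M) H * BB_P D a = 1 :=
    BB_P_mul _ _ _ _ hHD haD (by rw [hHmk]; exact hHJ)
  have hev : (BB_P D a).eval 1 = J := by
    rw [BB_P_eval]
    ext i j
    rw [Matrix.sum_apply]
    conv_rhs => rw [← hs (J i j)]
    rw [Polynomial.sum_over_range' _ (fun _ => rfl) D (hDb i j)]
    exact Finset.sum_congr rfl fun k _ => ha k i j
  have e1 := congrArg (Polynomial.eval 1) hP1
  have e2 := congrArg (Polynomial.eval 1) hP2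
  rw [BB_eval_mul, hev, Polynomial.eval_one] at e1 e2
  exact ⟨⟨J, _, e1, e2⟩, rfl⟩

end

end Pool.Agent.R433.GE
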