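import Pool.Agent.R433.GE.Stm

/-! piece DD: double derivations -/

set_option autoImplicit false

namespace Pool.Agent.R433.GE

open scoped TensorProduct BigOperators
open MulOpposite

noncomputable section

section base

variable {K : Type} [Field K] {n : ℕ}

/-- the action of `R` on an algebra `B` with two homomorphisms `A → B` -/
def DD_act {B : Type} [Ring B] [Algebra K B] (l r : A K n →ₐ[K] B) : R K n →ₐ[K] Module.End K B :=
  (AlgHom.mulLeftRight K B).comp (Algebra.TensorProduct.map l (AlgHom.op r))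

theorem DD_act_tmul {B : Type} [Ring B] [Algebra K B] (l r : A K n →ₐ[K] B) (p q : A K n) (m : B) :
    DD_act l r (p ⊗ₜ[K] op q) m = l p * m * r q := by
  simp [DD_act]

theorem DD_d_one {d : Fin n → (A K n →ₗ[K] R K n)} (hd : IsDer d) (j : Fin n) : d j 1 = 0 := by
  have h := hd.mul j 1 1
  rw [mul_one] at h
  have e1 : ((1 : A K n) ⊗ₜ[K] op (1 : A K n)) = (1 : R K n) := rfl
  have e2 : ((1 : A K n) ⊗ₜ[K] (1 : (A K n)ᵐᵒᵖ)) = (1 : R K n) := rfl
  rw [e1, e2, one_mul] at h
  exact left_eq_add.1 h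

theorem DD_U0 {B : Type} [Ring B] [Algebra K B] (l r : A K n →ₐ[K] B) (E : A K n →ₗ[K] B)
    (hE : ∀ a b, E (a * b) = l a * E b + E a * r b) {d : Fin n → (A K n →ₗ[K] R K n)}
    (hd : IsDer d) (a : A K n) : E a = ∑ j, DD_act l r (d j a) (E (gx K n j)) := by
  have hE1 : E 1 = 0 := by
    have h := hE 1 1
    rw [mul_one, map_one l, map_one r, one_mul, mul_one] at h
    exact left_eq_add.1 h
  induction a using FreeAlgebra.induction with
  | grade0 c =>
    have e : (algebraMap K (FreeAlgebra K (Fin n)) c) = c • (1 : A K n) :=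
      Algebra.algebraMap_eq_smul_one c
    rw [e, map_smul, hE1, smul_zero]
    symm
    apply Finset.sum_eq_zero
    intro j _
    rw [map_smul, DD_d_one hd, smul_zero, map_zero, LinearMap.zero_apply]
  | grade1 k =>
    have h : ∀ j, d j (FreeAlgebra.ι K k) = if j = k then 1 else 0 := fun j => hd.gen j k
    simp only [h]
    rw [Finset.sum_eq_single k]
    · rw [if_pos rfl, map_one]; rfl
    · intro j _ hj
      rw [if_neg hj, map_zero, LinearMap.zero_apply]
    · intro h; exact absurd (Finset.mem_univ k) h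
  | mul a b ha hb =>
    rw [hE, ha, hb, Finset.mul_sum, Finset.sum_mul, ← Finset.sum_add_distrib]
    refine Finset.sum_congr rfl fun j _ => ?_
    rw [hd.mul, map_add, map_mul, map_mul, LinearMap.add_apply, Module.End.mul_apply,
      Module.End.mul_apply, DD_act_tmul]
    have h1 : ∀ m, DD_act l r (a ⊗ₜ[K] (1 : (A K n)ᵐᵒᵖ)) m = l a * m := by
      intro m
      have := DD_act_tmul l r a 1 m
      rw [map_one, mul_one] at this
      exact this
    rw [h1, map_one, one_mul, add_comm]
  | add a b ha hb =>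
    rw [map_add, ha, hb, ← Finset.sum_add_distrib]
    refine Finset.sum_congr rfl fun j _ => ?_
    rw [map_add, map_add, LinearMap.add_apply]

theorem DD_U {B : Type} [Ring B] [Algebra K B] (l r : A K n →ₐ[K] B) (E : A K n →ₗ[K] B)
    (hE : ∀ a b, E (a * b) = l a * E b + E a * r b) {d : Fin n → (A K n →ₗ[K] R K n)}
    (hd : IsDer d) (f : Fin n → A K n) (H : Matrix (Fin n) (Fin n) (R K n))
    (hH : ∀ j k, ∑ i, H j i * d k (f i) = if j = k then 1 else 0) (a : A K n) :
    E a = ∑ i, DD_act l r (∑ j, d j a * H j i) (E (f i)) := by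
  have key : ∀ k, ∑ i, (∑ j, d j a * H j i) * d k (f i) = d k a := by
    intro k
    simp_rw [Finset.sum_mul, mul_assoc]
    rw [Finset.sum_comm]
    simp_rw [← Finset.mul_sum, hH]
    simp
  rw [DD_U0 l r E hE hd a]
  have h1 : ∀ i, DD_act l r (∑ j, d j a * H j i) (E (f i)) =
      ∑ k, DD_act l r ((∑ j, d j a * H j i) * d k (f i)) (E (gx K n k)) := by
    intro i
    rw [DD_U0 l r E hE hd (f i), map_sum]
    refine Finset.sum_congr rfl fun k _ => ?_
    rw [map_mul, Module.End.mul_apply]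
  simp only [h1]
  rw [Finset.sum_comm]
  refine Finset.sum_congr rfl fun k _ => ?_
  rw [← LinearMap.sum_apply, ← map_sum, key]

/-- the linear isomorphism `R → A ⊗ A` -/
def DD_io (K : Type) [Field K] (n : ℕ) : R K n →ₗ[K] A K n ⊗[K] A K n :=
  LinearMap.lTensor (A K n) ((opLinearEquiv K : A K n ≃ₗ[K] (A K n)ᵐᵒᵖ).symm.toLinearMap)

theorem DD_io_tmul (p q : A K n) : DD_io K n (p ⊗ₜ[K] op q) = p ⊗ₜ[K] q := by
  simp [DD_io]

theorem DD_io_tmul' (p : A K n) (q : (A K n)ᵐᵒᵖ) : DD_io K n (p ⊗ₜ[K] q) = p ⊗ₜ[K] unop q := by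
  simp [DD_io]

theorem DD_io_L (a : A K n) (z : R K n) :
    DD_io K n ((a ⊗ₜ[K] 1) * z) = (a ⊗ₜ[K] 1) * DD_io K n z := by
  induction z using TensorProduct.induction_on with
  | zero => simp
  | tmul p q =>
    rw [Algebra.TensorProduct.tmul_mul_tmul, DD_io_tmul', DD_io_tmul',
      Algebra.TensorProduct.tmul_mul_tmul, one_mul, one_mul]
  | add x y hx hy => rw [mul_add, map_add, map_add, mul_add, hx, hy]

theorem DD_io_R (b : A K n) (z : R K n) :
    DD_io K n (((1 : A K n) ⊗ₜ[K] op b) * z) = DD_io K n z * ((1 : A K n) ⊗ₜ[K] b) := by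
  induction z using TensorProduct.induction_on with
  | zero => simp
  | tmul p q =>
    rw [Algebra.TensorProduct.tmul_mul_tmul, DD_io_tmul', DD_io_tmul',
      Algebra.TensorProduct.tmul_mul_tmul, one_mul, mul_one, unop_mul, unop_op]
  | add x y hx hy => rw [mul_add, map_add, map_add, add_mul, hx, hy]

end base

section co

variable {K : Type} [Field K] {C : Type} [Ring C] [Algebra K C]

def DD_l : C →ₐ[K] C ⊗[K] (C ⊗[K] C) :=
  Algebra.TensorProduct.includeLeft

def DD_r : C →ₐ[K] C ⊗[K] (C ⊗[K] C) :=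
  (Algebra.TensorProduct.includeRight).comp Algebra.TensorProduct.includeRight

theorem DD_l_apply (a : C) : DD_l (K := K) a = a ⊗ₜ[K] ((1 : C) ⊗ₜ[K] (1 : C)) := rfl

theorem DD_r_apply (a : C) : DD_r (K := K) a = (1 : C) ⊗ₜ[K] ((1 : C) ⊗ₜ[K] a) := rfl

def DD_P (K : Type) [Field K] (C : Type) [Ring C] [Algebra K C] : C ⊗[K] C →ₗ[K] C ⊗[K] (C ⊗[K] C) :=
  LinearMap.lTensor C
    ((Algebra.TensorProduct.includeLeft : C →ₐ[K] C ⊗[K] C).toLinearMap)

theorem DD_P_tmul (p q : C) : DD_P K C (p ⊗ₜ[K] q) = p ⊗ₜ[K] (q ⊗ₜ[K] (1 : C)) := by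
  simp [DD_P]

theorem DD_s1 (a w : C) (u : C ⊗[K] C) :
    TensorProduct.assoc K C C C (((a ⊗ₜ[K] 1) * u) ⊗ₜ[K] w) =
      DD_l (K := K) a * TensorProduct.assoc K C C C (u ⊗ₜ[K] w) := by
  induction u using TensorProduct.induction_on with
  | zero => simp
  | tmul p q =>
    rw [Algebra.TensorProduct.tmul_mul_tmul, TensorProduct.assoc_tmul, TensorProduct.assoc_tmul,
      DD_l_apply, Algebra.TensorProduct.tmul_mul_tmul, Algebra.TensorProduct.tmul_mul_tmul,
      one_mul, one_mul]
  | add x y hx hy =>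
    rw [mul_add, TensorProduct.add_tmul, map_add, hx, hy, TensorProduct.add_tmul, map_add, mul_add]

theorem DD_s2 (y w : C) (u : C ⊗[K] C) :
    TensorProduct.assoc K C C C ((u * ((1 : C) ⊗ₜ[K] y)) ⊗ₜ[K] w) =
      DD_P K C u * ((1 : C) ⊗ₜ[K] (y ⊗ₜ[K] w)) := by
  induction u using TensorProduct.induction_on with
  | zero => simp
  | tmul p q =>
    rw [Algebra.TensorProduct.tmul_mul_tmul, TensorProduct.assoc_tmul, DD_P_tmul,
      Algebra.TensorProduct.tmul_mul_tmul, Algebra.TensorProduct.tmul_mul_tmul, one_mul]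
  | add x y' hx hy =>
    rw [add_mul, TensorProduct.add_tmul, map_add, hx, hy, map_add, add_mul]

theorem DD_s3 (w b : C) (u : C ⊗[K] C) :
    TensorProduct.assoc K C C C (u ⊗ₜ[K] (w * b)) =
      TensorProduct.assoc K C C C (u ⊗ₜ[K] w) * DD_r (K := K) b := by
  induction u using TensorProduct.induction_on with
  | zero => simp
  | tmul p q =>
    rw [TensorProduct.assoc_tmul, TensorProduct.assoc_tmul, DD_r_apply,
      Algebra.TensorProduct.tmul_mul_tmul, Algebra.TensorProduct.tmul_mul_tmul, mul_one, mul_one]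
  | add x y' hx hy =>
    rw [TensorProduct.add_tmul, map_add, hx, hy, TensorProduct.add_tmul, map_add, add_mul]

variable {D : C →ₗ[K] C ⊗[K] C}

theorem DD_t1 (hD : ∀ a b, D (a * b) = (a ⊗ₜ[K] 1) * D b + D a * ((1 : C) ⊗ₜ[K] b))
    (a : C) (z : C ⊗[K] C) :
    TensorProduct.assoc K C C C (D.rTensor C ((a ⊗ₜ[K] 1) * z)) =
      DD_l (K := K) a * TensorProduct.assoc K C C C (D.rTensor C z) +
      DD_P K C (D a) * ((1 : C) ⊗ₜ[K] z) := by
  induction z using TensorProduct.induction_on with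
  | zero => simp
  | tmul y w =>
    rw [Algebra.TensorProduct.tmul_mul_tmul, LinearMap.rTensor_tmul, LinearMap.rTensor_tmul, hD,
      TensorProduct.add_tmul, map_add, one_mul, DD_s1, DD_s2]
  | add x y hx hy =>
    rw [mul_add, map_add, map_add, hx, hy, map_add, map_add, mul_add, TensorProduct.tmul_add,
      mul_add]
    abel

theorem DD_t2 (b : C) (z : C ⊗[K] C) :
    TensorProduct.assoc K C C C (D.rTensor C (z * ((1 : C) ⊗ₜ[K] b))) =
      TensorProduct.assoc K C C C (D.rTensor C z) * DD_r (K := K) b := by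
  induction z using TensorProduct.induction_on with
  | zero => simp
  | tmul y w =>
    rw [Algebra.TensorProduct.tmul_mul_tmul, LinearMap.rTensor_tmul, LinearMap.rTensor_tmul,
      mul_one, DD_s3]
  | add x y hx hy =>
    rw [add_mul, map_add, map_add, hx, hy, map_add, map_add, add_mul]

theorem DD_k1 (a : C) (z : C ⊗[K] C) :
    D.lTensor C ((a ⊗ₜ[K] 1) * z) = DD_l (K := K) a * D.lTensor C z := by
  induction z using TensorProduct.induction_on with
  | zero => simp
  | tmul y w =>
    rw [Algebra.TensorProduct.tmul_mul_tmul, LinearMap.lTensor_tmul, LinearMap.lTensor_tmul,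
      DD_l_apply, one_mul]
    have e : ((1 : C) ⊗ₜ[K] (1 : C)) = (1 : C ⊗[K] C) := rfl
    rw [e, Algebra.TensorProduct.tmul_mul_tmul, one_mul]
  | add x y hx hy =>
    rw [mul_add, map_add, hx, hy, map_add, mul_add]

theorem DD_k2 (hD : ∀ a b, D (a * b) = (a ⊗ₜ[K] 1) * D b + D a * ((1 : C) ⊗ₜ[K] b))
    (b : C) (z : C ⊗[K] C) :
    D.lTensor C (z * ((1 : C) ⊗ₜ[K] b)) =
      D.lTensor C z * DD_r (K := K) b + DD_P K C z * ((1 : C) ⊗ₜ[K] (D b)) := by
  induction z using TensorProduct.induction_on with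
  | zero => simp
  | tmul y w =>
    rw [Algebra.TensorProduct.tmul_mul_tmul, LinearMap.lTensor_tmul, LinearMap.lTensor_tmul,
      mul_one, hD, TensorProduct.tmul_add, DD_r_apply, DD_P_tmul,
      Algebra.TensorProduct.tmul_mul_tmul, Algebra.TensorProduct.tmul_mul_tmul, mul_one, add_comm]
  | add x y hx hy =>
    rw [add_mul, map_add, hx, hy, map_add, add_mul, map_add, add_mul]
    abel


theorem DD_COgen {ι : Type} [DecidableEq ι] (f : ι → C)
    (hU : ∀ (B : Type) [Ring B] [Algebra K B] (l r : C →ₐ[K] B) (E : C →ₗ[K] B),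
      (∀ a b, E (a * b) = l a * E b + E a * r b) → (∀ k, E (f k) = 0) → ∀ a, E a = 0)
    (D : ι → (C →ₗ[K] C ⊗[K] C))
    (hD : ∀ i a b, D i (a * b) = (a ⊗ₜ[K] 1) * D i b + D i a * ((1 : C) ⊗ₜ[K] b))
    (hf : ∀ i k, D i (f k) = if k = i then 1 else 0) (i j : ι) (a : C) :
    TensorProduct.assoc K C C C ((D i).rTensor C (D j a)) = (D j).lTensor C (D i a) := by
  have h1 : ∀ i, D i 1 = 0 := by
    intro i
    have h := hD i 1 1
    have e : ((1 : C) ⊗ₜ[K] (1 : C)) = (1 : C ⊗[K] C) := rfl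
    rw [mul_one, e, one_mul, mul_one] at h
    exact left_eq_add.1 h
  let E : C →ₗ[K] C ⊗[K] (C ⊗[K] C) :=
    (TensorProduct.assoc K C C C).toLinearMap ∘ₗ (D i).rTensor C ∘ₗ D j -
      (D j).lTensor C ∘ₗ D i
  have hE : ∀ a, E a = TensorProduct.assoc K C C C ((D i).rTensor C (D j a)) -
      (D j).lTensor C (D i a) := fun a => rfl
  have key := hU (C ⊗[K] (C ⊗[K] C)) DD_l DD_r E (by
    intro a b
    rw [hE, hE, hE, hD j a b, hD i a b, map_add, map_add, map_add, DD_t1 (hD i), DD_t2,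
      DD_k1, DD_k2 (hD j), mul_sub, sub_mul]
    abel) (by
    intro k
    have e : (1 : C ⊗[K] C) = ((1 : C) ⊗ₜ[K] (1 : C)) := rfl
    have z1 : (D i).rTensor C (D j (f k)) = 0 := by
      rw [hf]
      split_ifs
      · rw [e, LinearMap.rTensor_tmul, h1, TensorProduct.zero_tmul]
      · rw [map_zero]
    have z2 : (D j).lTensor C (D i (f k)) = 0 := by
      rw [hf]
      split_ifs
      · rw [e, LinearMap.lTensor_tmul, h1, TensorProduct.tmul_zero]
      · rw [map_zero]
    rw [hE, z1, z2, map_zero, sub_zero]) a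
  rw [hE] at key
  exact sub_eq_zero.1 key

end co

section fin

variable {K : Type} [Field K] {n : ℕ}

/-- evaluation of the left factor at the augmentation -/
def DD_Th (K : Type) [Field K] (n : ℕ) : A K n ⊗[K] A K n →ₗ[K] A K n :=
  (TensorProduct.lid K (A K n)).toLinearMap ∘ₗ ((eps K n).toLinearMap.rTensor (A K n))

theorem DD_Th_tmul (p q : A K n) : DD_Th K n (p ⊗ₜ[K] q) = eps K n p • q := by
  simp [DD_Th]

theorem DD_Th_act (f : A K n) (hf : eps K n f = 0) (z : R K n) :
    DD_Th K n (DD_act (B := A K n ⊗[K] A K n) Algebra.TensorProduct.includeLeft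
      Algebra.TensorProduct.includeRight z (f ⊗ₜ[K] 1 - 1 ⊗ₜ[K] f)) =
      - (f * DD_Th K n (DD_io K n z)) := by
  induction z using TensorProduct.induction_on with
  | zero => simp
  | tmul p q =>
    have h := DD_act_tmul (B := A K n ⊗[K] A K n) (Algebra.TensorProduct.includeLeft)
      (Algebra.TensorProduct.includeRight) p (unop q) (f ⊗ₜ[K] 1 - 1 ⊗ₜ[K] f)
    rw [op_unop] at h
    rw [h, DD_io_tmul', DD_Th_tmul, mul_sub, sub_mul, map_sub,
      Algebra.TensorProduct.includeLeft_apply, Algebra.TensorProduct.includeRight_apply,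
      Algebra.TensorProduct.tmul_mul_tmul, Algebra.TensorProduct.tmul_mul_tmul,
      Algebra.TensorProduct.tmul_mul_tmul, Algebra.TensorProduct.tmul_mul_tmul,
      DD_Th_tmul, DD_Th_tmul, mul_one, mul_one, one_mul, one_mul, mul_one, map_mul, hf, mul_zero,
      zero_smul, zero_sub, mul_smul_comm, mul_one]
  | add x y hx hy =>
    rw [map_add, LinearMap.add_apply, map_add, hx, hy, map_add, map_add, mul_add, neg_add]

theorem t_DD : S_DD := by
  intro K _ n d hd φ hφ hJ
  obtain ⟨u, hu⟩ := hJ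
  let H : Matrix (Fin n) (Fin n) (R K n) := ↑u⁻¹
  have hJH : Jac d φ * H = 1 := by rw [← hu]; exact u.mul_inv
  have hHJ : H * Jac d φ = 1 := by rw [← hu]; exact u.inv_mul
  have hH : ∀ j k, ∑ i, H j i * d k (φ (gx K n i)) = if j = k then 1 else 0 := by
    intro j k
    have h := congrFun (congrFun hHJ j) k
    rw [Matrix.mul_apply, Matrix.one_apply] at h
    exact h
  have hH2 : ∀ i k, ∑ j, d j (φ (gx K n k)) * H j i = if k = i then 1 else 0 := by
    intro i k
    have h := congrFun (congrFun hJH k) i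
    rw [Matrix.mul_apply, Matrix.one_apply] at h
    exact h
  let D : Fin n → (A K n →ₗ[K] A K n ⊗[K] A K n) := fun i =>
    DD_io K n ∘ₗ ∑ j, (LinearMap.mulRight K (H j i)) ∘ₗ d j
  have hDa : ∀ i a, D i a = DD_io K n (∑ j, d j a * H j i) := by
    intro i a
    simp only [D, LinearMap.comp_apply, LinearMap.sum_apply, LinearMap.mulRight_apply]
  have hDm : ∀ i a b, D i (a * b) = (a ⊗ₜ[K] 1) * D i b + D i a * ((1 : A K n) ⊗ₜ[K] b) := by
    intro i a b
    rw [hDa, hDa, hDa, ← DD_io_L, ← DD_io_R, ← map_add, Finset.mul_sum, Finset.mul_sum,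
      ← Finset.sum_add_distrib]
    congr 1
    refine Finset.sum_congr rfl fun j _ => ?_
    rw [hd.mul, add_mul, mul_assoc, mul_assoc, add_comm]
  have hDf : ∀ i k, D i (φ (gx K n k)) = if k = i then 1 else 0 := by
    intro i k
    rw [hDa, hH2]
    split_ifs
    · have e1 : (1 : R K n) = (1 : A K n) ⊗ₜ[K] op (1 : A K n) := rfl
      rw [e1, DD_io_tmul]
      rfl
    · rw [map_zero]
  refine ⟨D, ?_, ?_⟩
  · intro i j a
    refine DD_COgen (fun k => φ (gx K n k)) ?_ D hDm hDf i j a
    intro B _ _ l r E hE h0 a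
    rw [DD_U l r E hE hd (fun k => φ (gx K n k)) H hH a]
    apply Finset.sum_eq_zero
    intro i _
    rw [h0, map_zero]
  · intro a
    let E : A K n →ₗ[K] A K n ⊗[K] A K n :=
      (Algebra.TensorProduct.includeLeft : A K n →ₐ[K] A K n ⊗[K] A K n).toLinearMap -
      (Algebra.TensorProduct.includeRight : A K n →ₐ[K] A K n ⊗[K] A K n).toLinearMap
    have hEa : ∀ a, E a = a ⊗ₜ[K] 1 - 1 ⊗ₜ[K] a := fun a => rfl
    have key := DD_U (B := A K n ⊗[K] A K n) Algebra.TensorProduct.includeLeft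
      Algebra.TensorProduct.includeRight E (by
        intro a b
        rw [hEa, hEa, hEa, Algebra.TensorProduct.includeLeft_apply,
          Algebra.TensorProduct.includeRight_apply, mul_sub, sub_mul,
          Algebra.TensorProduct.tmul_mul_tmul, Algebra.TensorProduct.tmul_mul_tmul,
          Algebra.TensorProduct.tmul_mul_tmul]
        simp only [mul_one, one_mul]
        abel) hd (fun k => φ (gx K n k)) H hH a
    have k2 := congrArg (DD_Th K n) key
    rw [hEa, map_sub, DD_Th_tmul, DD_Th_tmul, map_one, one_smul, map_sum] at k2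
    have k3 : ∀ i, DD_Th K n (DD_act (B := A K n ⊗[K] A K n) Algebra.TensorProduct.includeLeft
        Algebra.TensorProduct.includeRight (∑ j, d j a * H j i) (E (φ (gx K n i)))) =
        - (φ (gx K n i) * Dl D i a) := by
      intro i
      rw [hEa, DD_Th_act _ (hφ i), ← hDa]
      rfl
    simp only [k3] at k2
    rw [Finset.sum_neg_distrib] at k2
    rw [Algebra.algebraMap_eq_smul_one]
    have k4 := congrArg (fun t => t + a + ∑ i, φ (gx K n i) * Dl D i a) k2
    simp only [sub_add_cancel] at k4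
    rw [k4]
    abel

end fin

end

end Pool.Agent.R433.GE
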