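import Pool.Agent.R433.GE.Stm

/-! # Piece GE-DER: free derivatives -/

set_option autoImplicit false
set_option linter.unusedSectionVars false

namespace Pool.Agent.R433.GE

open scoped TensorProduct
open MulOpposite


variable {K : Type*} [Field K] {X : Type*} [DecidableEq X]


noncomputable def DER_r : FreeAlgebra K X →ₗ[K] (FreeAlgebra K X) ⊗[K] (FreeAlgebra K X)ᵐᵒᵖ :=
  (TensorProduct.mk K (FreeAlgebra K X) (FreeAlgebra K X)ᵐᵒᵖ 1) ∘ₗ (MulOpposite.opLinearEquiv K).toLinearMap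

lemma DER_r_apply (b : FreeAlgebra K X) : DER_r b = (1 : FreeAlgebra K X) ⊗ₜ[K] op b := rfl

noncomputable def DER_T (j i : X) : Module.End K (((FreeAlgebra K X) ⊗[K] (FreeAlgebra K X)ᵐᵒᵖ) × FreeAlgebra K X) :=
  LinearMap.prod
    ((LinearMap.mulLeft K ((FreeAlgebra.ι K i) ⊗ₜ[K] (1 : (FreeAlgebra K X)ᵐᵒᵖ))) ∘ₗ LinearMap.fst K _ _ +
      (if i = j then (1 : K) else 0) • (DER_r ∘ₗ LinearMap.snd K _ _))
    ((LinearMap.mulLeft K (FreeAlgebra.ι K i)) ∘ₗ LinearMap.snd K _ _)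

lemma DER_T_apply (j i : X) (r : (FreeAlgebra K X) ⊗[K] (FreeAlgebra K X)ᵐᵒᵖ) (b : FreeAlgebra K X) :
    DER_T (K := K) j i (r, b) = ((FreeAlgebra.ι K i) ⊗ₜ[K] (1 : (FreeAlgebra K X)ᵐᵒᵖ) * r +
      (if i = j then (1 : K) else 0) • ((1 : FreeAlgebra K X) ⊗ₜ[K] op b), FreeAlgebra.ι K i * b) := rfl

noncomputable def DER_G (j : X) : FreeAlgebra K X →ₐ[K]
    Module.End K (((FreeAlgebra K X) ⊗[K] (FreeAlgebra K X)ᵐᵒᵖ) × FreeAlgebra K X) :=
  FreeAlgebra.lift K (fun i => DER_T (K := K) j i)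

noncomputable def DER_D (j : X) : FreeAlgebra K X →ₗ[K] (FreeAlgebra K X) ⊗[K] (FreeAlgebra K X)ᵐᵒᵖ :=
  (LinearMap.fst K _ _) ∘ₗ (LinearMap.applyₗ (R := K)
    ((0, 1) : ((FreeAlgebra K X) ⊗[K] (FreeAlgebra K X)ᵐᵒᵖ) × FreeAlgebra K X)) ∘ₗ (DER_G j).toLinearMap

lemma DER_D_apply (j : X) (a : FreeAlgebra K X) : DER_D (K := K) j a = (DER_G j a (0, 1)).1 := rfl

lemma DER_ind {P : FreeAlgebra K X → Prop} (h1 : ∀ c : K, P (algebraMap K _ c))
    (h2 : ∀ i, P (FreeAlgebra.ι K i)) (h3 : ∀ a b, P a → P b → P (a * b))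
    (h4 : ∀ a b, P a → P b → P (a + b)) (a : FreeAlgebra K X) : P a :=
  FreeAlgebra.induction K X h1 h2 h3 h4 a

lemma DER_key (j : X) (a : FreeAlgebra K X) : ∀ (r : (FreeAlgebra K X) ⊗[K] (FreeAlgebra K X)ᵐᵒᵖ)
    (b : FreeAlgebra K X), DER_G (K := K) j a (r, b) =
      (a ⊗ₜ[K] (1 : (FreeAlgebra K X)ᵐᵒᵖ) * r + ((1 : FreeAlgebra K X) ⊗ₜ[K] op b) * DER_D j a, a * b) := by
  induction a using DER_ind with
  | h1 c =>
    intro r b
    rw [DER_D_apply, AlgHom.commutes, Module.algebraMap_end_apply, Module.algebraMap_end_apply]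
    ext1
    · simp only [Prod.smul_mk, smul_zero, mul_zero, add_zero]
      rw [Algebra.algebraMap_eq_smul_one, ← TensorProduct.smul_tmul', ← Algebra.TensorProduct.one_def,
        smul_mul_assoc, one_mul]
    · simp only [Prod.smul_mk]
      rw [Algebra.smul_def]
  | h2 i =>
    intro r b
    have hG : DER_G (K := K) j (FreeAlgebra.ι K i) = DER_T j i := by
      simp [DER_G]
    rw [DER_D_apply, hG, DER_T_apply, DER_T_apply]
    simp only [mul_zero, zero_add, mul_one]
    ext1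
    · simp only
      congr 1
      rw [mul_smul_comm, MulOpposite.op_one, ← Algebra.TensorProduct.one_def, mul_one]
    · rfl
  | h3 a a' ha ha' =>
    intro r b
    have e : ∀ p, DER_G (K := K) j (a * a') p = DER_G j a (DER_G j a' p) := by
      intro p
      rw [map_mul]; rfl
    have hD : DER_D (K := K) j (a * a') =
        a ⊗ₜ[K] (1 : (FreeAlgebra K X)ᵐᵒᵖ) * DER_D j a' + ((1 : FreeAlgebra K X) ⊗ₜ[K] op a') * DER_D j a := by
      rw [DER_D_apply, e, ha' 0 1, ha]
      simp only [mul_zero, zero_add, mul_one, MulOpposite.op_one]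
      rw [← Algebra.TensorProduct.one_def, one_mul]
    rw [e, ha', ha, hD]
    ext1
    · simp only [mul_add, ← mul_assoc, Algebra.TensorProduct.tmul_mul_tmul, one_mul, mul_one,
        ← MulOpposite.op_mul]
      rw [add_assoc]
    · simp only [mul_assoc]
  | h4 a a' ha ha' =>
    intro r b
    have e : ∀ p, DER_G (K := K) j (a + a') p = DER_G j a p + DER_G j a' p := by
      intro p
      rw [map_add]; rfl
    rw [e, ha, ha', map_add]
    ext1
    · simp only [Prod.mk_add_mk, TensorProduct.add_tmul, add_mul, mul_add]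
      abel
    · simp only [Prod.mk_add_mk, add_mul]

lemma DER_leib (j : X) (a b : FreeAlgebra K X) : DER_D (K := K) j (a * b) =
    a ⊗ₜ[K] (1 : (FreeAlgebra K X)ᵐᵒᵖ) * DER_D j b + ((1 : FreeAlgebra K X) ⊗ₜ[K] op b) * DER_D j a := by
  have e : ∀ p, DER_G (K := K) j (a * b) p = DER_G j a (DER_G j b p) := by
    intro p
    rw [map_mul]; rfl
  rw [DER_D_apply, e, DER_key j b, DER_key j a]
  simp only [mul_zero, zero_add, mul_one, MulOpposite.op_one]
  rw [← Algebra.TensorProduct.one_def, one_mul]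

lemma DER_gen (j i : X) : DER_D (K := K) j (FreeAlgebra.ι K i) = if i = j then 1 else 0 := by
  have hG : DER_G (K := K) j (FreeAlgebra.ι K i) = DER_T j i := by
    simp [DER_G]
  rw [DER_D_apply, hG, DER_T_apply]
  simp only [mul_zero, zero_add, MulOpposite.op_one, ← Algebra.TensorProduct.one_def]
  split_ifs <;> simp


theorem t_DER : S_DER := by
  intro K _ n
  refine ⟨fun j => DER_D (K := K) (X := Fin n) j, ⟨?_, ?_⟩⟩
  · intro j k
    have h := DER_gen (K := K) (X := Fin n) j k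
    by_cases hjk : j = k
    · subst hjk
      rw [if_pos rfl] at h
      rw [if_pos rfl]
      exact h
    · rw [if_neg (fun h' => hjk h'.symm)] at h
      rw [if_neg hjk]
      exact h
  · intro j a b
    rw [add_comm]
    exact DER_leib (K := K) (X := Fin n) j a b

end Pool.Agent.R433.GE
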