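import Pool.Agent.R433.GE.Stm

/-!
# Project GE: an approximable matrix is invertible
-/

set_option autoImplicit false

namespace Pool.Agent.R433.GE

lemma DET_congr {E ι : Type} [Field E] [Fintype ι] [DecidableEq ι]
    (W W' : Matrix ι ι (Polynomial E)) (m : ℕ)
    (h : ∀ i j k, k < m → (W i j).coeff k = (W' i j).coeff k) :
    ∀ k, k < m → (W.det).coeff k = (W'.det).coeff k := by
  set I : Ideal (Polynomial E) := Ideal.span {(Polynomial.X : Polynomial E) ^ m} with hI
  have h1 : (Ideal.Quotient.mk I).mapMatrix W = (Ideal.Quotient.mk I).mapMatrix W' := by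
    ext i j
    rw [RingHom.mapMatrix_apply, RingHom.mapMatrix_apply, Matrix.map_apply, Matrix.map_apply,
      Ideal.Quotient.eq, hI, Ideal.mem_span_singleton, Polynomial.X_pow_dvd_iff]
    intro d hd
    rw [Polynomial.coeff_sub, h i j d hd, sub_self]
  have h2 : Ideal.Quotient.mk I W.det = Ideal.Quotient.mk I W'.det := by
    rw [RingHom.map_det, RingHom.map_det, h1]
  rw [Ideal.Quotient.eq, hI, Ideal.mem_span_singleton, Polynomial.X_pow_dvd_iff] at h2
  intro k hk
  have h3 := h2 k hk
  rw [Polynomial.coeff_sub, sub_eq_zero] at h3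
  exact h3

theorem t_DET : S_DET := by
  intro E ι _ _ _ W hW
  obtain ⟨W', hu, hc⟩ := hW (W.det.natDegree + 1)
  have h1 := DET_congr W W' _ hc
  rw [Matrix.isUnit_iff_isUnit_det] at hu ⊢
  obtain ⟨r, hr, hr2⟩ := Polynomial.isUnit_iff.1 hu
  have h2 : W.det = Polynomial.C r := by
    ext k
    by_cases hk : k < W.det.natDegree + 1
    · rw [h1 k hk, hr2]
    · rw [Polynomial.coeff_eq_zero_of_natDegree_lt (by omega), Polynomial.coeff_C_of_ne_zero (by omega)]
  rw [h2]
  exact Polynomial.isUnit_C.2 hr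

end Pool.Agent.R433.GE
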