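import Pool.Agent.R433.GE.Stm

/-!
# Piece DIV: a semilinear operator with `T^N = S` forces `N ∣ dim V`
-/

set_option autoImplicit false

namespace Pool.Agent.R433.GE

open scoped BigOperators

theorem DIV_iter {E V : Type} [Field E] [AddCommGroup V] [Module E V] {w : ℕ}
    (b : Module.Basis (Fin w) E V) (σ : E →+* E) (v : E → ℤ) (T : V →+ V)
    (hT : ∀ (c : E) (x : V), T (c • x) = σ c • T x)
    (hv : ∀ x y, x ≠ 0 → y ≠ 0 → v (x * y) = v x + v y) (hσ : ∀ x, x ≠ 0 → v (σ x) = v x)
    (Θ : Matrix (Fin w) (Fin w) E) (hΘ : ∀ j, T (b j) = ∑ i, Θ i j • b i) (k : ℕ) :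
    ∃ P : Matrix (Fin w) (Fin w) E, (∀ j, (T^[k]) (b j) = ∑ i, P i j • b i) ∧
      (Θ.det ≠ 0 → P.det ≠ 0 ∧ v P.det = k * v Θ.det) ∧ (Θ.det = 0 → 0 < k → P.det = 0) := by
  have v1 : v 1 = 0 := by
    have := hv 1 1 one_ne_zero one_ne_zero
    rw [mul_one] at this
    omega
  induction k with
  | zero =>
    refine ⟨1, fun j => ?_, fun _ => ⟨by simp, by simp [v1]⟩, fun _ h => absurd h (lt_irrefl 0)⟩
    simp [Matrix.one_apply]
  | succ k ih =>
    obtain ⟨P, h1, h2, h3⟩ := ih
    refine ⟨Θ * P.map σ, fun j => ?_, fun hd => ?_, fun hd _ => ?_⟩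
    · rw [Function.iterate_succ_apply', h1 j, map_sum]
      have : ∀ i, T (P i j • b i) = ∑ l, (σ (P i j) * Θ l i) • b l := fun i => by
        rw [hT, hΘ i, Finset.smul_sum]
        exact Finset.sum_congr rfl fun l _ => by rw [smul_smul]
      rw [Finset.sum_congr rfl fun i _ => this i, Finset.sum_comm]
      refine Finset.sum_congr rfl fun l _ => ?_
      rw [← Finset.sum_smul, Matrix.mul_apply]
      congr 1
      exact Finset.sum_congr rfl fun i _ => by rw [Matrix.map_apply, mul_comm]
    · obtain ⟨h4, h5⟩ := h2 hd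
      have h6 : (Θ * P.map σ).det = Θ.det * σ P.det := by
        rw [Matrix.det_mul, RingHom.map_det]
        rfl
      have h7 : σ P.det ≠ 0 := by
        rw [Ne, map_eq_zero]
        exact h4
      refine ⟨by rw [h6]; exact mul_ne_zero hd h7, ?_⟩
      rw [h6, hv _ _ hd h7, hσ _ h4, h5]
      push_cast
      ring
    · rw [Matrix.det_mul, hd, zero_mul]

theorem t_DIV : S_DIV := by
  intro E V _ _ _ _ σ v N S T hT hN hv hσ hS _ hvS
  set w := Module.finrank E V with hw
  have v1 : v 1 = 0 := by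
    have := hv 1 1 one_ne_zero one_ne_zero
    rw [mul_one] at this
    omega
  have vpow : ∀ m : ℕ, v (S ^ m) = m := by
    intro m
    induction m with
    | zero => simp [v1]
    | succ m ih =>
      rw [pow_succ, hv _ _ (pow_ne_zero _ hS) hS, ih, hvS]
      push_cast
      ring
  let b : Module.Basis (Fin w) E V := Module.finBasis E V
  let Θ : Matrix (Fin w) (Fin w) E := fun i j => b.repr (T (b j)) i
  have hΘ : ∀ j, T (b j) = ∑ i, Θ i j • b i := fun j => (b.sum_repr (T (b j))).symm
  obtain ⟨P, h1, h2, h3⟩ := DIV_iter b σ v T hT hv hσ Θ hΘ N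
  have hP : P = S • (1 : Matrix (Fin w) (Fin w) E) := by
    ext i j
    have h4 := h1 j
    rw [hN] at h4
    have h5 := congrArg (fun x => b.repr x i) h4
    simp only [map_sum, map_smul, Module.Basis.repr_self, Finsupp.smul_single, smul_eq_mul,
      mul_one, Finsupp.finsetSum_apply] at h5
    rw [Finset.sum_eq_single i] at h5
    · rw [Finsupp.single_eq_same] at h5
      rw [← h5, Matrix.smul_apply, Matrix.one_apply, smul_eq_mul]
      by_cases hij : i = j
      · subst hij; simp
      · rw [if_neg hij, mul_zero, Finsupp.single_eq_of_ne]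
        exact hij
    · intro l _ hl
      rw [Finsupp.single_eq_of_ne]
      exact fun h => hl h.symm
    · intro h
      exact absurd (Finset.mem_univ i) h
  have hdet : P.det = S ^ w := by
    rw [hP, Matrix.det_smul, Matrix.det_one, mul_one, Fintype.card_fin]
  by_cases hd : Θ.det = 0
  · rcases Nat.eq_zero_or_pos N with h0 | h0
    · subst h0
      obtain ⟨P', h1', -, -⟩ := DIV_iter b (RingHom.id E) v (AddMonoidHom.id V) (fun _ _ => rfl) hv
        (fun _ _ => rfl) 1 (fun j => by simp [Matrix.one_apply]) 0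
      by_contra hne
      have hw0 : 0 < w := Nat.pos_of_ne_zero fun h => hne (by rw [h])
      have hx := hN (b ⟨0, hw0⟩)
      have hb : b ⟨0, hw0⟩ ≠ 0 := b.ne_zero _
      have h6 : S = 1 := by
        have h7 : (S - 1) • b ⟨0, hw0⟩ = 0 := by
          rw [sub_smul, one_smul, ← hx]
          simp
        rcases smul_eq_zero.1 h7 with h8 | h8
        · exact sub_eq_zero.1 h8
        · exact absurd h8 hb
      rw [h6, v1] at hvS
      exact absurd hvS (by norm_num)
    · exact absurd (hdet ▸ h3 hd h0) (pow_ne_zero _ hS)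
  · obtain ⟨-, h5⟩ := h2 hd
    rw [hdet, vpow] at h5
    have h6 : (N : ℤ) ∣ (w : ℤ) := ⟨v Θ.det, h5⟩
    exact Int.natCast_dvd_natCast.1 h6

end Pool.Agent.R433.GE
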