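import Pool.Agent.R433.GE.Stm

/-!
# Project GE, piece FLD: the field with its valuation and the permutations (MP_54c2ef_al)
-/

set_option autoImplicit false

namespace Pool.Agent.R433.GE

noncomputable section

/-- the domain -/
abbrev FLD_P (K : Type) [Field K] (ι : Type) : Type := Polynomial (MvPolynomial ι K)

/-- its field of fractions -/
abbrev FLD_E (K : Type) [Field K] (ι : Type) : Type := FractionRing (FLD_P K ι)

variable {K : Type} [Field K] {ι : Type}

/-- the degree in `S` of the numerator minus the degree of the denominator -/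
def FLD_v (x : FLD_E K ι) : ℤ :=
  ((IsLocalization.sec (nonZeroDivisors (FLD_P K ι)) x).1.natDegree : ℤ) -
    ((IsLocalization.sec (nonZeroDivisors (FLD_P K ι)) x).2 : FLD_P K ι).natDegree

theorem FLD_inj : Function.Injective (algebraMap (FLD_P K ι) (FLD_E K ι)) :=
  IsFractionRing.injective (FLD_P K ι) (FLD_E K ι)

theorem FLD_v_eq (x : FLD_E K ι) (hx : x ≠ 0) (a b : FLD_P K ι) (hb : b ≠ 0)
    (h : x * algebraMap (FLD_P K ι) (FLD_E K ι) b = algebraMap (FLD_P K ι) (FLD_E K ι) a) :
    FLD_v x = (a.natDegree : ℤ) - b.natDegree := by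
  have hs := IsLocalization.sec_spec (nonZeroDivisors (FLD_P K ι)) x
  obtain ⟨n, hn⟩ : ∃ n, n = (IsLocalization.sec (nonZeroDivisors (FLD_P K ι)) x).1 := ⟨_, rfl⟩
  obtain ⟨d, hd⟩ : ∃ d : FLD_P K ι, d = (IsLocalization.sec (nonZeroDivisors (FLD_P K ι)) x).2 :=
    ⟨_, rfl⟩
  have hd0 : d ≠ 0 := by
    rw [hd]
    exact nonZeroDivisors.ne_zero (IsLocalization.sec (nonZeroDivisors (FLD_P K ι)) x).2.2
  unfold FLD_v
  rw [← hn, ← hd] at hs
  rw [← hn, ← hd]
  have ha0 : a ≠ 0 := by
    rintro rfl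
    rw [map_zero] at h
    rcases mul_eq_zero.1 h with h | h
    · exact hx h
    · exact hb (FLD_inj (h.trans (map_zero _).symm))
  have hn0 : n ≠ 0 := by
    rintro rfl
    rw [map_zero] at hs
    rcases mul_eq_zero.1 hs with h | h
    · exact hx h
    · exact hd0 (FLD_inj (h.trans (map_zero _).symm))
  have h1 : a * d = n * b := by
    apply FLD_inj (K := K) (ι := ι)
    rw [map_mul, map_mul, ← h, ← hs]
    ring
  have h2 := congrArg Polynomial.natDegree h1
  rw [Polynomial.natDegree_mul ha0 hd0, Polynomial.natDegree_mul hn0 hb] at h2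
  omega

theorem FLD_rep (x : FLD_E K ι) : ∃ n d : FLD_P K ι, d ≠ 0 ∧
    x * algebraMap (FLD_P K ι) (FLD_E K ι) d = algebraMap (FLD_P K ι) (FLD_E K ι) n :=
  ⟨(IsLocalization.sec (nonZeroDivisors (FLD_P K ι)) x).1,
    (IsLocalization.sec (nonZeroDivisors (FLD_P K ι)) x).2,
    nonZeroDivisors.ne_zero (IsLocalization.sec (nonZeroDivisors (FLD_P K ι)) x).2.2,
    IsLocalization.sec_spec (nonZeroDivisors (FLD_P K ι)) x⟩

theorem FLD_v_mul (x y : FLD_E K ι) (hx : x ≠ 0) (hy : y ≠ 0) :
    FLD_v (x * y) = FLD_v x + FLD_v y := by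
  obtain ⟨n, d, hd, h⟩ := FLD_rep x
  obtain ⟨n', d', hd', h'⟩ := FLD_rep y
  have hn : n ≠ 0 := by
    rintro rfl
    rw [map_zero] at h
    rcases mul_eq_zero.1 h with h | h
    · exact hx h
    · exact hd (FLD_inj (h.trans (map_zero _).symm))
  have hn' : n' ≠ 0 := by
    rintro rfl
    rw [map_zero] at h'
    rcases mul_eq_zero.1 h' with h | h
    · exact hy h
    · exact hd' (FLD_inj (h.trans (map_zero _).symm))
  rw [FLD_v_eq x hx n d hd h, FLD_v_eq y hy n' d' hd' h',
    FLD_v_eq (x * y) (mul_ne_zero hx hy) (n * n') (d * d') (mul_ne_zero hd hd') (by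
      rw [map_mul, map_mul, ← h, ← h']
      ring), Polynomial.natDegree_mul hn hn', Polynomial.natDegree_mul hd hd']
  push_cast
  ring

/-- the action on the domain -/
def FLD_a (π : Equiv.Perm ι) : FLD_P K ι →ₐ[K] FLD_P K ι :=
  Polynomial.mapAlgHom (MvPolynomial.rename π)

theorem FLD_a_inj (π : Equiv.Perm ι) : Function.Injective (FLD_a (K := K) π) :=
  Polynomial.map_injective _ (MvPolynomial.rename_injective _ π.injective)

theorem FLD_a_deg (π : Equiv.Perm ι) (p : FLD_P K ι) :
    (FLD_a π p).natDegree = p.natDegree :=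
  Polynomial.natDegree_map_eq_of_injective (MvPolynomial.rename_injective _ π.injective) p

theorem FLD_g_inj (π : Equiv.Perm ι) : Function.Injective
    ((IsScalarTower.toAlgHom K (FLD_P K ι) (FLD_E K ι)).comp (FLD_a (K := K) π)) :=
  FLD_inj.comp (FLD_a_inj π)

/-- the action on the field -/
def FLD_s (π : Equiv.Perm ι) : FLD_E K ι →ₐ[K] FLD_E K ι :=
  IsFractionRing.liftAlgHom (FLD_g_inj π)

theorem FLD_s_apply (π : Equiv.Perm ι) (p : FLD_P K ι) :
    FLD_s π (algebraMap (FLD_P K ι) (FLD_E K ι) p) =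
      algebraMap (FLD_P K ι) (FLD_E K ι) (FLD_a π p) :=
  IsFractionRing.lift_algebraMap (FLD_g_inj π) p

theorem FLD_ext (f g : FLD_E K ι →ₐ[K] FLD_E K ι)
    (h : ∀ p : FLD_P K ι, f (algebraMap (FLD_P K ι) (FLD_E K ι) p) =
      g (algebraMap (FLD_P K ι) (FLD_E K ι) p)) : f = g := by
  apply AlgHom.ext
  intro x
  obtain ⟨n, d, hd, hx⟩ := FLD_rep x
  have h1 : f (algebraMap (FLD_P K ι) (FLD_E K ι) d) ≠ 0 := by
    intro h0
    rw [map_eq_zero_iff f f.toRingHom.injective] at h0
    exact hd (FLD_inj (h0.trans (map_zero _).symm))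
  apply mul_right_cancel₀ h1
  rw [← map_mul, hx, h, ← hx, map_mul, h]

theorem FLD_a_mul (π π' : Equiv.Perm ι) (p : FLD_P K ι) :
    FLD_a (π * π') p = FLD_a π (FLD_a π' p) := by
  show Polynomial.map (MvPolynomial.rename (π * π')).toRingHom p =
    Polynomial.map (MvPolynomial.rename π).toRingHom
      (Polynomial.map (MvPolynomial.rename π').toRingHom p)
  rw [Polynomial.map_map]
  congr 1
  apply RingHom.ext
  intro q
  show MvPolynomial.rename (π * π') q = MvPolynomial.rename π (MvPolynomial.rename π' q)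
  rw [MvPolynomial.rename_rename]
  rfl

theorem FLD_a_one (p : FLD_P K ι) : FLD_a (1 : Equiv.Perm ι) p = p := by
  show Polynomial.map (MvPolynomial.rename (1 : Equiv.Perm ι)).toRingHom p = p
  have h1 : (MvPolynomial.rename (R := K) (1 : Equiv.Perm ι)).toRingHom = RingHom.id _ := by
    apply RingHom.ext
    intro q
    show MvPolynomial.rename (1 : Equiv.Perm ι) q = q
    exact MvPolynomial.rename_id_apply q
  rw [h1, Polynomial.map_id]

/-- the action as a homomorphism -/
def FLD_S : Equiv.Perm ι →* (FLD_E K ι →ₐ[K] FLD_E K ι) where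
  toFun := FLD_s
  map_one' := by
    apply FLD_ext
    intro p
    rw [FLD_s_apply, FLD_a_one]
    rfl
  map_mul' π π' := by
    apply FLD_ext
    intro p
    show FLD_s (π * π') (algebraMap (FLD_P K ι) (FLD_E K ι) p) =
      FLD_s π (FLD_s π' (algebraMap (FLD_P K ι) (FLD_E K ι) p))
    rw [FLD_s_apply, FLD_s_apply, FLD_s_apply, FLD_a_mul]

theorem t_FLD : S_FLD := by
  intro K _ ι _
  refine ⟨FLD_E K ι, inferInstance, inferInstance,
    fun i => algebraMap (FLD_P K ι) (FLD_E K ι) (Polynomial.C (MvPolynomial.X i)),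
    algebraMap (FLD_P K ι) (FLD_E K ι) Polynomial.X, FLD_v, FLD_S, ?_, ?_, ?_, FLD_v_mul, ?_⟩
  · have h1 : (MvPolynomial.aeval (R := K) fun i =>
        algebraMap (FLD_P K ι) (FLD_E K ι) (Polynomial.C (MvPolynomial.X i))) =
        (IsScalarTower.toAlgHom K (FLD_P K ι) (FLD_E K ι)).comp
          (Polynomial.CAlgHom (R := K) (A := MvPolynomial ι K)) := by
      apply MvPolynomial.algHom_ext
      intro i
      rw [MvPolynomial.aeval_X]
      rfl
    show Function.Injective (MvPolynomial.aeval (R := K) fun i =>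
        algebraMap (FLD_P K ι) (FLD_E K ι) (Polynomial.C (MvPolynomial.X i)))
    rw [h1]
    exact FLD_inj.comp Polynomial.C_injective
  · intro h
    exact Polynomial.X_ne_zero (FLD_inj (h.trans (map_zero _).symm))
  · rw [FLD_v_eq _ (fun h => Polynomial.X_ne_zero (FLD_inj (h.trans (map_zero _).symm)))
      Polynomial.X 1 one_ne_zero (by rw [map_one, mul_one]), Polynomial.natDegree_X,
      Polynomial.natDegree_one]
    norm_num
  · intro π
    refine ⟨?_, fun i => ?_, fun x hx => ?_⟩
    · show FLD_s π (algebraMap (FLD_P K ι) (FLD_E K ι) Polynomial.X) = _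
      rw [FLD_s_apply]
      congr 1
      exact Polynomial.map_X _
    · show FLD_s π (algebraMap (FLD_P K ι) (FLD_E K ι) (Polynomial.C (MvPolynomial.X i))) = _
      rw [FLD_s_apply]
      congr 1
      show Polynomial.map (MvPolynomial.rename π).toRingHom (Polynomial.C (MvPolynomial.X i)) = _
      rw [Polynomial.map_C]
      congr 1
      exact MvPolynomial.rename_X _ _
    · show FLD_v (FLD_s π x) = FLD_v x
      obtain ⟨n, d, hd, h⟩ := FLD_rep x
      have hx' : FLD_s π x ≠ 0 := by
        intro h0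
        rw [map_eq_zero_iff (FLD_s (K := K) π) (FLD_s (K := K) π).toRingHom.injective] at h0
        exact hx h0
      rw [FLD_v_eq x hx n d hd h, FLD_v_eq (FLD_s π x) hx' (FLD_a π n) (FLD_a π d) (by
          intro h0
          exact hd (FLD_a_inj π (h0.trans (map_zero _).symm))) (by
          rw [← FLD_s_apply, ← FLD_s_apply, ← h, map_mul]), FLD_a_deg, FLD_a_deg]

end

end Pool.Agent.R433.GE
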