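import Pool.Agent.R433.GE.Stm

set_option autoImplicit false

/-! Piece HOM (helper790): commuting pairs of tuples give homomorphisms; the shifts commute. -/

namespace Pool.Agent.R433.GE

open scoped TensorProduct BigOperators
open MulOpposite

noncomputable section

theorem HOM_one (K : Type) [Field K] (n : ℕ) (B : Type) [Ring B] [Algebra K B] (X Y : Fin n → B)
    (h : ∀ i j, X i * Y j = Y j * X i) : ∃ ρ : R K n →ₐ[K] B,
      (∀ i, ρ (gx K n i ⊗ₜ[K] 1) = X i) ∧ ∀ i, ρ ((1 : A K n) ⊗ₜ[K] op (gx K n i)) = Y i := by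
  let f : A K n →ₐ[K] B := FreeAlgebra.lift K X
  let g0 : A K n →ₐ[K] Bᵐᵒᵖ := FreeAlgebra.lift K fun i => op (Y i)
  let g : (A K n)ᵐᵒᵖ →ₐ[K] B := AlgHom.opComm g0
  have hf : ∀ i, f (gx K n i) = X i := fun i => FreeAlgebra.lift_ι_apply X i
  have hg0 : ∀ i, g0 (gx K n i) = op (Y i) := fun i => FreeAlgebra.lift_ι_apply _ i
  have hgop : ∀ a, g (op a) = unop (g0 a) := fun a => rfl
  have hg : ∀ i, g (op (gx K n i)) = Y i := fun i => by rw [hgop, hg0, unop_op]
  have c1 : ∀ i (a : A K n), Commute (X i) (g (op a)) := by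
    intro i a
    induction a using FreeAlgebra.induction with
    | grade0 r =>
      have : g (op (algebraMap K (A K n) r)) = algebraMap K B r := g.commutes r
      rw [this]
      exact (Algebra.commutes r (X i)).symm
    | grade1 x =>
      have : g (op (FreeAlgebra.ι K x)) = Y x := hg x
      rw [this]
      exact h i x
    | mul a b ha hb =>
      rw [op_mul, map_mul]
      exact hb.mul_right ha
    | add a b ha hb =>
      rw [op_add, map_add]
      exact ha.add_right hb
  have c2 : ∀ (a : A K n) (b : (A K n)ᵐᵒᵖ), Commute (f a) (g b) := by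
    intro a b
    induction a using FreeAlgebra.induction with
    | grade0 r =>
      have : f (algebraMap K (A K n) r) = algebraMap K B r := f.commutes r
      rw [this]
      exact Algebra.commutes r (g b)
    | grade1 x =>
      have : f (FreeAlgebra.ι K x) = X x := hf x
      rw [this, ← op_unop b]
      exact c1 x (unop b)
    | mul a a' ha hb =>
      rw [map_mul]
      exact ha.mul_left hb
    | add a a' ha hb =>
      rw [map_add]
      exact ha.add_left hb
  refine ⟨Algebra.TensorProduct.lift f g c2, fun i => ?_, fun i => ?_⟩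
  · rw [Algebra.TensorProduct.lift_tmul, hf, map_one, mul_one]
  · rw [Algebra.TensorProduct.lift_tmul, hg, map_one, one_mul]

theorem HOM_two (E : Type) [Field E] (n N M : ℕ) [NeZero N] [NeZero M]
    (t : (Fin n × ZMod N) ⊕ (Fin n × ZMod M) → E) (S : E) (i j : Fin n) :
    Xm t S i * Ym t S j = Ym t S j * Xm t S i := by
  ext p r
  rw [Matrix.mul_apply, Matrix.mul_apply]
  rw [Finset.sum_eq_single (r.1, r.2 + 1), Finset.sum_eq_single (r.1 + 1, r.2)]
  · unfold Xm Ym
    by_cases h : p.1 = r.1 + 1 ∧ p.2 = r.2 + 1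
    · obtain ⟨h1, h2⟩ := h
      simp only [h1, h2, and_self, if_true]
      ring
    · simp only [h, if_false, zero_mul]
  · intro q _ hq
    have : Xm t S i q r = 0 := by
      unfold Xm
      rw [if_neg]
      rintro ⟨h1, h2⟩
      exact hq (Prod.ext h1 h2)
    rw [this, mul_zero]
  · intro h
    exact absurd (Finset.mem_univ _) h
  · intro q _ hq
    have : Ym t S j q r = 0 := by
      unfold Ym
      rw [if_neg]
      rintro ⟨h1, h2⟩
      exact hq (Prod.ext h1 h2)
    rw [this, mul_zero]
  · intro h
    exact absurd (Finset.mem_univ _) h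

theorem t_HOM : S_HOM :=
  ⟨fun K _ n B _ _ X Y h => HOM_one K n B X Y h,
    fun E _ n N M _ _ t S i j => HOM_two E n N M t S i j⟩

end

end Pool.Agent.R433.GE
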