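import Pool.Agent.R433.GE.Stm

/-! Piece INJ: a limit of automorphisms is injective. -/

set_option autoImplicit false

namespace Pool.Agent.R433.GE

open scoped TensorProduct BigOperators
open MulOpposite

noncomputable section

variable {K : Type} [Field K] {n : ℕ}

lemma INJ_basis (w : FreeMonoid (Fin n)) :
    FreeAlgebra.basisFreeMonoid K (Fin n) w = FreeMonoid.lift (FreeAlgebra.ι K) w := by
  unfold FreeAlgebra.basisFreeMonoid
  rw [Module.Basis.map_apply]
  simp only [Finsupp.coe_basisSingleOne]
  change FreeAlgebra.equivMonoidAlgebraFreeMonoid.symm (MonoidAlgebra.single w 1) = _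
  change MonoidAlgebra.lift K (FreeAlgebra K (Fin n)) (FreeMonoid (Fin n))
    (FreeMonoid.lift (FreeAlgebra.ι K)) (MonoidAlgebra.single w 1) = _
  simp

lemma INJ_prod (l : List (Fin n)) : (l.map (gx K n)).prod =
    FreeAlgebra.basisFreeMonoid K (Fin n) (FreeMonoid.ofList l) := by
  rw [INJ_basis, FreeMonoid.lift_ofList]
  rfl

lemma INJ_zero_of_forall (a : A K n) (h : ∀ m, a ∈ Im K n m) : a = 0 := by
  have key : ∀ m, ∀ a ∈ Im K n m, ∀ w : FreeMonoid (Fin n), (FreeMonoid.toList w).length < m →
      (FreeAlgebra.basisFreeMonoid K (Fin n)).repr a w = 0 := by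
    intro m a ha w hw
    unfold Im at ha
    induction ha using Submodule.span_induction with
    | mem x hx =>
      obtain ⟨l, hl, rfl⟩ := hx
      rw [INJ_prod, Module.Basis.repr_self]
      apply Finsupp.single_eq_of_ne
      rintro rfl
      exact absurd hw (not_lt.2 hl)
    | zero => simp
    | add x y _ _ hx hy => rw [map_add, Finsupp.add_apply, hx, hy, add_zero]
    | smul c x _ hx => rw [map_smul, Finsupp.smul_apply, hx, smul_zero]
  have h1 : (FreeAlgebra.basisFreeMonoid K (Fin n)).repr a = 0 := by
    ext w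
    exact key _ a (h _) w (Nat.lt_succ_self _)
  exact (LinearEquiv.map_eq_zero_iff _).1 h1

lemma INJ_mul {p q : ℕ} {a b : A K n} (ha : a ∈ Im K n p) (hb : b ∈ Im K n q) :
    a * b ∈ Im K n (p + q) := by
  have h1 := Submodule.mul_mem_mul ha hb
  unfold Im at h1
  rw [Submodule.span_mul_span] at h1
  refine Submodule.span_mono ?_ h1
  rintro _ ⟨x, ⟨l, hl, rfl⟩, y, ⟨l', hl', rfl⟩, rfl⟩
  refine ⟨l ++ l', ?_, ?_⟩
  · rw [List.length_append]
    omega
  · rw [List.map_append, List.prod_append]

lemma INJ_anti {p q : ℕ} (h : p ≤ q) : Im K n q ≤ Im K n p := by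
  apply Submodule.span_mono
  rintro _ ⟨l, hl, rfl⟩
  exact ⟨l, h.trans hl, rfl⟩

lemma INJ_gx (i : Fin n) : gx K n i ∈ Im K n 1 :=
  Submodule.subset_span ⟨[i], by simp, by simp⟩

lemma INJ_one : (1 : A K n) ∈ Im K n 0 := Submodule.subset_span ⟨[], by simp, by simp⟩

lemma INJ_top (a : A K n) : a ∈ Im K n 0 := by
  have h1 := (FreeAlgebra.basisFreeMonoid K (Fin n)).mem_span a
  unfold Im
  refine Submodule.span_mono ?_ h1
  rintro _ ⟨w, rfl⟩
  exact ⟨FreeMonoid.toList w, Nat.zero_le _, by rw [INJ_prod, FreeMonoid.ofList_toList]⟩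

lemma INJ_eps_gx (i : Fin n) : eps K n (gx K n i) = 0 := by
  unfold eps gx
  rw [FreeAlgebra.lift_ι_apply]

lemma INJ_eps (a : A K n) : a - algebraMap K (A K n) (eps K n a) ∈ Im K n 1 := by
  have h0 := INJ_top a
  unfold Im at h0
  induction h0 using Submodule.span_induction with
  | mem x hx =>
    obtain ⟨l, hl, rfl⟩ := hx
    cases l with
    | nil =>
      rw [List.map_nil, List.prod_nil, map_one, map_one, sub_self]
      exact Submodule.zero_mem _
    | cons i l =>
      rw [List.map_cons, List.prod_cons, map_mul, INJ_eps_gx, zero_mul, map_zero, sub_zero]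
      exact INJ_anti (by omega) (INJ_mul (INJ_gx i) (INJ_top _))
  | zero =>
    rw [map_zero, map_zero, sub_self]
    exact Submodule.zero_mem _
  | add x y _ _ hx hy =>
    have e : x + y - algebraMap K (A K n) (eps K n (x + y)) =
        (x - algebraMap K (A K n) (eps K n x)) + (y - algebraMap K (A K n) (eps K n y)) := by
      rw [map_add, map_add]
      abel
    rw [e]
    exact Submodule.add_mem _ hx hy
  | smul c x _ hx =>
    have e : c • x - algebraMap K (A K n) (eps K n (c • x)) =
        c • (x - algebraMap K (A K n) (eps K n x)) := by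
      rw [map_smul, smul_sub, smul_eq_mul, map_mul, ← Algebra.smul_def]
    rw [e]
    exact Submodule.smul_mem _ _ hx

lemma INJ_ker {a : A K n} (h : eps K n a = 0) : a ∈ Im K n 1 := by
  have := INJ_eps a
  rwa [h, map_zero, sub_zero] at this

lemma INJ_eps_Im {m : ℕ} (hm : 1 ≤ m) {a : A K n} (h : a ∈ Im K n m) : eps K n a = 0 := by
  unfold Im at h
  induction h using Submodule.span_induction with
  | mem x hx =>
    obtain ⟨l, hl, rfl⟩ := hx
    rw [map_list_prod, List.map_map, List.prod_eq_zero_iff]
    cases l with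
    | nil => simp at hl; omega
    | cons i l =>
      rw [List.map_cons]
      apply List.mem_cons.2
      left
      change 0 = eps K n (FreeAlgebra.ι K i)
      unfold eps
      rw [FreeAlgebra.lift_ι_apply]
  | zero => simp
  | add x y _ _ hx hy => rw [map_add, hx, hy, add_zero]
  | smul c x _ hx => rw [map_smul, hx, smul_zero]

lemma INJ_map (g : A K n →ₐ[K] A K n) (hg : ∀ i, g (gx K n i) ∈ Im K n 1) {m : ℕ} {a : A K n}
    (h : a ∈ Im K n m) : g a ∈ Im K n m := by
  unfold Im at h
  induction h using Submodule.span_induction with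
  | mem x hx =>
    obtain ⟨l, hl, rfl⟩ := hx
    refine INJ_anti hl ?_
    clear hl
    induction l with
    | nil => simp [INJ_one]
    | cons i l ih =>
      rw [List.map_cons, List.prod_cons, map_mul, List.length_cons, add_comm]
      exact INJ_mul (hg i) ih
  | zero => simp
  | add x y _ _ hx hy => rw [map_add]; exact Submodule.add_mem _ hx hy
  | smul c x _ hx => rw [map_smul]; exact Submodule.smul_mem _ _ hx

lemma INJ_cong (f g : A K n →ₐ[K] A K n) {m : ℕ} (h : ∀ i, f (gx K n i) - g (gx K n i) ∈ Im K n m)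
    (a : A K n) : f a - g a ∈ Im K n m := by
  have h0 := INJ_top a
  unfold Im at h0
  induction h0 using Submodule.span_induction with
  | mem x hx =>
    obtain ⟨l, hl, rfl⟩ := hx
    clear hl
    induction l with
    | nil =>
      rw [List.map_nil, List.prod_nil, map_one, map_one, sub_self]
      exact Submodule.zero_mem _
    | cons i l ih =>
      rw [List.map_cons, List.prod_cons, map_mul, map_mul]
      have e : ∀ a b c d : A K n, a * b - c * d = (a - c) * b + c * (b - d) := by
        intro a b c d
        noncomm_ring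
      rw [e]
      have h1 := INJ_mul (h i) (INJ_top (f (List.map (gx K n) l).prod))
      have h2 := INJ_mul (INJ_top (g (gx K n i))) ih
      rw [add_zero] at h1
      rw [zero_add] at h2
      exact Submodule.add_mem _ h1 h2
  | zero =>
    rw [map_zero, map_zero, sub_self]
    exact Submodule.zero_mem _
  | add x y _ _ hx hy =>
    have e : f (x + y) - g (x + y) = (f x - g x) + (f y - g y) := by
      rw [map_add, map_add]
      abel
    rw [e]
    exact Submodule.add_mem _ hx hy
  | smul c x _ hx =>
    rw [map_smul, map_smul, ← smul_sub]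
    exact Submodule.smul_mem _ _ hx

theorem t_INJ : S_INJ := by
  intro K _ n φ hφ
  rw [injective_iff_map_eq_zero]
  intro a ha
  apply INJ_zero_of_forall
  have main : ∀ m, 1 ≤ m → a ∈ Im K n m := by
    intro m hm
    obtain ⟨θ, hθ⟩ := hφ.2 m
    have h1 : ∀ i, eps K n (θ (gx K n i)) = 0 := by
      intro i
      have h2 := INJ_eps_Im hm (hθ i)
      rw [map_sub, hφ.1 i, zero_sub, neg_eq_zero] at h2
      exact h2
    have h2 : (eps K n).comp (θ : A K n →ₐ[K] A K n) = eps K n := by
      apply FreeAlgebra.hom_ext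
      funext i
      have h3 : eps K n (FreeAlgebra.ι K i) = 0 := by
        unfold eps
        rw [FreeAlgebra.lift_ι_apply]
      change eps K n (θ (gx K n i)) = eps K n (FreeAlgebra.ι K i)
      rw [h1, h3]
    have h3 : ∀ i, ((θ.symm : A K n ≃ₐ[K] A K n) : A K n →ₐ[K] A K n) (gx K n i) ∈ Im K n 1 := by
      intro i
      apply INJ_ker
      have h4 := DFunLike.congr_fun h2 (θ.symm (gx K n i))
      change eps K n (θ (θ.symm (gx K n i))) = eps K n (θ.symm (gx K n i)) at h4
      rw [AlgEquiv.apply_symm_apply] at h4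
      change eps K n (θ.symm (gx K n i)) = 0
      rw [← h4]
      change eps K n (FreeAlgebra.ι K i) = 0
      unfold eps
      rw [FreeAlgebra.lift_ι_apply]
    have h4 := INJ_cong φ (θ : A K n →ₐ[K] A K n) hθ a
    rw [ha, zero_sub] at h4
    have h5 : (θ : A K n →ₐ[K] A K n) a ∈ Im K n m := by
      have := Submodule.neg_mem _ h4
      rwa [neg_neg] at this
    have h6 := INJ_map ((θ.symm : A K n ≃ₐ[K] A K n) : A K n →ₐ[K] A K n) h3 h5
    have h7 : ((θ.symm : A K n ≃ₐ[K] A K n) : A K n →ₐ[K] A K n)
        ((θ : A K n →ₐ[K] A K n) a) = a := θ.symm_apply_apply a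
    rwa [h7] at h6
  intro m
  rcases Nat.eq_zero_or_pos m with rfl | hm
  · exact INJ_top a
  · exact main m hm

end

end Pool.Agent.R433.GE
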