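import Pool.Agent.R433.GE.Stm

/-!
Piece JAC: the Jacobian matrix of an automorphism is invertible.
-/

set_option autoImplicit false

namespace Pool.Agent.R433.GE

open scoped TensorProduct BigOperators
open MulOpposite

noncomputable section

/-- the endomorphism of `R` given by `φ` on both factors -/
def JAC_two {K : Type} [Field K] {n : ℕ} (φ : A K n →ₐ[K] A K n) : R K n →ₐ[K] R K n :=
  Algebra.TensorProduct.map φ (AlgHom.op φ)

theorem JAC_two_tmul {K : Type} [Field K] {n : ℕ} (φ : A K n →ₐ[K] A K n) (a : A K n)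
    (b : (A K n)ᵐᵒᵖ) : JAC_two φ (a ⊗ₜ[K] b) = φ a ⊗ₜ[K] op (φ (unop b)) := by
  unfold JAC_two
  rw [Algebra.TensorProduct.map_tmul]
  rfl

theorem JAC_one {K : Type} [Field K] {n : ℕ} (d : Fin n → (A K n →ₗ[K] R K n)) (hd : IsDer d)
    (j : Fin n) : d j 1 = 0 := by
  have h := hd.mul j 1 1
  rw [mul_one, op_one] at h
  have e : (1 : A K n) ⊗ₜ[K] (1 : (A K n)ᵐᵒᵖ) = (1 : R K n) := rfl
  rw [e, one_mul] at h
  exact left_eq_add.1 h

theorem JAC_chain {K : Type} [Field K] {n : ℕ} (d : Fin n → (A K n →ₗ[K] R K n)) (hd : IsDer d)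
    (φ : A K n →ₐ[K] A K n) (j : Fin n) (a : A K n) :
    d j (φ a) = ∑ i, JAC_two φ (d i a) * d j (φ (gx K n i)) := by
  induction a using FreeAlgebra.induction with
  | grade0 r =>
    rw [φ.commutes, Algebra.algebraMap_eq_smul_one, map_smul, JAC_one d hd, smul_zero]
    symm
    refine Finset.sum_eq_zero fun i _ => ?_
    rw [map_smul, JAC_one d hd, smul_zero, map_zero, zero_mul]
  | grade1 k =>
    have e : ∀ i, d i (FreeAlgebra.ι K k) = if i = k then 1 else 0 := fun i => hd.gen i k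
    rw [Finset.sum_eq_single k]
    · rw [e, if_pos rfl, map_one, one_mul]
      rfl
    · intro i _ hi
      rw [e, if_neg hi, map_zero, zero_mul]
    · intro h
      exact absurd (Finset.mem_univ k) h
  | mul a b ha hb =>
    rw [map_mul, hd.mul, ha, hb, Finset.mul_sum, Finset.mul_sum, ← Finset.sum_add_distrib]
    refine Finset.sum_congr rfl fun i _ => ?_
    rw [hd.mul, map_add, map_mul, map_mul, JAC_two_tmul, JAC_two_tmul, map_one, unop_op, unop_one,
      map_one, op_one, add_mul, mul_assoc, mul_assoc]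
  | add a b ha hb =>
    rw [map_add, map_add, ha, hb, ← Finset.sum_add_distrib]
    refine Finset.sum_congr rfl fun i _ => ?_
    rw [map_add, map_add, add_mul]

theorem JAC_comp {K : Type} [Field K] {n : ℕ} (θ : A K n ≃ₐ[K] A K n) (z : R K n) :
    JAC_two (θ : A K n →ₐ[K] A K n) (JAC_two (θ.symm : A K n →ₐ[K] A K n) z) = z := by
  induction z using TensorProduct.induction_on with
  | zero => rw [map_zero, map_zero]
  | tmul a b =>
    rw [JAC_two_tmul, JAC_two_tmul, unop_op]
    simp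
  | add x y hx hy => rw [map_add, map_add, hx, hy]

/-- piece JAC -/
theorem t_JAC : S_JAC := by
  intro K _ n d hd θ
  have h1 : (Jac d (θ.symm : A K n →ₐ[K] A K n)).map (JAC_two (θ : A K n →ₐ[K] A K n)) *
      Jac d (θ : A K n →ₐ[K] A K n) = 1 := by
    ext k j
    rw [Matrix.mul_apply, Matrix.one_apply]
    have h := JAC_chain d hd (θ : A K n →ₐ[K] A K n) j (θ.symm (gx K n k))
    have e : (θ : A K n →ₐ[K] A K n) (θ.symm (gx K n k)) = gx K n k := θ.apply_symm_apply _
    rw [e, hd.gen] at h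
    refine Eq.trans h.symm ?_
    by_cases hjk : j = k
    · rw [if_pos hjk, if_pos hjk.symm]
    · rw [if_neg hjk, if_neg (Ne.symm hjk)]
  have h2 : (Jac d (θ : A K n →ₐ[K] A K n)) *
      (Jac d (θ.symm : A K n →ₐ[K] A K n)).map (JAC_two (θ : A K n →ₐ[K] A K n)) = 1 := by
    ext k j
    rw [Matrix.mul_apply, Matrix.one_apply]
    have h := JAC_chain d hd (θ.symm : A K n →ₐ[K] A K n) j (θ (gx K n k))
    have e : (θ.symm : A K n →ₐ[K] A K n) (θ (gx K n k)) = gx K n k := θ.symm_apply_apply _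
    rw [e, hd.gen] at h
    have h3 := congrArg (JAC_two (θ : A K n →ₐ[K] A K n)) h
    rw [map_sum] at h3
    have h4 : ∀ i, JAC_two (θ : A K n →ₐ[K] A K n)
        (JAC_two (θ.symm : A K n →ₐ[K] A K n) (d i (θ (gx K n k))) *
          d j ((θ.symm : A K n →ₐ[K] A K n) (gx K n i))) =
        d i (θ (gx K n k)) * JAC_two (θ : A K n →ₐ[K] A K n)
          (d j ((θ.symm : A K n →ₐ[K] A K n) (gx K n i))) := by
      intro i
      rw [map_mul, JAC_comp]
    rw [Finset.sum_congr rfl fun i _ => h4 i] at h3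
    refine Eq.trans h3.symm ?_
    by_cases hjk : j = k
    · rw [if_pos hjk, if_pos hjk.symm, map_one]
    · rw [if_neg hjk, if_neg (Ne.symm hjk), map_zero]
  exact ⟨⟨_, _, h2, h1⟩, rfl⟩

end

end Pool.Agent.R433.GE
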