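import Pool.Agent.R433.GE.Stm

/-!
# Piece KL of project GE: the key lemma, from `S_REP`
-/

set_option autoImplicit false

namespace Pool.Agent.R433.GE

open scoped TensorProduct BigOperators
open MulOpposite

section

variable {K : Type} [Field K] {n : ℕ} {E β : Type} [Field E] [Algebra K E] [Fintype β]
  [DecidableEq β]

theorem KL_big_one (ρ : R K n →ₐ[K] Matrix β β E) (m : ℕ) :
    big ρ (1 : Matrix (Fin m) (Fin m) (R K n)) = 1 := by
  ext p q
  unfold big
  by_cases h : p.1 = q.1
  · rw [h, Matrix.one_apply_eq, map_one]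
    by_cases h2 : p.2 = q.2
    · have h3 : p = q := Prod.ext h h2
      rw [h3, Matrix.one_apply_eq, Matrix.one_apply_eq]
    · rw [Matrix.one_apply_ne h2, Matrix.one_apply_ne]
      intro h3
      exact h2 (by rw [h3])
  · rw [Matrix.one_apply_ne h, map_zero, Matrix.zero_apply, Matrix.one_apply_ne]
    intro h3
    exact h (by rw [h3])

theorem KL_big_mul (ρ : R K n →ₐ[K] Matrix β β E) {m : ℕ}
    (C D : Matrix (Fin m) (Fin m) (R K n)) : big ρ (C * D) = big ρ C * big ρ D := by
  ext p q
  rw [Matrix.mul_apply]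
  change ρ ((C * D) p.1 q.1) p.2 q.2 =
    ∑ x : Fin m × β, ρ (C p.1 x.1) p.2 x.2 * ρ (D x.1 q.1) x.2 q.2
  rw [Matrix.mul_apply, map_sum, Fintype.sum_prod_type, Matrix.sum_apply]
  refine Finset.sum_congr rfl fun x _ => ?_
  rw [map_mul, Matrix.mul_apply]

theorem KL_big_pow (ρ : R K n →ₐ[K] Matrix β β E) {m : ℕ}
    (C : Matrix (Fin m) (Fin m) (R K n)) (k : ℕ) : big ρ (C ^ k) = (big ρ C) ^ k := by
  induction k with
  | zero => rw [pow_zero, pow_zero, KL_big_one]
  | succ k ih => rw [pow_succ, pow_succ, KL_big_mul, ih]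

theorem KL_mulVec (ρ : R K n →ₐ[K] Matrix β β E) {m : ℕ}
    (D : Matrix (Fin m) (Fin m) (R K n)) (u : Fin m → R K n) (c : β) (p : Fin m × β) :
    (big ρ D).mulVec (fun q => ρ (u q.1) q.2 c) p = ρ ((D.mulVec u) p.1) p.2 c := by
  simp only [Matrix.mulVec, dotProduct, big]
  rw [map_sum, Fintype.sum_prod_type, Matrix.sum_apply]
  refine Finset.sum_congr rfl fun x _ => ?_
  rw [map_mul, Matrix.mul_apply]

end

theorem KL_arith {b a a' : ℕ} (h : b ∣ a) (h' : b ∣ a') (hl : a < a') : a + b ≤ a' := by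
  obtain ⟨s, rfl⟩ := h
  obtain ⟨t, rfl⟩ := h'
  have h1 : s < t := Nat.lt_of_mul_lt_mul_left hl
  calc b * s + b = b * (s + 1) := by ring
    _ ≤ b * t := Nat.mul_le_mul_left b h1

theorem KL_mono {F V : Type} [Field F] [AddCommGroup V] [Module F V] (f : Module.End F V)
    (k j : ℕ) : LinearMap.ker (f ^ k) ≤ LinearMap.ker (f ^ (k + j)) := by
  intro x hx
  rw [LinearMap.mem_ker] at hx ⊢
  rw [add_comm, pow_add, Module.End.mul_apply, hx, map_zero]

theorem KL_stable {F V : Type} [Field F] [AddCommGroup V] [Module F V] (f : Module.End F V)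
    (k : ℕ) (h : LinearMap.ker (f ^ k) = LinearMap.ker (f ^ (k + 1))) (j : ℕ) :
    LinearMap.ker (f ^ (k + j)) ≤ LinearMap.ker (f ^ k) := by
  induction j with
  | zero => exact le_refl _
  | succ j ih =>
    intro x hx
    rw [LinearMap.mem_ker] at hx
    have h1 : f ^ (k + (j + 1)) = f ^ (k + j) * f := by rw [← pow_succ]; rfl
    rw [h1, Module.End.mul_apply] at hx
    have h2 : f x ∈ LinearMap.ker (f ^ k) := ih (LinearMap.mem_ker.mpr hx)
    rw [h, LinearMap.mem_ker, pow_succ, Module.End.mul_apply]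
    exact LinearMap.mem_ker.mp h2

theorem KL_chain {F V : Type} [Field F] [AddCommGroup V] [Module F V] [FiniteDimensional F V]
    (f : Module.End F V) (m b : ℕ) (hV : Module.finrank F V = m * b)
    (hd : ∀ k, b ∣ Module.finrank F (LinearMap.range (f ^ k))) (k : ℕ) :
    LinearMap.ker (f ^ k) ≤ LinearMap.ker (f ^ m) := by
  have hker : ∀ k, b ∣ Module.finrank F (LinearMap.ker (f ^ k)) := by
    intro k
    have h1 := LinearMap.finrank_range_add_finrank_ker (f ^ k)
    rw [hV] at h1
    refine (Nat.dvd_add_right (hd k)).mp ?_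
    rw [h1]
    exact Dvd.intro_left m rfl
  have hstep : ∀ l, (∃ j, j < l ∧ LinearMap.ker (f ^ j) = LinearMap.ker (f ^ (j + 1))) ∨
      l * b ≤ Module.finrank F (LinearMap.ker (f ^ l)) := by
    intro l
    induction l with
    | zero => right; simp
    | succ l ih =>
      rcases ih with ⟨j, hj, he⟩ | hl
      · exact Or.inl ⟨j, Nat.lt_succ_of_lt hj, he⟩
      · by_cases he : LinearMap.ker (f ^ l) = LinearMap.ker (f ^ (l + 1))
        · exact Or.inl ⟨l, Nat.lt_succ_self l, he⟩
        · right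
          have hlt : LinearMap.ker (f ^ l) < LinearMap.ker (f ^ (l + 1)) :=
            lt_of_le_of_ne (KL_mono f l 1) he
          have h2 := Submodule.finrank_lt_finrank_of_lt hlt
          have h3 := KL_arith (hker l) (hker (l + 1)) h2
          calc (l + 1) * b = l * b + b := by ring
            _ ≤ _ := by omega
  rcases hstep m with ⟨j, hj, he⟩ | hm
  · have h1 : LinearMap.ker (f ^ k) ≤ LinearMap.ker (f ^ (j + k)) := by
      rw [add_comm]
      exact KL_mono f k j
    have h2 : LinearMap.ker (f ^ (j + k)) ≤ LinearMap.ker (f ^ j) := KL_stable f j he k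
    have h3 : LinearMap.ker (f ^ j) ≤ LinearMap.ker (f ^ m) := by
      have h4 := KL_mono f j (m - j)
      rwa [Nat.add_sub_cancel' hj.le] at h4
    exact (h1.trans h2).trans h3
  · have h1 : LinearMap.ker (f ^ m) = ⊤ := by
      apply Submodule.eq_top_of_finrank_eq
      apply le_antisymm
      · exact Submodule.finrank_le _
      · rw [hV]
        exact hm
    rw [h1]
    exact le_top

theorem t_KL (h : S_REP) : S_KL := by
  intro K _ n m C u hu
  by_contra hne
  obtain ⟨i, hi⟩ : ∃ i, ((C ^ m).mulVec u) i ≠ 0 := by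
    by_contra hcon
    apply hne
    funext i
    by_contra h2
    exact hcon ⟨i, h2⟩
  obtain ⟨E, _, _, β, _, _, ρ, hρ, hdvd⟩ := h K n _ hi
  obtain ⟨k, hk⟩ := hu E β ρ
  let f : Module.End E ((Fin m × β) → E) := (big ρ C).mulVecLin
  have hfk : ∀ l, f ^ l = (big ρ (C ^ l)).mulVecLin := by
    intro l
    rw [KL_big_pow]
    have h1 := Matrix.toLin'_pow (big ρ C) l
    rw [Matrix.toLin'_apply', Matrix.toLin'_apply'] at h1
    exact h1.symm
  have hV : Module.finrank E ((Fin m × β) → E) = m * Fintype.card β := by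
    rw [Module.finrank_fintype_fun_eq_card, Fintype.card_prod, Fintype.card_fin]
  have hd : ∀ l, Fintype.card β ∣ Module.finrank E (LinearMap.range (f ^ l)) := by
    intro l
    rw [hfk l]
    exact hdvd m (C ^ l)
  have hchain := KL_chain f m (Fintype.card β) hV hd k
  apply hρ
  ext a c
  have hw : (fun q : Fin m × β => ρ (u q.1) q.2 c) ∈ LinearMap.ker (f ^ k) := by
    rw [LinearMap.mem_ker, hfk k, Matrix.mulVecLin_apply]
    funext p
    rw [KL_mulVec, hk p.1]
    rfl
  have hw2 := hchain hw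
  rw [LinearMap.mem_ker, hfk m, Matrix.mulVecLin_apply] at hw2
  have hw3 := congrFun hw2 (i, a)
  rw [KL_mulVec] at hw3
  rw [Matrix.zero_apply]
  exact hw3

end Pool.Agent.R433.GE
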