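import Pool.Agent.R433.GE.Stm

set_option autoImplicit false

namespace Pool.Agent.R433.GE.LINb

open scoped TensorProduct BigOperators
open MulOpposite

noncomputable section

variable {K : Type} [Field K] {n : ℕ}

/-- `(l ⊗ 1) T` -/
def lf (l : A K n →ₗ[K] K) : A K n ⊗[K] A K n →ₗ[K] A K n :=
  (TensorProduct.lid K (A K n)).toLinearMap ∘ₗ (l.rTensor (A K n))

theorem lf_tmul (l : A K n →ₗ[K] K) (y w : A K n) : lf l (y ⊗ₜ[K] w) = l y • w := by
  simp [lf]

/-- `(1 ⊗ g) T` -/
def rf (g : A K n →ₗ[K] K) : A K n ⊗[K] A K n →ₗ[K] A K n :=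
  (TensorProduct.rid K (A K n)).toLinearMap ∘ₗ (g.lTensor (A K n))

theorem rf_tmul (g : A K n →ₗ[K] K) (y w : A K n) : rf g (y ⊗ₜ[K] w) = g w • y := by
  simp [rf]

/-- `(l ⊗ 1 ⊗ 1) T` -/
def lff (l : A K n →ₗ[K] K) : A K n ⊗[K] (A K n ⊗[K] A K n) →ₗ[K] A K n ⊗[K] A K n :=
  (TensorProduct.lid K (A K n ⊗[K] A K n)).toLinearMap ∘ₗ (l.rTensor (A K n ⊗[K] A K n))

theorem lff_tmul (l : A K n →ₗ[K] K) (y : A K n) (w : A K n ⊗[K] A K n) :
    lff l (y ⊗ₜ[K] w) = l y • w := by
  simp [lff]

/-- tensors with right factor in `M` -/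
def AM (M : Submodule K (A K n)) : Submodule K (A K n ⊗[K] A K n) :=
  Submodule.span K {T | ∃ y : A K n, ∃ w ∈ M, T = y ⊗ₜ[K] w}

theorem tmul_mem_AM {M : Submodule K (A K n)} (y : A K n) {w : A K n} (hw : w ∈ M) :
    y ⊗ₜ[K] w ∈ AM M := Submodule.subset_span ⟨y, w, hw, rfl⟩

theorem lf_mem {M : Submodule K (A K n)} (l : A K n →ₗ[K] K) {T : A K n ⊗[K] A K n}
    (hT : T ∈ AM M) : lf l T ∈ M := by
  induction hT using Submodule.span_induction with
  | mem x hx =>
    obtain ⟨y, w, hw, rfl⟩ := hx
    rw [lf_tmul]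
    exact M.smul_mem _ hw
  | zero => simp
  | add x y _ _ hx hy => rw [map_add]; exact M.add_mem hx hy
  | smul c x _ hx => rw [map_smul]; exact M.smul_mem _ hx

theorem AM_mono {M N : Submodule K (A K n)} (h : M ≤ N) : AM M ≤ AM N := by
  apply Submodule.span_mono
  rintro T ⟨y, w, hw, rfl⟩
  exact ⟨y, w, h hw, rfl⟩

/-- every tensor lies in `AM` of the span of finitely many of its right components -/
theorem exists_fin (T : A K n ⊗[K] A K n) : ∃ s : Finset (A K n →ₗ[K] K),
    T ∈ AM (Submodule.span K ((fun l => lf l T) '' (s : Set (A K n →ₗ[K] K)))) := by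
  classical
  let b := Module.Basis.ofVectorSpace K (A K n)
  -- T = ∑ b_e ⊗ (b_e^* ⊗ 1) T for a finite set
  have key : ∀ T : A K n ⊗[K] A K n, ∃ F : Finset (Module.Basis.ofVectorSpaceIndex K (A K n)),
      ∀ F' : Finset (Module.Basis.ofVectorSpaceIndex K (A K n)), F ⊆ F' →
        T = ∑ e ∈ F', b e ⊗ₜ[K] lf (b.coord e) T := by
    intro T
    induction T using TensorProduct.induction_on with
    | zero => exact ⟨∅, fun F' _ => by simp⟩
    | tmul y w =>
      refine ⟨(b.repr y).support, fun F' hF' => ?_⟩
      have h1 : y = ∑ e ∈ F', b.repr y e • b e := by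
        have h2 := b.linearCombination_repr y
        rw [Finsupp.linearCombination_apply, Finsupp.sum] at h2
        conv_lhs => rw [← h2]
        apply Finset.sum_subset hF'
        intro e _ he
        rw [Finsupp.notMem_support_iff.1 he, zero_smul]
      calc y ⊗ₜ[K] w = (∑ e ∈ F', b.repr y e • b e) ⊗ₜ[K] w := by rw [← h1]
        _ = ∑ e ∈ F', b e ⊗ₜ[K] lf (b.coord e) (y ⊗ₜ[K] w) := by
            rw [TensorProduct.sum_tmul]
            apply Finset.sum_congr rfl
            intro e _
            rw [lf_tmul, TensorProduct.smul_tmul]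
            rfl
    | add T₁ T₂ h1 h2 =>
      obtain ⟨F₁, h1⟩ := h1
      obtain ⟨F₂, h2⟩ := h2
      refine ⟨F₁ ∪ F₂, fun F' hF' => ?_⟩
      have e1 := h1 F' (Finset.union_subset_left hF')
      have e2 := h2 F' (Finset.union_subset_right hF')
      conv_lhs => rw [e1, e2]
      rw [← Finset.sum_add_distrib]
      apply Finset.sum_congr rfl
      intro e _
      rw [map_add, TensorProduct.tmul_add]
  obtain ⟨F, hF⟩ := key T
  refine ⟨F.image b.coord, ?_⟩
  have h := hF F (Finset.Subset.refl _)
  rw [h]
  apply Submodule.sum_mem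
  intro e he
  apply tmul_mem_AM
  rw [← h]
  apply Submodule.subset_span
  refine ⟨b.coord e, ?_, rfl⟩
  rw [Finset.coe_image]
  exact ⟨e, he, rfl⟩

theorem lff_assoc (l : A K n →ₗ[K] K) (D : A K n →ₗ[K] A K n ⊗[K] A K n)
    (T : A K n ⊗[K] A K n) :
    lff l (TensorProduct.assoc K (A K n) (A K n) (A K n) (D.rTensor (A K n) T)) =
      (lf l ∘ₗ D).rTensor (A K n) T := by
  induction T using TensorProduct.induction_on with
  | zero => simp
  | tmul y w =>
    rw [LinearMap.rTensor_tmul, LinearMap.rTensor_tmul, LinearMap.comp_apply]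
    induction (D y) using TensorProduct.induction_on with
    | zero => simp
    | tmul p q =>
      rw [TensorProduct.assoc_tmul, lff_tmul, lf_tmul, TensorProduct.smul_tmul']
    | add x y hx hy =>
      rw [TensorProduct.add_tmul, map_add, map_add, hx, hy, map_add, TensorProduct.add_tmul]
  | add x y hx hy => rw [map_add, map_add, map_add, hx, hy, map_add]

theorem lff_lTensor (l : A K n →ₗ[K] K) (D : A K n →ₗ[K] A K n ⊗[K] A K n)
    (T : A K n ⊗[K] A K n) :
    lff l (D.lTensor (A K n) T) = D (lf l T) := by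
  induction T using TensorProduct.induction_on with
  | zero => simp
  | tmul y w => rw [LinearMap.lTensor_tmul, lff_tmul, lf_tmul, map_smul]
  | add x y hx hy => rw [map_add, map_add, hx, hy, map_add, map_add]

theorem rTensor_mem {M : Submodule K (A K n)} (g : A K n →ₗ[K] A K n) {T : A K n ⊗[K] A K n}
    (hT : T ∈ AM M) : g.rTensor (A K n) T ∈ AM M := by
  induction hT using Submodule.span_induction with
  | mem x hx =>
    obtain ⟨y, w, hw, rfl⟩ := hx
    rw [LinearMap.rTensor_tmul]
    exact tmul_mem_AM _ hw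
  | zero => simp
  | add x y _ _ hx hy => rw [map_add]; exact Submodule.add_mem _ hx hy
  | smul c x _ hx => rw [map_smul]; exact Submodule.smul_mem _ _ hx

/-- `D_i ((l ⊗ 1) D_j a) = ((l ⊗ 1) D_j ⊗ 1) D_i a` -/
theorem co_lf {D : Fin n → (A K n →ₗ[K] A K n ⊗[K] A K n)} (hCO : CO D) (i j : Fin n)
    (l : A K n →ₗ[K] K) (a : A K n) :
    D i (lf l (D j a)) = (lf l ∘ₗ D j).rTensor (A K n) (D i a) := by
  have h := hCO j i a
  rw [← lff_assoc, h, lff_lTensor]

theorem t_LIN : S_LIN := by
  intro K _ n f D hCO hEXP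
  classical
  -- finite sets of functionals
  choose s hs using fun (T : A K n ⊗[K] A K n) => exists_fin T
  let G : Set (A K n) := Set.range (gx K n) ∪
    ⋃ (k : Fin n), ⋃ (j : Fin n), (fun l => lf l (D j (gx K n k))) ''
      (s (D j (gx K n k)) : Set (A K n →ₗ[K] K))
  have hGfin : G.Finite := by
    apply Set.Finite.union (Set.finite_range _)
    apply Set.finite_iUnion
    intro k
    apply Set.finite_iUnion
    intro j
    exact Set.Finite.image _ (Finset.finite_toSet _)
  let M : Submodule K (A K n) := Submodule.span K G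
  have : FiniteDimensional K M := FiniteDimensional.span_of_finite K hGfin
  have hDx : ∀ j k, D j (gx K n k) ∈ AM M := by
    intro j k
    refine AM_mono ?_ (hs (D j (gx K n k)))
    apply Submodule.span_mono
    intro a ha
    refine Or.inr ?_
    simp only [Set.mem_iUnion]
    exact ⟨k, j, ha⟩
  have hDM : ∀ i, ∀ a ∈ M, D i a ∈ AM M := by
    intro i a ha
    induction ha using Submodule.span_induction with
    | mem x hx =>
      rcases hx with ⟨k, rfl⟩ | hx
      · exact hDx i k
      · simp only [Set.mem_iUnion] at hx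
        obtain ⟨k, j, l, -, rfl⟩ := hx
        show D i (lf l (D j (gx K n k))) ∈ AM M
        rw [co_lf hCO]
        exact rTensor_mem _ (hDx i k)
    | zero => simp
    | add x y _ _ hx hy => rw [map_add]; exact Submodule.add_mem _ hx hy
    | smul c x _ hx => rw [map_smul]; exact Submodule.smul_mem _ _ hx
  let p := Module.finrank K M
  let b : Module.Basis (Fin p) K M := Module.finBasis K M
  let v : Fin p → A K n := fun a => (b a : A K n)
  have hvM : ∀ a, v a ∈ M := fun a => (b a).2
  -- dual functionals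
  have hg : ∀ c : Fin p, ∃ g : A K n →ₗ[K] K, ∀ e, g (v e) = if e = c then 1 else 0 := by
    intro c
    obtain ⟨g, hg⟩ := LinearMap.exists_extend (p := M) (b.coord c)
    refine ⟨g, fun e => ?_⟩
    have h1 : g (v e) = b.coord c (b e) := by
      have := LinearMap.congr_fun hg (b e)
      simpa using this
    rw [h1, Module.Basis.coord_apply, Module.Basis.repr_self, Finsupp.single_apply]
  choose g hg using hg
  -- coefficients
  have hcoef : ∀ T ∈ AM M, ∃ r : Fin p → A K n, T = ∑ c, r c ⊗ₜ[K] v c := by
    intro T hT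
    induction hT using Submodule.span_induction with
    | mem x hx =>
      obtain ⟨y, w, hw, rfl⟩ := hx
      refine ⟨fun c => b.repr ⟨w, hw⟩ c • y, ?_⟩
      have h1 : w = ∑ c, b.repr ⟨w, hw⟩ c • v c := by
        have h2 := congrArg (fun z : M => (z : A K n)) (b.sum_repr ⟨w, hw⟩)
        simp only [Submodule.coe_sum, Submodule.coe_smul] at h2
        exact h2.symm
      conv_lhs => rw [h1]
      rw [TensorProduct.tmul_sum]
      apply Finset.sum_congr rfl
      intro c _
      rw [TensorProduct.tmul_smul, TensorProduct.smul_tmul']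
    | zero => exact ⟨0, by simp⟩
    | add x y _ _ hx hy =>
      obtain ⟨r, rfl⟩ := hx
      obtain ⟨r', rfl⟩ := hy
      refine ⟨fun c => r c + r' c, ?_⟩
      rw [← Finset.sum_add_distrib]
      apply Finset.sum_congr rfl
      intro c _
      rw [TensorProduct.add_tmul]
    | smul t x _ hx =>
      obtain ⟨r, rfl⟩ := hx
      refine ⟨fun c => t • r c, ?_⟩
      rw [Finset.smul_sum]
      apply Finset.sum_congr rfl
      intro c _
      rw [TensorProduct.smul_tmul']
  have hr : ∀ i a, ∃ r : Fin p → A K n, D i (v a) = ∑ c, r c ⊗ₜ[K] v c :=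
    fun i a => hcoef _ (hDM i _ (hvM a))
  choose r hr using hr
  have hrf : ∀ (y : Fin p → A K n) (e : Fin p), rf (g e) (∑ c, y c ⊗ₜ[K] v c) = y e := by
    intro y e
    rw [map_sum]
    simp only [rf_tmul, hg, ite_smul, one_smul, zero_smul, Finset.sum_ite_eq', Finset.mem_univ,
      if_true]
  let α : Fin n → Matrix (Fin p) (Fin p) K := fun i a c => eps K n (r i a c)
  have hDl : ∀ i, Dl D i = lf (eps K n).toLinearMap ∘ₗ D i := fun i => rfl
  have hDlv : ∀ i a, Dl D i (v a) = ∑ c, α i a c • v c := by
    intro i a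
    rw [hDl, LinearMap.comp_apply, hr, map_sum]
    apply Finset.sum_congr rfl
    intro c _
    rw [lf_tmul]
    rfl
  have hDlr : ∀ i j a e, Dl D j (r i a e) = ∑ c, α j a c • r i c e := by
    intro i j a e
    have h1 : (Dl D j).rTensor (A K n) (D i (v a)) = D i (Dl D j (v a)) := by
      rw [hDl, LinearMap.comp_apply, co_lf hCO]
    rw [hDlv, hr, map_sum, map_sum] at h1
    have h2 := congrArg (rf (g e)) h1
    simp only [LinearMap.rTensor_tmul] at h2
    rw [hrf (fun c => Dl D j (r i a c)) e] at h2
    rw [h2, map_sum]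
    apply Finset.sum_congr rfl
    intro c _
    rw [map_smul, map_smul, hr, hrf]
  let Q : Matrix (Fin p) (Fin p) (A K n) := fun a e =>
    (if a = e then 1 else 0) + ∑ i, r i a e * f i
  refine ⟨p, v, α, Q, ?_, ?_, ?_⟩
  · -- (1 - Fm) r_i = α_i
    have hkey : ∀ i a e, r i a e = algebraMap K (A K n) (α i a e) + ∑ c, Fm α f a c * r i c e := by
      intro i a e
      have h := hEXP (r i a e)
      conv_lhs => rw [h]
      congr 1
      calc ∑ j, f j * Dl D j (r i a e) = ∑ j, ∑ c, α j a c • (f j * r i c e) := by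
            apply Finset.sum_congr rfl
            intro j _
            rw [hDlr, Finset.mul_sum]
            apply Finset.sum_congr rfl
            intro c _
            rw [mul_smul_comm]
        _ = ∑ c, ∑ j, α j a c • (f j * r i c e) := Finset.sum_comm
        _ = ∑ c, Fm α f a c * r i c e := by
            apply Finset.sum_congr rfl
            intro c _
            simp only [Fm, Finset.sum_mul, smul_mul_assoc]
    ext a e
    rw [Matrix.sub_mul, Matrix.one_mul, Matrix.sub_apply, Matrix.mul_apply]
    have h1 : ∑ c, Fm α f a c * Q c e = Fm α f a e + ∑ i, (∑ c, Fm α f a c * r i c e) * f i := by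
      simp only [Q, mul_add, Finset.sum_add_distrib, mul_ite, mul_one, mul_zero,
        Finset.sum_ite_eq', Finset.mem_univ, if_true]
      congr 1
      rw [Finset.sum_congr rfl (fun c _ => Finset.mul_sum _ _ _), Finset.sum_comm]
      apply Finset.sum_congr rfl
      intro i _
      rw [Finset.sum_mul]
      apply Finset.sum_congr rfl
      intro c _
      rw [mul_assoc]
    have h2 : ∑ i, r i a e * f i
        = Fm α f a e + ∑ i, (∑ c, Fm α f a c * r i c e) * f i := by
      have h3 : ∀ i, r i a e * f i = α i a e • f i + (∑ c, Fm α f a c * r i c e) * f i := by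
        intro i
        conv_lhs => rw [hkey i a e]
        rw [add_mul, Algebra.smul_def]
      rw [Finset.sum_congr rfl (fun i _ => h3 i), Finset.sum_add_distrib]
      rfl
    show (if a = e then 1 else 0) + ∑ i, r i a e * f i - ∑ c, Fm α f a c * Q c e = _
    rw [h1, h2, add_sub_cancel_right, Matrix.one_apply]
  · intro a
    have h := hEXP (v a)
    conv_lhs => rw [h]
    congr 1
    calc ∑ i, f i * Dl D i (v a) = ∑ i, ∑ c, α i a c • (f i * v c) := by
          apply Finset.sum_congr rfl
          intro i _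
          rw [hDlv, Finset.mul_sum]
          apply Finset.sum_congr rfl
          intro c _
          rw [mul_smul_comm]
      _ = ∑ c, ∑ i, α i a c • (f i * v c) := Finset.sum_comm
      _ = ∑ c, Fm α f a c * v c := by
          apply Finset.sum_congr rfl
          intro c _
          simp only [Fm, Finset.sum_mul, smul_mul_assoc]
  · intro k
    have h1 : Submodule.span K (Set.range v) = M := by
      have h2 : Set.range v = M.subtype '' (Set.range b) := by
        rw [← Set.range_comp]; rfl
      rw [h2, Submodule.span_image, b.span_eq, Submodule.map_top, Submodule.range_subtype]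
    rw [h1]
    exact Submodule.subset_span (Or.inl ⟨k, rfl⟩)

end

end Pool.Agent.R433.GE.LINb
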