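import Pool.Agent.R433.GE.Stm

/-!
# Project GE, piece NIL (helper657 for helper433)
-/

set_option autoImplicit false

namespace Pool.Agent.R433.GE

open scoped TensorProduct BigOperators
open MulOpposite

noncomputable section

/-! ### A unit `1 - X Z` forces `Z` nilpotent -/

theorem NIL_nilp {E ι : Type} [Field E] [Fintype ι] [DecidableEq ι] (Z : Matrix ι ι E)
    (h : IsUnit ((1 : Matrix ι ι (Polynomial E)) -
      (Polynomial.X : Polynomial E) • Z.map (fun z => Polynomial.C z))) : ∃ k : ℕ, Z ^ k = 0 := by
  obtain ⟨u, hu⟩ := h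
  set V : Matrix ι ι (Polynomial E) := ((u⁻¹ : (Matrix ι ι (Polynomial E))ˣ) :
    Matrix ι ι (Polynomial E)) with hV
  have h1 : ((1 : Matrix ι ι (Polynomial E)) -
      (Polynomial.X : Polynomial E) • Z.map (fun z => Polynomial.C z)) * V = 1 := by
    rw [← hu, hV, Units.mul_inv]
  have h2 : V - (Polynomial.X : Polynomial E) • (Z.map (fun z => Polynomial.C z) * V) = 1 := by
    rw [← h1, sub_mul, one_mul, Matrix.smul_mul]
  have h3 : ∀ i j, V i j - Polynomial.X * ∑ l, Polynomial.C (Z i l) * V l j
      = (1 : Matrix ι ι (Polynomial E)) i j := by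
    intro i j
    have := congrFun (congrFun h2 i) j
    rw [← this]
    rfl
  have hk : ∀ k : ℕ, (Matrix.of fun i j => (V i j).coeff k) = Z ^ k := by
    intro k
    induction k with
    | zero =>
      ext i j
      have h4 := congrArg (fun q => Polynomial.coeff q 0) (h3 i j)
      simp only [Polynomial.coeff_sub, Polynomial.mul_coeff_zero, Polynomial.coeff_X_zero,
        zero_mul, sub_zero] at h4
      rw [Matrix.of_apply, h4, pow_zero, Matrix.one_apply, Matrix.one_apply]
      split_ifs <;> simp
    | succ k ih =>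
      ext i j
      have h4 := congrArg (fun q => Polynomial.coeff q (k + 1)) (h3 i j)
      simp only [Polynomial.coeff_sub, Polynomial.coeff_X_mul, Polynomial.finsetSum_coeff,
        Polynomial.coeff_C_mul] at h4
      have h5 : ((1 : Matrix ι ι (Polynomial E)) i j).coeff (k + 1) = 0 := by
        rw [Matrix.one_apply]
        split_ifs
        · rw [Polynomial.coeff_one]
          simp
        · simp
      rw [h5, sub_eq_zero] at h4
      rw [Matrix.of_apply, h4, pow_succ', ← ih, Matrix.mul_apply]
      rfl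
  refine ⟨(∑ i, ∑ j, (V i j).natDegree) + 1, ?_⟩
  rw [← hk]
  ext i j
  rw [Matrix.of_apply, Matrix.zero_apply]
  apply Polynomial.coeff_eq_zero_of_natDegree_lt
  have h6 : (V i j).natDegree ≤ ∑ j, (V i j).natDegree :=
    Finset.single_le_sum (f := fun j => (V i j).natDegree) (fun _ _ => Nat.zero_le _)
      (Finset.mem_univ j)
  have h7 : ∑ j, (V i j).natDegree ≤ ∑ i, ∑ j, (V i j).natDegree :=
    Finset.single_le_sum (f := fun i => ∑ j, (V i j).natDegree) (fun _ _ => Nat.zero_le _)
      (Finset.mem_univ i)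
  omega

/-! ### Divisibility of matrices by powers of `X` -/

section Div

set_option linter.unusedSectionVars false

variable {E β : Type} [Field E] [Fintype β] [DecidableEq β]

/-- all entries are divisible by `X ^ m` -/
def NIL_D (m : ℕ) (M : Matrix β β (Polynomial E)) : Prop :=
  ∀ i j, (Polynomial.X : Polynomial E) ^ m ∣ M i j

theorem NIL_D_mul {a b : ℕ} {M N : Matrix β β (Polynomial E)} (hM : NIL_D a M) (hN : NIL_D b N) :
    NIL_D (a + b) (M * N) := by
  intro i j
  rw [Matrix.mul_apply, pow_add]
  exact Finset.dvd_sum fun k _ => mul_dvd_mul (hM i k) (hN k j)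

theorem NIL_D_add {a : ℕ} {M N : Matrix β β (Polynomial E)} (hM : NIL_D a M) (hN : NIL_D a N) :
    NIL_D a (M + N) := fun i j => dvd_add (hM i j) (hN i j)

theorem NIL_D_zero {a : ℕ} : NIL_D a (0 : Matrix β β (Polynomial E)) := fun _ _ => dvd_zero _

theorem NIL_D_smul {K : Type} [Field K] [Algebra K E] {a : ℕ} (c : K)
    {M : Matrix β β (Polynomial E)} (hM : NIL_D a M) : NIL_D a (c • M) := by
  intro i j
  rw [Matrix.smul_apply, Algebra.smul_def]
  exact Dvd.dvd.mul_left (hM i j) _

theorem NIL_D_list {a : ℕ} (l : List (Matrix β β (Polynomial E))) (h : ∀ M ∈ l, NIL_D 1 M)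
    (ha : a ≤ l.length) : NIL_D a l.prod := by
  induction l generalizing a with
  | nil =>
    have : a = 0 := by simpa using ha
    subst this
    intro i j
    simp
  | cons M l ih =>
    rw [List.prod_cons]
    cases a with
    | zero => intro i j; simp
    | succ a =>
      rw [add_comm a 1]
      exact NIL_D_mul (h M (by simp)) (ih (fun N hN => h N (by simp [hN])) (by simpa using ha))

end Div

/-! ### Evaluation -/

section Ev

variable {K E β : Type} [Field K] [Field E] [Algebra K E] [Fintype β] [DecidableEq β] {n : ℕ}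

/-- evaluation at `X Z_j` -/
def NIL_ev (Z : Fin n → Matrix β β E) : A K n →ₐ[K] Matrix β β (Polynomial E) :=
  FreeAlgebra.lift K fun j => (Polynomial.X : Polynomial E) • (Z j).map (fun z => Polynomial.C z)

theorem NIL_ev_gx (Z : Fin n → Matrix β β E) (j : Fin n) : NIL_ev (K := K) Z (gx K n j) =
    (Polynomial.X : Polynomial E) • (Z j).map (fun z => Polynomial.C z) := by
  unfold NIL_ev gx
  exact FreeAlgebra.lift_ι_apply _ _

theorem NIL_ev_D (Z : Fin n → Matrix β β E) (a : A K n) (ha : eps K n a = 0) :
    NIL_D 1 (NIL_ev Z a) := by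
  let c0 : Polynomial E →ₐ[K] E := (Polynomial.aeval (0 : E)).restrictScalars K
  have h1 : (c0.mapMatrix (m := β)).comp (NIL_ev (K := K) Z) =
      (Algebra.ofId K (Matrix β β E)).comp (eps K n) := by
    apply FreeAlgebra.hom_ext
    funext j
    have h2 : NIL_ev (K := K) Z (FreeAlgebra.ι K j) = _ := NIL_ev_gx Z j
    simp only [Function.comp, AlgHom.comp_apply]
    rw [h2]
    have h3 : eps K n (FreeAlgebra.ι K j) = 0 := by
      unfold eps
      exact FreeAlgebra.lift_ι_apply _ _
    rw [h3, map_zero]
    ext i k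
    simp [c0]
  have h4 := congrArg (fun F : A K n →ₐ[K] Matrix β β E => F a) h1
  simp only [AlgHom.comp_apply, ha, map_zero] at h4
  intro i j
  have h5 := congrFun (congrFun h4 i) j
  rw [pow_one, Polynomial.X_dvd_iff, Polynomial.coeff_zero_eq_aeval_zero]
  exact h5

theorem NIL_eps_gx (i : Fin n) : eps K n (gx K n i) = 0 := by
  unfold eps gx
  exact FreeAlgebra.lift_ι_apply _ _

theorem NIL_eps_Im {m : ℕ} {r : A K n} (hr : r ∈ Im K n (m + 1)) : eps K n r = 0 := by
  unfold Im at hr
  induction hr using Submodule.span_induction with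
  | mem x hx =>
    obtain ⟨l, hl, rfl⟩ := hx
    cases l with
    | nil => simp at hl
    | cons a l => rw [List.map_cons, List.prod_cons, map_mul, NIL_eps_gx, zero_mul]
  | zero => exact map_zero _
  | add x y _ _ hx hy => rw [map_add, hx, hy, add_zero]
  | smul c x _ hx => rw [map_smul, hx, smul_zero]

theorem NIL_Im_D {m : ℕ} (χ : A K n →ₐ[K] Matrix β β (Polynomial E))
    (hχ : ∀ i, NIL_D 1 (χ (gx K n i))) {r : A K n} (hr : r ∈ Im K n m) : NIL_D m (χ r) := by
  unfold Im at hr
  induction hr using Submodule.span_induction with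
  | mem x hx =>
    obtain ⟨l, hl, rfl⟩ := hx
    rw [map_list_prod, List.map_map]
    refine NIL_D_list _ ?_ (by simpa using hl)
    intro M hM
    rw [List.mem_map] at hM
    obtain ⟨i, -, rfl⟩ := hM
    exact hχ i
  | zero => rw [map_zero]; exact NIL_D_zero
  | add x y _ _ hx hy => rw [map_add]; exact NIL_D_add hx hy
  | smul c x _ hx => rw [map_smul]; exact NIL_D_smul c hx

end Ev

/-! ### Block matrices -/

/-- the ring homomorphism of block matrices -/
def NIL_H {R S β : Type} [Ring R] [CommRing S] [Fintype β] [DecidableEq β] (p : ℕ)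
    (ρ : R →+* Matrix β β S) : Matrix (Fin p) (Fin p) R →+* Matrix (Fin p × β) (Fin p × β) S :=
  ((Matrix.compRingEquiv (Fin p) β S : _ ≃+* _) : _ →+* _).comp ρ.mapMatrix

theorem NIL_H_apply {R S β : Type} [Ring R] [CommRing S] [Fintype β] [DecidableEq β] (p : ℕ)
    (ρ : R →+* Matrix β β S) (M : Matrix (Fin p) (Fin p) R) (x y : Fin p × β) :
    NIL_H p ρ M x y = ρ (M x.1 y.1) x.2 y.2 := rfl

theorem t_NIL (hK : S_KL) (hD : S_DET) : S_NIL := by
  intro K _ n φ hφ p α Q hQ
  let inc : A K n →ₐ[K] R K n := Algebra.TensorProduct.includeLeft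
  have hinc : Function.Injective inc :=
    Algebra.TensorProduct.includeLeft_injective (S := K)
      (FaithfulSMul.algebraMap_injective K (A K n)ᵐᵒᵖ)
  let Cm : Matrix (Fin p) (Fin p) (R K n) := (inc : A K n →+* R K n).mapMatrix (Fm α (gx K n))
  have key : ∀ (E : Type) [Field E] [Algebra K E] (β : Type) [Fintype β] [DecidableEq β]
      (ρ : R K n →ₐ[K] Matrix β β E), ∃ k : ℕ, ∀ i j, ρ ((Cm ^ k) i j) = 0 := by
    intro E _ _ β _ _ ρ
    let Z : Fin n → Matrix β β E := fun j => ρ (inc (gx K n j))
    let Zt := NIL_H p (ρ : R K n →+* Matrix β β E) Cm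
    have hZt : ∀ x y, Zt x y = ∑ j, α j x.1 y.1 • Z j x.2 y.2 := by
      intro x y
      have h1 : Zt x y = ρ (inc (Fm α (gx K n) x.1 y.1)) x.2 y.2 := rfl
      rw [h1, Fm, map_sum, map_sum, Matrix.sum_apply]
      apply Finset.sum_congr rfl
      intro j _
      rw [map_smul, map_smul, Matrix.smul_apply]
    suffices h : ∃ k, Zt ^ k = 0 by
      obtain ⟨k, hk⟩ := h
      refine ⟨k, fun i j => ?_⟩
      have h2 : NIL_H p (ρ : R K n →+* Matrix β β E) (Cm ^ k) = 0 := by
        rw [map_pow]
        exact hk
      ext b c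
      exact congrFun (congrFun h2 (i, b)) (j, c)
    apply NIL_nilp
    apply hD
    intro m
    obtain ⟨θ, hθ⟩ := hφ.2 (m + 1)
    have he : ∀ a, eps K n (θ a) = eps K n a := by
      have h3 : (eps K n).comp (θ : A K n →ₐ[K] A K n) = eps K n := by
        apply FreeAlgebra.hom_ext
        funext i
        have h4 : eps K n (θ (gx K n i)) = 0 := by
          have h5 := NIL_eps_Im (hθ i)
          rw [map_sub, hφ.1 i, zero_sub, neg_eq_zero] at h5
          exact h5
        exact h4.trans (NIL_eps_gx i).symm
      intro a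
      exact congrArg (fun F : A K n →ₐ[K] K => F a) h3
    let χ : A K n →ₐ[K] Matrix β β (Polynomial E) :=
      (NIL_ev Z).comp (θ.symm : A K n →ₐ[K] A K n)
    have hχ : ∀ i, NIL_D 1 (χ (gx K n i)) := by
      intro i
      apply NIL_ev_D
      have h6 := he (θ.symm (gx K n i))
      rw [AlgEquiv.apply_symm_apply, NIL_eps_gx] at h6
      exact h6.symm
    have hf : ∀ j, NIL_D (m + 1) (χ (φ (gx K n j)) -
        (Polynomial.X : Polynomial E) • (Z j).map (fun z => Polynomial.C z)) := by
      intro j
      have h7 : χ (θ (gx K n j)) = (Polynomial.X : Polynomial E) •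
          (Z j).map (fun z => Polynomial.C z) := by
        have h8 : χ (θ (gx K n j)) = NIL_ev Z (θ.symm (θ (gx K n j))) := rfl
        rw [h8, AlgEquiv.symm_apply_apply]
        exact NIL_ev_gx Z j
      rw [← h7, ← map_sub]
      exact NIL_Im_D χ hχ (hθ j)
    refine ⟨NIL_H p (χ : A K n →+* Matrix β β (Polynomial E))
      (1 - Fm α (fun i => φ (gx K n i))), ?_, ?_⟩
    · have h9 : NIL_H p (χ : A K n →+* Matrix β β (Polynomial E))
          (1 - Fm α (fun i => φ (gx K n i))) *
          NIL_H p (χ : A K n →+* Matrix β β (Polynomial E)) Q = 1 := by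
        rw [← map_mul, hQ, map_one]
      exact ⟨⟨_, _, h9, mul_eq_one_comm.1 h9⟩, rfl⟩
    · intro x y k hk
      have h10 : NIL_H p (χ : A K n →+* Matrix β β (Polynomial E))
          (Fm α (fun i => φ (gx K n i))) x y = ∑ j, α j x.1 y.1 • χ (φ (gx K n j)) x.2 y.2 := by
        have h11 : NIL_H p (χ : A K n →+* Matrix β β (Polynomial E))
          (Fm α (fun i => φ (gx K n i))) x y = χ (Fm α (fun i => φ (gx K n i)) x.1 y.1) x.2 y.2 :=
          rfl
        rw [h11, Fm, map_sum, Matrix.sum_apply]
        apply Finset.sum_congr rfl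
        intro j _
        rw [map_smul, Matrix.smul_apply]
      have h12 : (Polynomial.X : Polynomial E) * Polynomial.C (Zt x y) =
          ∑ j, α j x.1 y.1 • ((Polynomial.X : Polynomial E) * Polynomial.C (Z j x.2 y.2)) := by
        rw [hZt, map_sum, Finset.mul_sum]
        apply Finset.sum_congr rfl
        intro j _
        rw [← Polynomial.smul_C, mul_smul_comm]
      have h13 : (Polynomial.X : Polynomial E) ^ (m + 1) ∣
          ((1 : Matrix (Fin p × β) (Fin p × β) (Polynomial E)) -
          (Polynomial.X : Polynomial E) • Zt.map (fun z => Polynomial.C z)) x y -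
          NIL_H p (χ : A K n →+* Matrix β β (Polynomial E))
            (1 - Fm α (fun i => φ (gx K n i))) x y := by
        have h14 : ((1 : Matrix (Fin p × β) (Fin p × β) (Polynomial E)) -
          (Polynomial.X : Polynomial E) • Zt.map (fun z => Polynomial.C z)) x y -
          NIL_H p (χ : A K n →+* Matrix β β (Polynomial E))
            (1 - Fm α (fun i => φ (gx K n i))) x y =
            ∑ j, α j x.1 y.1 • ((χ (φ (gx K n j)) -
              (Polynomial.X : Polynomial E) • (Z j).map (fun z => Polynomial.C z)) x.2 y.2) := by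
          rw [map_sub, map_one, Matrix.sub_apply, Matrix.sub_apply, h10, Matrix.smul_apply,
            Matrix.map_apply, smul_eq_mul, h12]
          rw [sub_sub_sub_cancel_left, ← Finset.sum_sub_distrib]
          apply Finset.sum_congr rfl
          intro j _
          rw [← smul_sub, Matrix.sub_apply, Matrix.smul_apply, Matrix.map_apply, smul_eq_mul]
        rw [h14]
        apply Finset.dvd_sum
        intro j _
        rw [Algebra.smul_def]
        exact Dvd.dvd.mul_left (hf j x.2 y.2) _
      rw [Polynomial.X_pow_dvd_iff] at h13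
      have h15 := h13 k (by omega)
      rw [Polynomial.coeff_sub, sub_eq_zero] at h15
      exact h15
  -- the key lemma
  have hCm : Cm ^ p = 0 := by
    ext i j
    have h16 := hK K n p Cm (Pi.single j 1) (by
      intro E _ _ β _ _ ρ
      obtain ⟨k, hk⟩ := key E β ρ
      refine ⟨k, fun i => ?_⟩
      rw [Matrix.mulVec_single_one]
      exact hk i j)
    have h17 := congrFun h16 i
    rw [Matrix.mulVec_single_one] at h17
    exact h17
  have h18 : (inc : A K n →+* R K n).mapMatrix ((Fm α (gx K n)) ^ p) = 0 := by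
    rw [map_pow]
    exact hCm
  ext i j
  have h19 : inc (((Fm α (gx K n)) ^ p) i j) = 0 := congrFun (congrFun h18 i) j
  rw [Matrix.zero_apply]
  exact hinc (h19.trans (map_zero inc).symm)

end

end Pool.Agent.R433.GE
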