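import Pool.Agent.R433.GE.Stm

/-!
# Project GE, piece RED
-/

set_option autoImplicit false

namespace Pool.Agent.R433.GE

open scoped TensorProduct BigOperators
open MulOpposite

noncomputable section

theorem RED_mono (K : Type) [Field K] (n m m' : ℕ) (h : m ≤ m') : Im K n m' ≤ Im K n m := by
  unfold Im
  apply Submodule.span_mono
  rintro a ⟨l, hl, rfl⟩
  exact ⟨l, h.trans hl, rfl⟩

theorem RED_gx_mul (K : Type) [Field K] (n m : ℕ) (i : Fin n) (a : A K n) (ha : a ∈ Im K n m) :
    gx K n i * a ∈ Im K n m := by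
  unfold Im at ha ⊢
  induction ha using Submodule.span_induction with
  | mem x hx =>
    obtain ⟨l, hl, rfl⟩ := hx
    refine Submodule.subset_span ⟨i :: l, ?_, ?_⟩
    · rw [List.length_cons]; omega
    · rw [List.map_cons, List.prod_cons]
  | zero => rw [mul_zero]; exact Submodule.zero_mem _
  | add x y _ _ hx hy => rw [mul_add]; exact Submodule.add_mem _ hx hy
  | smul c x _ hx => rw [mul_smul_comm]; exact Submodule.smul_mem _ _ hx

theorem RED_mul_gx (K : Type) [Field K] (n m : ℕ) (i : Fin n) (a : A K n) (ha : a ∈ Im K n m) :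
    a * gx K n i ∈ Im K n m := by
  unfold Im at ha ⊢
  induction ha using Submodule.span_induction with
  | mem x hx =>
    obtain ⟨l, hl, rfl⟩ := hx
    refine Submodule.subset_span ⟨l ++ [i], ?_, ?_⟩
    · rw [List.length_append]; omega
    · rw [List.map_append, List.prod_append]
      simp
  | zero => rw [zero_mul]; exact Submodule.zero_mem _
  | add x y _ _ hx hy => rw [add_mul]; exact Submodule.add_mem _ hx hy
  | smul c x _ hx => rw [smul_mul_assoc]; exact Submodule.smul_mem _ _ hx

theorem RED_mul_left (K : Type) [Field K] (n m : ℕ) (b : A K n) :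
    ∀ a ∈ Im K n m, b * a ∈ Im K n m := by
  induction b using FreeAlgebra.induction with
  | grade0 c =>
    intro a ha
    rw [← Algebra.smul_def]
    exact Submodule.smul_mem _ _ ha
  | grade1 i => exact fun a ha => RED_gx_mul K n m i a ha
  | mul x y hx hy =>
    intro a ha
    rw [mul_assoc]
    exact hx _ (hy _ ha)
  | add x y hx hy =>
    intro a ha
    rw [add_mul]
    exact Submodule.add_mem _ (hx _ ha) (hy _ ha)

theorem RED_mul_right (K : Type) [Field K] (n m : ℕ) (b : A K n) :
    ∀ a ∈ Im K n m, a * b ∈ Im K n m := by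
  induction b using FreeAlgebra.induction with
  | grade0 c =>
    intro a ha
    rw [← Algebra.commutes, ← Algebra.smul_def]
    exact Submodule.smul_mem _ _ ha
  | grade1 i => exact fun a ha => RED_mul_gx K n m i a ha
  | mul x y hx hy =>
    intro a ha
    rw [← mul_assoc]
    exact hy _ (hx _ ha)
  | add x y hx hy =>
    intro a ha
    rw [mul_add]
    exact Submodule.add_mem _ (hx _ ha) (hy _ ha)

theorem RED_sub (K : Type) [Field K] (n m : ℕ) (ψ : A K n →ₐ[K] A K n)
    (h : ∀ i, ψ (gx K n i) - gx K n i ∈ Im K n m) (a : A K n) : ψ a - a ∈ Im K n m := by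
  induction a using FreeAlgebra.induction with
  | grade0 c =>
    rw [AlgHom.commutes, sub_self]
    exact Submodule.zero_mem _
  | grade1 i => exact h i
  | mul x y hx hy =>
    have e : ψ (x * y) - x * y = (ψ x - x) * ψ y + x * (ψ y - y) := by
      rw [map_mul, sub_mul, mul_sub]
      abel
    rw [e]
    exact Submodule.add_mem _ (RED_mul_right K n m _ _ hx) (RED_mul_left K n m _ _ hy)
  | add x y hx hy =>
    have e : ψ (x + y) - (x + y) = (ψ x - x) + (ψ y - y) := by
      rw [map_add]
      abel
    rw [e]
    exact Submodule.add_mem _ hx hy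

/-- the translation -/
def RED_tau (K : Type) [Field K] (n : ℕ) (c : Fin n → K) : A K n ≃ₐ[K] A K n :=
  AlgEquiv.ofAlgHom
    (FreeAlgebra.lift K (fun i => gx K n i - algebraMap K (A K n) (c i)))
    (FreeAlgebra.lift K (fun i => gx K n i + algebraMap K (A K n) (c i)))
    (by
      apply FreeAlgebra.hom_ext
      funext i
      simp [gx])
    (by
      apply FreeAlgebra.hom_ext
      funext i
      simp [gx])

theorem RED_tau_gx (K : Type) [Field K] (n : ℕ) (c : Fin n → K) (i : Fin n) :
    RED_tau K n c (gx K n i) = gx K n i - algebraMap K (A K n) (c i) := by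
  simp [RED_tau, gx]

theorem t_RED : S_RED := by
  intro K _ n hL φ hG
  set c : Fin n → K := fun i => eps K n (φ (gx K n i)) with hc
  set τ := RED_tau K n c with hτ
  have hlim : Lim (φ.comp (τ : A K n →ₐ[K] A K n)) := by
    refine ⟨fun i => ?_, fun m => ?_⟩
    · have e : (φ.comp (τ : A K n →ₐ[K] A K n)) (gx K n i) =
          φ (gx K n i) - algebraMap K (A K n) (c i) := by
        rw [AlgHom.comp_apply]
        change φ (τ (gx K n i)) = _
        rw [hτ, RED_tau_gx, map_sub, AlgHom.commutes]
      rw [e, map_sub, AlgHom.commutes]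
      simp [hc]
    · obtain ⟨ψ, θ, hψ, hI⟩ := hG (m + 1) (by omega)
      refine ⟨τ.trans θ, fun i => ?_⟩
      have e : (φ.comp (τ : A K n →ₐ[K] A K n)) (gx K n i) = ψ (θ (τ (gx K n i))) := by
        rw [hψ]
        rfl
      have e2 : (τ.trans θ) (gx K n i) = θ (τ (gx K n i)) := rfl
      rw [e, e2]
      exact RED_mono K n m (m + 1) (Nat.le_succ m) (RED_sub K n (m + 1) ψ hI _)
  have hb := hL _ hlim
  have hb' : Function.Bijective (φ ∘ τ) := hb
  exact (Function.Bijective.of_comp_iff φ τ.bijective).mp hb'

end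

end Pool.Agent.R433.GE
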