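import Pool.Agent.R433.GE.Stm

/-! Piece REP. -/

set_option autoImplicit false

namespace Pool.Agent.R433.GE

open scoped TensorProduct BigOperators
open MulOpposite

theorem t_REP (hF : S_FLD) (hH : S_HOM) (hR : S_RK) (hS : S_SEP) : S_REP := by
  intro K _ n z hz
  obtain ⟨N0, hN0⟩ := hS K n z hz
  have hN : NeZero (N0 + 1) := ⟨Nat.succ_ne_zero _⟩
  have hM : NeZero (N0 + 2) := ⟨Nat.succ_ne_zero _⟩
  obtain ⟨E, hE, hA, t, S, v, σ, ht, hS0, hvS, hv, hσ⟩ :=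
    hF K ((Fin n × ZMod (N0 + 1)) ⊕ (Fin n × ZMod (N0 + 2)))
  obtain ⟨ρ, hρ1, hρ2⟩ := hH.1 K n
    (Matrix (ZMod (N0 + 1) × ZMod (N0 + 2)) (ZMod (N0 + 1) × ZMod (N0 + 2)) E) (Xm t S) (Ym t S)
    (fun i j => hH.2 E n (N0 + 1) (N0 + 2) t S i j)
  refine ⟨E, hE, hA, ZMod (N0 + 1) × ZMod (N0 + 2), inferInstance, inferInstance, ρ, ?_, ?_⟩
  · exact hN0 E (N0 + 1) (N0 + 2) (by omega) (by omega) t S ht ρ hρ1 hρ2
  · intro m C
    have hcop : Nat.Coprime (N0 + 1) (N0 + 2) :=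
      (Nat.coprime_self_add_right (m := N0 + 1) (n := 1)).2 (Nat.coprime_one_right _)
    have h := hR K E n (N0 + 1) (N0 + 2) hcop t S v σ hS0 hvS hv hσ ρ hρ1 hρ2 m C
    rw [Fintype.card_prod, ZMod.card, ZMod.card]
    exact h

end Pool.Agent.R433.GE
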