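import Pool.Agent.R433.GE.Stm

/-! Project GE, piece RK (helper452): the rank is divisible by `N * M` -/

set_option autoImplicit false

namespace Pool.Agent.R433.GE

open scoped TensorProduct BigOperators
open MulOpposite

noncomputable section

section RKabs

variable {K E : Type} [Field K] [Field E] [Algebra K E] {β : Type} [Fintype β] [DecidableEq β]

/-- twisted shift -/
def RK_T (s : E →ₐ[K] E) (τ : β → β) (w : β → E) : (β → E) →+ (β → E) where
  toFun y := fun p => s (y (τ p)) * w p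
  map_zero' := by
    funext p
    simp
  map_add' y z := by
    funext p
    simp only [Pi.add_apply, map_add, add_mul]

lemma RK_T_apply (s : E →ₐ[K] E) (τ : β → β) (w : β → E) (y : β → E) (p : β) :
    RK_T s τ w y p = s (y (τ p)) * w p := rfl

lemma RK_T_smul (s : E →ₐ[K] E) (τ : β → β) (w : β → E) (c : E) (y : β → E) :
    RK_T s τ w (c • y) = s c • RK_T s τ w y := by
  funext p
  simp only [RK_T_apply, Pi.smul_apply, smul_eq_mul, map_mul]
  ring

/-- matrices commuting with the twisted shift -/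
def RK_C (s : E →ₐ[K] E) (τ : β → β) (w : β → E) : Subalgebra K (Matrix β β E) where
  carrier := {B | ∀ y, RK_T s τ w (B.mulVec y) = B.mulVec (RK_T s τ w y)}
  mul_mem' := by
    intro B B' hB hB' y
    rw [← Matrix.mulVec_mulVec, hB, hB', Matrix.mulVec_mulVec]
  add_mem' := by
    intro B B' hB hB' y
    rw [Matrix.add_mulVec, map_add, hB, hB', Matrix.add_mulVec]
  algebraMap_mem' := by
    intro c y
    have h : ∀ z : β → E, (algebraMap K (Matrix β β E) c).mulVec z = (algebraMap K E c) • z := by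
      intro z
      funext p
      rw [Algebra.algebraMap_eq_smul_one, Matrix.smul_mulVec, Matrix.one_mulVec]
      simp [Algebra.smul_def]
    rw [h, h, RK_T_smul, AlgHom.commutes]

lemma RK_all {n : ℕ} (Q : Subalgebra K (R K n)) (hX : ∀ i, gx K n i ⊗ₜ[K] 1 ∈ Q)
    (hY : ∀ i, (1 : A K n) ⊗ₜ[K] op (gx K n i) ∈ Q) (r : R K n) : r ∈ Q := by
  have h0 : (1 : A K n) ⊗ₜ[K] (1 : (A K n)ᵐᵒᵖ) ∈ Q := Q.one_mem
  have h1 : ∀ a : A K n, a ⊗ₜ[K] (1 : (A K n)ᵐᵒᵖ) ∈ Q := by
    intro a
    induction a using FreeAlgebra.induction with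
    | grade0 c =>
      rw [Algebra.algebraMap_eq_smul_one, ← TensorProduct.smul_tmul']
      exact Q.smul_mem h0 c
    | grade1 i => exact hX i
    | mul a b ha hb =>
      have h : (a * b) ⊗ₜ[K] (1 : (A K n)ᵐᵒᵖ) = (a ⊗ₜ[K] 1) * (b ⊗ₜ[K] 1) := by
        rw [Algebra.TensorProduct.tmul_mul_tmul, one_mul]
      rw [h]
      exact Q.mul_mem ha hb
    | add a b ha hb =>
      rw [TensorProduct.add_tmul]
      exact Q.add_mem ha hb
  have h2 : ∀ a : A K n, (1 : A K n) ⊗ₜ[K] op a ∈ Q := by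
    intro a
    induction a using FreeAlgebra.induction with
    | grade0 c =>
      rw [Algebra.algebraMap_eq_smul_one, op_smul, TensorProduct.tmul_smul]
      exact Q.smul_mem h0 c
    | grade1 i => exact hY i
    | mul a b ha hb =>
      have h : (1 : A K n) ⊗ₜ[K] op (a * b) = ((1 : A K n) ⊗ₜ[K] op b) * (1 ⊗ₜ[K] op a) := by
        rw [Algebra.TensorProduct.tmul_mul_tmul, one_mul, op_mul]
      rw [h]
      exact Q.mul_mem hb ha
    | add a b ha hb =>
      rw [op_add, TensorProduct.tmul_add]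
      exact Q.add_mem ha hb
  induction r using TensorProduct.induction_on with
  | zero => exact Q.zero_mem
  | tmul a b =>
    have h : a ⊗ₜ[K] b = (a ⊗ₜ[K] 1) * ((1 : A K n) ⊗ₜ[K] op (unop b)) := by
      rw [Algebra.TensorProduct.tmul_mul_tmul, mul_one, one_mul, op_unop]
    rw [h]
    exact Q.mul_mem (h1 a) (h2 (unop b))
  | add x y hx hy => exact Q.add_mem hx hy

/-- the twisted shift on the big space -/
def RK_TT (s : E →ₐ[K] E) (τ : β → β) (w : β → E) {m : ℕ} (x : Fin m × β → E) : Fin m × β → E :=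
  fun q => RK_T s τ w (fun p => x (q.1, p)) q.2

lemma RK_TT_it (s : E →ₐ[K] E) (τ : β → β) (w : β → E) {m : ℕ} (r : ℕ) (x : Fin m × β → E)
    (q : Fin m × β) :
    (RK_TT s τ w)^[r] x q = (RK_T s τ w)^[r] (fun p => x (q.1, p)) q.2 := by
  induction r generalizing q with
  | zero => rfl
  | succ r ih =>
    rw [Function.iterate_succ_apply', Function.iterate_succ_apply']
    show RK_T s τ w (fun p => (RK_TT s τ w)^[r] x (q.1, p)) q.2 = _
    have h : (fun p => (RK_TT s τ w)^[r] x (q.1, p)) =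
        (RK_T s τ w)^[r] (fun p => x (q.1, p)) := by
      funext p
      exact ih (q.1, p)
    rw [h]

lemma RK_mv {n m : ℕ} (ρ : R K n →ₐ[K] Matrix β β E) (C : Matrix (Fin m) (Fin m) (R K n))
    (x : Fin m × β → E) (a : Fin m) :
    (fun p => (big ρ C).mulVec x (a, p)) = ∑ b, (ρ (C a b)).mulVec (fun p => x (b, p)) := by
  funext p
  rw [Finset.sum_apply]
  simp only [Matrix.mulVec, dotProduct, big, Fintype.sum_prod_type]

lemma RK_big {n m : ℕ} (s : E →ₐ[K] E) (τ : β → β) (w : β → E) (ρ : R K n →ₐ[K] Matrix β β E)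
    (hall : ∀ r, ρ r ∈ RK_C s τ w) (C : Matrix (Fin m) (Fin m) (R K n)) (x : Fin m × β → E) :
    RK_TT s τ w ((big ρ C).mulVec x) = (big ρ C).mulVec (RK_TT s τ w x) := by
  funext q
  obtain ⟨a, p⟩ := q
  have h1 := congrFun (RK_mv ρ C (RK_TT s τ w x) a) p
  rw [h1]
  show RK_T s τ w (fun p => (big ρ C).mulVec x (a, p)) p = _
  rw [RK_mv, map_sum]
  refine congrFun (Finset.sum_congr rfl fun b _ => ?_) p
  exact hall (C a b) _

lemma RK_key (hDIV : S_DIV) {n : ℕ} (s : E →ₐ[K] E) (τ : β → β) (w : β → E) (v : E → ℤ) (N : ℕ)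
    (S : E) (hTN : ∀ y, (RK_T s τ w)^[N] y = S • y)
    (hv : ∀ x y, x ≠ 0 → y ≠ 0 → v (x * y) = v x + v y) (hvs : ∀ x, x ≠ 0 → v (s x) = v x)
    (hS : S ≠ 0) (hsS : s S = S) (hvS : v S = 1) (ρ : R K n →ₐ[K] Matrix β β E)
    (hX : ∀ i, ρ (gx K n i ⊗ₜ[K] 1) ∈ RK_C s τ w)
    (hY : ∀ i, ρ ((1 : A K n) ⊗ₜ[K] op (gx K n i)) ∈ RK_C s τ w)
    (m : ℕ) (C : Matrix (Fin m) (Fin m) (R K n)) : N ∣ (big ρ C).rank := by
  have hall : ∀ r, ρ r ∈ RK_C s τ w := fun r => RK_all ((RK_C s τ w).comap ρ) hX hY r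
  have hV : ∀ x ∈ LinearMap.range (big ρ C).mulVecLin,
      RK_TT s τ w x ∈ LinearMap.range (big ρ C).mulVecLin := by
    rintro _ ⟨y, rfl⟩
    exact ⟨RK_TT s τ w y, (RK_big s τ w ρ hall C y).symm⟩
  let T : LinearMap.range (big ρ C).mulVecLin →+ LinearMap.range (big ρ C).mulVecLin :=
    { toFun := fun x => ⟨RK_TT s τ w x.1, hV x.1 x.2⟩
      map_zero' := by
        apply Subtype.ext
        funext q
        exact congrFun (map_zero (RK_T s τ w)) q.2
      map_add' := fun x y => by
        apply Subtype.ext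
        funext q
        exact congrFun (map_add (RK_T s τ w) (fun p => x.1 (q.1, p)) (fun p => y.1 (q.1, p))) q.2 }
  have hT : ∀ (r : ℕ) (x : LinearMap.range (big ρ C).mulVecLin),
      ((T^[r] x : LinearMap.range (big ρ C).mulVecLin) : Fin m × β → E) =
        (RK_TT s τ w)^[r] x.1 := by
    intro r x
    induction r with
    | zero => rfl
    | succ r ih =>
      rw [Function.iterate_succ_apply', Function.iterate_succ_apply', ← ih]
      rfl
  have hdiv := hDIV E (LinearMap.range (big ρ C).mulVecLin) s.toRingHom v N S T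
    (fun c x => by
      apply Subtype.ext
      funext q
      exact congrFun (RK_T_smul s τ w c (fun p => x.1 (q.1, p))) q.2)
    (fun x => by
      apply Subtype.ext
      rw [hT]
      funext q
      rw [RK_TT_it, hTN]
      rfl)
    hv hvs hS hsS hvS
  exact hdiv

/-- going around the cycle once -/
lemma RK_cyc (s : E →ₐ[K] E) (τ : β → β) (w : β → E) (N : ℕ) [NeZero N] (S : E) (c : β → ZMod N)
    (hτ : ∀ p, τ^[N] p = p) (hc : ∀ p, c (τ p) = c p - 1)
    (hw : ∀ p, w p = if c p = 0 then S else 1) (hs : s S = S) (hsN : ∀ e, s^[N] e = e)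
    (y : β → E) : (RK_T s τ w)^[N] y = S • y := by
  have hsw : ∀ z : ZMod N, s (if z = 0 then S else 1) = if z = 0 then S else 1 := by
    intro z
    split_ifs
    · exact hs
    · exact map_one s
  have key : ∀ (r : ℕ) (p : β), (RK_T s τ w)^[r] y p = s^[r] (y (τ^[r] p)) *
      ∏ l ∈ Finset.range r, (if c p - (l : ZMod N) = 0 then S else 1) := by
    intro r
    induction r with
    | zero =>
      intro p
      simp
    | succ r ih =>
      intro p
      rw [Function.iterate_succ_apply', RK_T_apply, ih, map_mul, map_prod, hw,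
        Finset.prod_range_succ', Function.iterate_succ_apply' (f := s),
        Function.iterate_succ_apply (f := τ), mul_assoc]
      congr 1
      rw [Nat.cast_zero, sub_zero]
      congr 1
      refine Finset.prod_congr rfl fun l _ => ?_
      rw [hsw, hc]
      have h : c p - 1 - (l : ZMod N) = c p - ((l + 1 : ℕ) : ZMod N) := by
        push_cast
        ring
      rw [h]
  funext p
  rw [key, hτ, hsN]
  have hprod : ∏ l ∈ Finset.range N, (if c p - (l : ZMod N) = 0 then S else 1) = S := by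
    rw [Finset.prod_eq_single (c p).val]
    · rw [ZMod.natCast_zmod_val, sub_self, if_pos rfl]
    · intro l hl hne
      rw [if_neg]
      intro h
      apply hne
      rw [sub_eq_zero.1 h, ZMod.val_natCast_of_lt (Finset.mem_range.1 hl)]
    · intro h
      exact absurd (Finset.mem_range.2 (ZMod.val_lt _)) h
  rw [hprod, Pi.smul_apply, smul_eq_mul, mul_comm]

end RKabs

lemma RK_Xmv {E : Type} [Field E] {n N M : ℕ} [NeZero N] [NeZero M]
    (t : (Fin n × ZMod N) ⊕ (Fin n × ZMod M) → E) (S : E) (j : Fin n)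
    (y : ZMod N × ZMod M → E) (p : ZMod N × ZMod M) : (Xm t S j).mulVec y p =
      t (Sum.inl (j, p.1 - 1)) * (if p.1 = 0 then S else 1) * y (p.1 - 1, p.2) := by
  simp only [Matrix.mulVec, dotProduct, Xm]
  rw [Finset.sum_eq_single (p.1 - 1, p.2)]
  · rw [if_pos ⟨by simp, rfl⟩]
  · intro q _ hq
    rw [if_neg, zero_mul]
    rintro ⟨h1, h2⟩
    apply hq
    rw [h1, h2, add_sub_cancel_right]
  · intro h
    exact absurd (Finset.mem_univ _) h

lemma RK_Ymv {E : Type} [Field E] {n N M : ℕ} [NeZero N] [NeZero M]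
    (t : (Fin n × ZMod N) ⊕ (Fin n × ZMod M) → E) (S : E) (j : Fin n)
    (y : ZMod N × ZMod M → E) (p : ZMod N × ZMod M) : (Ym t S j).mulVec y p =
      t (Sum.inr (j, p.2 - 1)) * (if p.2 = 0 then S else 1) * y (p.1, p.2 - 1) := by
  simp only [Matrix.mulVec, dotProduct, Ym]
  rw [Finset.sum_eq_single (p.1, p.2 - 1)]
  · rw [if_pos ⟨rfl, by simp⟩]
  · intro q _ hq
    rw [if_neg, zero_mul]
    rintro ⟨h1, h2⟩
    apply hq
    rw [h1, h2, add_sub_cancel_right]
  · intro h
    exact absurd (Finset.mem_univ _) h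

/-- the two permutations -/
def RK_p1 (n N M : ℕ) : Equiv.Perm ((Fin n × ZMod N) ⊕ (Fin n × ZMod M)) :=
  Equiv.sumCongr (Equiv.prodCongr (Equiv.refl _) (Equiv.addRight 1)) (Equiv.refl _)

def RK_p2 (n N M : ℕ) : Equiv.Perm ((Fin n × ZMod N) ⊕ (Fin n × ZMod M)) :=
  Equiv.sumCongr (Equiv.refl _) (Equiv.prodCongr (Equiv.refl _) (Equiv.addRight 1))

lemma RK_p1_pow (n N M : ℕ) (r : ℕ) (z : (Fin n × ZMod N) ⊕ (Fin n × ZMod M)) :
    (RK_p1 n N M ^ r) z = Sum.map (fun q => (q.1, q.2 + (r : ZMod N))) id z := by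
  induction r with
  | zero => rcases z with ⟨j, i⟩ | z <;> simp
  | succ r ih =>
    rw [pow_succ', Equiv.Perm.mul_apply, ih]
    rcases z with ⟨j, i⟩ | z
    · simp [RK_p1, add_assoc]
    · simp [RK_p1]

lemma RK_p2_pow (n N M : ℕ) (r : ℕ) (z : (Fin n × ZMod N) ⊕ (Fin n × ZMod M)) :
    (RK_p2 n N M ^ r) z = Sum.map id (fun q => (q.1, q.2 + (r : ZMod M))) z := by
  induction r with
  | zero => rcases z with z | ⟨j, i⟩ <;> simp
  | succ r ih =>
    rw [pow_succ', Equiv.Perm.mul_apply, ih]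
    rcases z with z | ⟨j, i⟩
    · simp [RK_p2]
    · simp [RK_p2, add_assoc]

lemma RK_p1_N (n N M : ℕ) : RK_p1 n N M ^ N = 1 := by
  ext z
  rw [RK_p1_pow]
  rcases z with ⟨j, i⟩ | z <;> simp

lemma RK_p2_M (n N M : ℕ) : RK_p2 n N M ^ M = 1 := by
  ext z
  rw [RK_p2_pow]
  rcases z with z | ⟨j, i⟩ <;> simp

lemma RK_it {K E ι : Type} [Field K] [Field E] [Algebra K E]
    (σ : Equiv.Perm ι →* (E →ₐ[K] E)) (π : Equiv.Perm ι) (r : ℕ) (e : E) :
    (σ π)^[r] e = σ (π ^ r) e := by
  induction r generalizing e with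
  | zero => simp
  | succ r ih =>
    rw [Function.iterate_succ_apply, ih, pow_succ, map_mul]
    rfl

theorem t_RK (h : S_DIV) : S_RK := by
  intro K E _ _ _ n N M _ _ hNM t S v σ hS hvS hv hσ ρ hX hY m C
  have ht1 : ∀ j i, σ (RK_p1 n N M) (t (Sum.inl (j, i))) = t (Sum.inl (j, i + 1)) := by
    intro j i
    rw [(hσ (RK_p1 n N M)).2.1]
    rfl
  have ht1' : ∀ z, σ (RK_p1 n N M) (t (Sum.inr z)) = t (Sum.inr z) := by
    intro z
    rw [(hσ (RK_p1 n N M)).2.1]
    rfl
  have ht2 : ∀ j i, σ (RK_p2 n N M) (t (Sum.inr (j, i))) = t (Sum.inr (j, i + 1)) := by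
    intro j i
    rw [(hσ (RK_p2 n N M)).2.1]
    rfl
  have ht2' : ∀ z, σ (RK_p2 n N M) (t (Sum.inl z)) = t (Sum.inl z) := by
    intro z
    rw [(hσ (RK_p2 n N M)).2.1]
    rfl
  have hif : ∀ (π : Equiv.Perm ((Fin n × ZMod N) ⊕ (Fin n × ZMod M))) (q : Prop) [Decidable q],
      σ π (if q then S else 1) = if q then S else 1 := by
    intro π q _
    split_ifs
    · exact (hσ π).1
    · exact map_one _
  refine Nat.Coprime.mul_dvd_of_dvd_of_dvd hNM ?_ ?_
  · refine RK_key h (σ (RK_p1 n N M)) (fun p : ZMod N × ZMod M => (p.1 - 1, p.2))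
      (fun p => if p.1 = 0 then S else 1) v N S ?_ hv (hσ _).2.2 hS (hσ _).1 hvS ρ ?_ ?_ m C
    · refine RK_cyc _ _ _ N S Prod.fst ?_ (fun p => rfl) (fun p => rfl) (hσ _).1 ?_
      · intro p
        have hit : ∀ r : ℕ, (fun p : ZMod N × ZMod M => (p.1 - 1, p.2))^[r] p =
            (p.1 - (r : ZMod N), p.2) := by
          intro r
          induction r with
          | zero => simp
          | succ r ih =>
            rw [Function.iterate_succ_apply', ih]
            simp [sub_sub]
        rw [hit]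
        simp
      · intro e
        rw [RK_it, RK_p1_N, map_one]
        rfl
    · intro i
      rw [hX]
      intro y
      funext p
      rw [RK_T_apply, RK_Xmv, RK_Xmv, RK_T_apply, map_mul, map_mul, ht1, hif]
      simp only [sub_add_cancel]
      ring
    · intro i
      rw [hY]
      intro y
      funext p
      rw [RK_T_apply, RK_Ymv, RK_Ymv, RK_T_apply, map_mul, map_mul, ht1', hif]
      ring
  · refine RK_key h (σ (RK_p2 n N M)) (fun p : ZMod N × ZMod M => (p.1, p.2 - 1))
      (fun p => if p.2 = 0 then S else 1) v M S ?_ hv (hσ _).2.2 hS (hσ _).1 hvS ρ ?_ ?_ m C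
    · refine RK_cyc _ _ _ M S Prod.snd ?_ (fun p => rfl) (fun p => rfl) (hσ _).1 ?_
      · intro p
        have hit : ∀ r : ℕ, (fun p : ZMod N × ZMod M => (p.1, p.2 - 1))^[r] p =
            (p.1, p.2 - (r : ZMod M)) := by
          intro r
          induction r with
          | zero => simp
          | succ r ih =>
            rw [Function.iterate_succ_apply', ih]
            simp [sub_sub]
        rw [hit]
        simp
      · intro e
        rw [RK_it, RK_p2_M, map_one]
        rfl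
    · intro i
      rw [hX]
      intro y
      funext p
      rw [RK_T_apply, RK_Xmv, RK_Xmv, RK_T_apply, map_mul, map_mul, ht2', hif]
      ring
    · intro i
      rw [hY]
      intro y
      funext p
      rw [RK_T_apply, RK_Ymv, RK_Ymv, RK_T_apply, map_mul, map_mul, ht2, hif]
      simp only [sub_add_cancel]
      ring

end

end Pool.Agent.R433.GE
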