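import Pool.Agent.R433.GE.Stm

/-!
# Piece SEP: the shift representations separate the elements of `A ⊗ Aᵐᵒᵖ`
-/

set_option autoImplicit false

namespace Pool.Agent.R433.GE

open scoped TensorProduct BigOperators
open MulOpposite

noncomputable section

/-- weight of a word read from position `s` -/
def SEP_wt {α B : Type} [CommSemiring B] (τ : α → ℕ → B) : List α → ℕ → B
  | [], _ => 1
  | j :: r, s => τ j s * SEP_wt τ r (s + 1)

theorem SEP_wt_map {α B C : Type} [CommSemiring B] [CommSemiring C] (f : B →+* C)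
    (τ : α → ℕ → B) : ∀ (r : List α) (s : ℕ),
    f (SEP_wt τ r s) = SEP_wt (fun j s => f (τ j s)) r s
  | [], s => by simp [SEP_wt]
  | j :: r, s => by
    simp only [SEP_wt, map_mul]
    rw [SEP_wt_map f τ r (s + 1)]

theorem SEP_wt_eval {α B : Type} [DecidableEq α] [CommSemiring B] (τ : α → ℕ → B) (l : List α)
    (N : ℕ) (h : ∀ j s, s < N → τ j s = if l[s]? = some j then 1 else 0) :
    ∀ (r : List α) (s : ℕ), s + r.length ≤ N →
      SEP_wt τ r s = if r <+: l.drop s then 1 else 0
  | [], s, _ => by simp [SEP_wt]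
  | j :: r, s, hs => by
    rw [List.length_cons] at hs
    have ih := SEP_wt_eval τ l N h r (s + 1) (by omega)
    rw [SEP_wt, ih, h j s (by omega)]
    by_cases hsl : s < l.length
    · have e0 : (j :: r <+: l.drop s) ↔ (j = l[s] ∧ r <+: l.drop (s + 1)) := by
        rw [List.drop_eq_getElem_cons hsl, List.cons_prefix_cons]
      simp only [e0, List.getElem?_eq_getElem hsl, Option.some.injEq]
      by_cases h1 : l[s] = j
      · by_cases h2 : r <+: l.drop (s + 1)
        · simp [h1, h2]
        · simp [h2]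
      · have h1' : ¬ j = l[s] := fun h => h1 h.symm
        simp [h1, h1']
    · have h1 : l.drop s = [] := List.drop_eq_nil_of_le (by omega)
      have h2 : l[s]? = none := List.getElem?_eq_none (by omega)
      rw [h1, h2]
      simp

theorem SEP_word {α β E : Type} [CommRing E] [Fintype β] [DecidableEq β]
    (W : List α → Matrix β β E) (G : α → Matrix β β E) (h0 : W [] = 1)
    (hW : ∀ j r, W (j :: r) = W r * G j) (pos : ℕ → β) (τ : α → ℕ → E) (N : ℕ)
    (hG : ∀ j s c, s + 1 < N → (G j).mulVec (Pi.single (pos s) c) =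
      Pi.single (pos (s + 1)) (c * τ j s)) :
    ∀ (r : List α) (s : ℕ) (c : E), s + r.length < N →
      (W r).mulVec (Pi.single (pos s) c) = Pi.single (pos (s + r.length)) (c * SEP_wt τ r s)
  | [], s, c, _ => by
    rw [h0, Matrix.one_mulVec]
    simp [SEP_wt]
  | j :: r, s, c, hs => by
    rw [List.length_cons] at hs
    rw [hW, ← Matrix.mulVec_mulVec, hG j s c (by omega),
      SEP_word W G h0 hW pos τ N hG r (s + 1) _ (by omega), SEP_wt, List.length_cons]
    congr 1
    · congr 1
      omega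
    · rw [mul_assoc]

/-- the monomial of a word -/
def SEP_w (K : Type) [Field K] (n : ℕ) (u : List (Fin n)) : A K n := (u.map (gx K n)).prod

theorem SEP_basis (K : Type) [Field K] (n : ℕ) (u : FreeMonoid (Fin n)) :
    FreeAlgebra.basisFreeMonoid K (Fin n) u = SEP_w K n u.toList := by
  have h1 : FreeAlgebra.basisFreeMonoid K (Fin n) u =
      FreeAlgebra.equivMonoidAlgebraFreeMonoid.symm (MonoidAlgebra.of K (FreeMonoid (Fin n)) u) := by
    simp [FreeAlgebra.basisFreeMonoid]
  rw [h1]
  simp [FreeAlgebra.equivMonoidAlgebraFreeMonoid, SEP_w, FreeMonoid.lift_apply]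
  rfl

theorem SEP_cast {N i k : ℕ} (hi : i < N) (hk : k < N) (h : (i : ZMod N) = (k : ZMod N)) :
    i = k := by
  rw [ZMod.natCast_eq_natCast_iff'] at h
  rwa [Nat.mod_eq_of_lt hi, Nat.mod_eq_of_lt hk] at h

theorem SEP_cast_ne {N s : ℕ} (h : s + 1 < N) : ((s : ZMod N) + 1) ≠ 0 := by
  intro h0
  have h1 : ((s + 1 : ℕ) : ZMod N) = ((0 : ℕ) : ZMod N) := by
    push_cast
    exact h0
  have := SEP_cast h (by omega) h1
  omega

theorem SEP_X {E : Type} [Field E] {n N M : ℕ} [NeZero N] [NeZero M]
    (t : (Fin n × ZMod N) ⊕ (Fin n × ZMod M) → E) (S : E) (b : ZMod M) (j : Fin n) (s : ℕ) (c : E)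
    (hs : s + 1 < N) :
    (Xm t S j).mulVec (Pi.single ((s : ZMod N), b) c) =
      Pi.single (((s + 1 : ℕ) : ZMod N), b) (c * t (Sum.inl (j, (s : ZMod N)))) := by
  have hne := SEP_cast_ne hs
  ext ⟨a', b'⟩
  rw [Matrix.mulVec_single]
  simp only [Xm, Pi.smul_apply, MulOpposite.smul_eq_mul_unop, MulOpposite.unop_op,
    Matrix.col_apply]
  by_cases h : a' = (s : ZMod N) + 1 ∧ b' = b
  · obtain ⟨rfl, rfl⟩ := h
    have e : (((s + 1 : ℕ) : ZMod N), b') = ((s : ZMod N) + 1, b') := by
      push_cast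
      rfl
    rw [e]
    simp [hne, mul_comm]
  · rw [if_neg h, zero_mul, Pi.single_eq_of_ne]
    intro h'
    apply h
    rw [Prod.mk.injEq] at h'
    refine ⟨?_, h'.2⟩
    rw [h'.1]
    push_cast
    rfl

theorem SEP_Y {E : Type} [Field E] {n N M : ℕ} [NeZero N] [NeZero M]
    (t : (Fin n × ZMod N) ⊕ (Fin n × ZMod M) → E) (S : E) (a : ZMod N) (j : Fin n) (s : ℕ) (c : E)
    (hs : s + 1 < M) :
    (Ym t S j).mulVec (Pi.single (a, (s : ZMod M)) c) =
      Pi.single (a, ((s + 1 : ℕ) : ZMod M)) (c * t (Sum.inr (j, (s : ZMod M)))) := by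
  have hne := SEP_cast_ne hs
  ext ⟨a', b'⟩
  rw [Matrix.mulVec_single]
  simp only [Ym, Pi.smul_apply, MulOpposite.smul_eq_mul_unop, MulOpposite.unop_op,
    Matrix.col_apply]
  by_cases h : a' = a ∧ b' = (s : ZMod M) + 1
  · obtain ⟨rfl, rfl⟩ := h
    have e : (a', ((s + 1 : ℕ) : ZMod M)) = (a', (s : ZMod M) + 1) := by
      push_cast
      rfl
    rw [e]
    simp [hne, mul_comm]
  · rw [if_neg h, zero_mul, Pi.single_eq_of_ne]
    intro h'
    apply h
    rw [Prod.mk.injEq] at h'
    refine ⟨h'.1, ?_⟩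
    rw [h'.2]
    push_cast
    rfl

section
variable {K : Type} [Field K] {n : ℕ} {E : Type} [Field E] [Algebra K E] {N M : ℕ} [NeZero N]
  [NeZero M]
  (t : (Fin n × ZMod N) ⊕ (Fin n × ZMod M) → E) (S : E)
  (ρ : R K n →ₐ[K] Matrix (ZMod N × ZMod M) (ZMod N × ZMod M) E)

theorem SEP_mono (hX : ∀ i, ρ (gx K n i ⊗ₜ[K] 1) = Xm t S i)
    (hY : ∀ i, ρ ((1 : A K n) ⊗ₜ[K] op (gx K n i)) = Ym t S i) (u v : List (Fin n))
    (hu : u.length < N) (hv : v.length < M) :
    (ρ (SEP_w K n u ⊗ₜ[K] op (SEP_w K n v))).mulVec (Pi.single (0, 0) 1) =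
      Pi.single ((u.length : ZMod N), (v.length : ZMod M))
        (SEP_wt (fun j s => t (Sum.inr (j, (s : ZMod M)))) v 0 *
          SEP_wt (fun j s => t (Sum.inl (j, (s : ZMod N)))) u.reverse 0) := by
  have e0 : (SEP_w K n u ⊗ₜ[K] op (SEP_w K n v) : R K n) =
      (SEP_w K n u ⊗ₜ[K] 1) * ((1 : A K n) ⊗ₜ[K] op (SEP_w K n v)) := by
    rw [Algebra.TensorProduct.tmul_mul_tmul, mul_one, one_mul]
  have hYw := SEP_word (E := E) (fun r : List (Fin n) => ρ ((1 : A K n) ⊗ₜ[K] op (SEP_w K n r)))
    (Ym t S) (by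
      simp only [SEP_w, List.map_nil, List.prod_nil, op_one]
      rw [← Algebra.TensorProduct.one_def, map_one])
    (fun j r => by
      simp only [SEP_w, List.map_cons, List.prod_cons, op_mul]
      rw [← hY, ← map_mul, Algebra.TensorProduct.tmul_mul_tmul, one_mul])
    (fun s : ℕ => ((0 : ZMod N), (s : ZMod M))) (fun j s => t (Sum.inr (j, (s : ZMod M)))) M
    (fun j s c hs => SEP_Y t S 0 j s c hs) v 0 1 (by omega)
  have hXw := SEP_word (E := E) (fun r : List (Fin n) => ρ (SEP_w K n r.reverse ⊗ₜ[K] 1))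
    (Xm t S) (by
      simp only [SEP_w, List.reverse_nil, List.map_nil, List.prod_nil]
      rw [← Algebra.TensorProduct.one_def, map_one])
    (fun j r => by
      simp only [SEP_w, List.reverse_cons, List.map_append, List.map_cons, List.map_nil,
        List.prod_append, List.prod_cons, List.prod_nil, mul_one]
      rw [← hX, ← map_mul, Algebra.TensorProduct.tmul_mul_tmul, one_mul])
    (fun s : ℕ => ((s : ZMod N), (v.length : ZMod M)))
    (fun j s => t (Sum.inl (j, (s : ZMod N)))) N
    (fun j s c hs => SEP_X t S (v.length : ZMod M) j s c hs) u.reverse 0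
    (SEP_wt (fun j s => t (Sum.inr (j, (s : ZMod M)))) v 0)
    (by rw [List.length_reverse]; omega)
  simp only [List.reverse_reverse, List.length_reverse, zero_add, Nat.cast_zero, one_mul] at hXw hYw
  rw [e0, map_mul, ← Matrix.mulVec_mulVec, hYw, hXw]

end

theorem t_SEP : S_SEP := by
  classical
  intro K _ n z hz
  set B := (FreeAlgebra.basisFreeMonoid K (Fin n)).tensorProduct
    ((FreeAlgebra.basisFreeMonoid K (Fin n)).map (MulOpposite.opLinearEquiv K)) with hB
  have hBa : ∀ p : FreeMonoid (Fin n) × FreeMonoid (Fin n),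
      B p = SEP_w K n p.1.toList ⊗ₜ[K] op (SEP_w K n p.2.toList) := by
    intro p
    rw [hB, Module.Basis.tensorProduct_apply', Module.Basis.map_apply, SEP_basis, SEP_basis]
    rfl
  have hne : B.repr z ≠ 0 := fun h => hz (by simpa using h)
  obtain ⟨p0, hp0⟩ := Finsupp.ne_iff.1 hne
  rw [Finsupp.zero_apply] at hp0
  set N0 := 1 + ∑ p ∈ (B.repr z).support, (p.1.toList.length + p.2.toList.length) with hN0
  have hlen : ∀ p ∈ (B.repr z).support, p.1.toList.length < N0 ∧ p.2.toList.length < N0 := by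
    intro p hp
    have := Finset.single_le_sum (f := fun p : FreeMonoid (Fin n) × FreeMonoid (Fin n) =>
      p.1.toList.length + p.2.toList.length) (fun _ _ => Nat.zero_le _) hp
    omega
  refine ⟨N0, ?_⟩
  intro E _ _ N M _ _ hN hM t S hind ρ hX hY hρ
  -- the polynomial
  let τX : Fin n → ℕ → MvPolynomial ((Fin n × ZMod N) ⊕ (Fin n × ZMod M)) K :=
    fun j s => MvPolynomial.X (Sum.inl (j, (s : ZMod N)))
  let τY : Fin n → ℕ → MvPolynomial ((Fin n × ZMod N) ⊕ (Fin n × ZMod M)) K :=
    fun j s => MvPolynomial.X (Sum.inr (j, (s : ZMod M)))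
  let P : MvPolynomial ((Fin n × ZMod N) ⊕ (Fin n × ZMod M)) K :=
    ∑ p ∈ (B.repr z).support, MvPolynomial.C (B.repr z p) *
      (if p.1.toList.length = p0.1.toList.length ∧ p.2.toList.length = p0.2.toList.length then
        SEP_wt τY p.2.toList 0 * SEP_wt τX p.1.toList.reverse 0 else 0)
  have hp0s : p0 ∈ (B.repr z).support := Finsupp.mem_support_iff.2 hp0
  -- the entry of the matrix
  have hzsum : z = ∑ p ∈ (B.repr z).support, B.repr z p • B p := by
    conv_lhs => rw [← B.linearCombination_repr z]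
    rw [Finsupp.linearCombination_apply, Finsupp.sum]
  have hent : MvPolynomial.aeval t P = (ρ z).mulVec (Pi.single (0, 0) 1)
      ((p0.1.toList.length : ZMod N), (p0.2.toList.length : ZMod M)) := by
    have e1 : ρ z = ∑ p ∈ (B.repr z).support, B.repr z p • ρ (B p) := by
      conv_lhs => rw [hzsum]
      rw [map_sum]
      exact Finset.sum_congr rfl fun p _ => map_smul ρ _ _
    rw [e1, Matrix.sum_mulVec, Finset.sum_apply, map_sum]
    refine Finset.sum_congr rfl fun p hp => ?_
    obtain ⟨l1, l2⟩ := hlen p hp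
    obtain ⟨l3, l4⟩ := hlen p0 hp0s
    rw [Matrix.smul_mulVec, hBa, SEP_mono t S ρ hX hY _ _ (by omega) (by omega),
      Pi.smul_apply, map_mul, MvPolynomial.aeval_C, Algebra.smul_def]
    congr 1
    by_cases h : p.1.toList.length = p0.1.toList.length ∧ p.2.toList.length = p0.2.toList.length
    · rw [if_pos h, h.1, h.2, Pi.single_eq_same, map_mul]
      have f1 := SEP_wt_map (MvPolynomial.aeval (R := K) t).toRingHom τY p.2.toList 0
      have f2 := SEP_wt_map (MvPolynomial.aeval (R := K) t).toRingHom τX p.1.toList.reverse 0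
      simp only [AlgHom.toRingHom_eq_coe, RingHom.coe_coe, τX, τY, MvPolynomial.aeval_X] at f1 f2
      rw [f1, f2]
    · rw [if_neg h, map_zero, Pi.single_eq_of_ne]
      intro h'
      rw [Prod.mk.injEq] at h'
      exact h ⟨(SEP_cast (by omega) (by omega) h'.1).symm, (SEP_cast (by omega) (by omega) h'.2).symm⟩
  have hP : P = 0 := by
    apply hind
    rw [hent, hρ, map_zero, Matrix.zero_mulVec]
    rfl
  -- evaluate
  let pt : (Fin n × ZMod N) ⊕ (Fin n × ZMod M) → K := Sum.elim
    (fun q => if p0.1.toList.reverse[q.2.val]? = some q.1 then 1 else 0)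
    (fun q => if p0.2.toList[q.2.val]? = some q.1 then 1 else 0)
  have hev : MvPolynomial.eval pt P = B.repr z p0 := by
    rw [map_sum, Finset.sum_eq_single_of_mem p0 hp0s]
    · rw [if_pos ⟨rfl, rfl⟩, map_mul, MvPolynomial.eval_C, map_mul,
        SEP_wt_map (MvPolynomial.eval pt) τY, SEP_wt_map (MvPolynomial.eval pt) τX]
      obtain ⟨l3, l4⟩ := hlen p0 hp0s
      rw [SEP_wt_eval _ p0.2.toList M ?_ p0.2.toList 0 (by omega),
        SEP_wt_eval _ p0.1.toList.reverse N ?_ p0.1.toList.reverse 0
          (by rw [List.length_reverse]; omega)]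
      · simp
      · intro j s hs
        simp only [τX, MvPolynomial.eval_X, pt, Sum.elim_inl]
        rw [ZMod.val_natCast_of_lt hs]
      · intro j s hs
        simp only [τY, MvPolynomial.eval_X, pt, Sum.elim_inr]
        rw [ZMod.val_natCast_of_lt hs]
    · intro p hp hpp
      rw [map_mul]
      obtain ⟨l1, l2⟩ := hlen p hp
      by_cases h : p.1.toList.length = p0.1.toList.length ∧ p.2.toList.length = p0.2.toList.length
      · rw [if_pos h, map_mul,
          SEP_wt_map (MvPolynomial.eval pt) τY, SEP_wt_map (MvPolynomial.eval pt) τX]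
        rw [SEP_wt_eval _ p0.2.toList M ?_ p.2.toList 0 (by omega),
          SEP_wt_eval _ p0.1.toList.reverse N ?_ p.1.toList.reverse 0
            (by rw [List.length_reverse]; omega)]
        · simp only [List.drop_zero]
          by_cases g1 : p.2.toList <+: p0.2.toList
          · by_cases g2 : p.1.toList.reverse <+: p0.1.toList.reverse
            · exfalso
              apply hpp
              have k1 := g1.eq_of_length h.2
              have k2 := g2.eq_of_length (by rw [List.length_reverse, List.length_reverse, h.1])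
              have k3 : p.1.toList = p0.1.toList := List.reverse_injective k2
              exact Prod.ext (FreeMonoid.toList.injective k3) (FreeMonoid.toList.injective k1)
            · simp [g2]
          · simp [g1]
        · intro j s hs
          simp only [τX, MvPolynomial.eval_X, pt, Sum.elim_inl]
          rw [ZMod.val_natCast_of_lt hs]
        · intro j s hs
          simp only [τY, MvPolynomial.eval_X, pt, Sum.elim_inr]
          rw [ZMod.val_natCast_of_lt hs]
      · rw [if_neg h, map_zero, mul_zero]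
  rw [hP, map_zero] at hev
  exact hp0 hev.symm

end

end Pool.Agent.R433.GE
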