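import Pool.Agent.R433.GE.Stm

set_option autoImplicit false

namespace Pool.Agent.R433.GE

open scoped BigOperators

theorem t_SUR : S_SUR := by
  intro K _ n φ p v α hG hv hspan
  have hF : Fm α (fun i => φ (gx K n i)) =
      (φ : A K n →+* A K n).mapMatrix (Fm α (gx K n)) := by
    ext a c
    show ∑ j, α j a c • φ (gx K n j) = φ (∑ j, α j a c • gx K n j)
    rw [map_sum]
    refine Finset.sum_congr rfl fun j _ => ?_
    rw [map_smul]
  generalize hFd : Fm α (fun i => φ (gx K n i)) = F at hF hv
  generalize hGd : Fm α (gx K n) = G at hF hG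
  have hFp : F ^ p = 0 := by
    rw [hF, ← map_pow, hG, map_zero]
  let e : Fin p → A K n := fun a => algebraMap K (A K n) (eps K n (v a))
  have hφe : ∀ a, φ (e a) = e a := fun a => φ.commutes _
  have hv' : v = e + F.mulVec v := funext fun a => hv a
  have key : ∀ q : ℕ, ∃ b : Fin p → A K n, v = (fun a => φ (b a)) + (F ^ q).mulVec v := by
    intro q
    induction q with
    | zero =>
      refine ⟨0, ?_⟩
      rw [pow_zero, Matrix.one_mulVec]
      funext a
      simp
    | succ q ih =>
      obtain ⟨b, hb⟩ := ih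
      refine ⟨b + (G ^ q).mulVec e, ?_⟩
      have h1 : (F ^ q).mulVec v = (F ^ q).mulVec e + (F ^ (q + 1)).mulVec v := by
        conv_lhs => rw [hv']
        rw [Matrix.mulVec_add, Matrix.mulVec_mulVec, ← pow_succ]
      have h2 : (F ^ q).mulVec e = fun a => φ (((G ^ q).mulVec e) a) := by
        funext a
        have h3 := RingHom.map_mulVec (φ : A K n →+* A K n) (G ^ q) e a
        have h4 : F ^ q = (G ^ q).map (φ : A K n →+* A K n) := by
          rw [hF, ← map_pow]
          rfl
        have h5 : ((φ : A K n →+* A K n) ∘ e) = e := funext hφe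
        rw [h5, ← h4] at h3
        exact h3.symm
      funext a
      have h6 := congrFun hb a
      have h7 := congrFun h1 a
      have h8 := congrFun h2 a
      simp only [Pi.add_apply] at h6 h7 ⊢
      rw [map_add]
      rw [h7, h8] at h6
      rw [add_assoc]
      exact h6
  obtain ⟨b, hb⟩ := key p
  rw [hFp, Matrix.zero_mulVec, add_zero] at hb
  have hvr : ∀ a, v a ∈ φ.range := by
    intro a
    rw [hb]
    exact ⟨b a, rfl⟩
  have hsp : Submodule.span K (Set.range v) ≤ Subalgebra.toSubmodule φ.range := by
    rw [Submodule.span_le]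
    rintro _ ⟨a, rfl⟩
    exact hvr a
  have htop : φ.range = ⊤ := by
    rw [eq_top_iff, ← FreeAlgebra.adjoin_range_ι, Algebra.adjoin_le_iff]
    rintro _ ⟨k, rfl⟩
    exact hsp (hspan k)
  exact (AlgHom.range_eq_top φ).1 htop

end Pool.Agent.R433.GE
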