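import Mathlib

/-!
# Project GE: every good endomorphism of a free associative algebra is an automorphism (MP_54c2ef_al)

`A = K<x_1..x_n>`, `R = A ⊗ Aᵐᵒᵖ`. See `notes.md`.
-/

set_option autoImplicit false

namespace Pool.Agent.R433.GE

open scoped TensorProduct BigOperators
open MulOpposite

noncomputable section

abbrev A (K : Type) [Field K] (n : ℕ) := FreeAlgebra K (Fin n)

abbrev R (K : Type) [Field K] (n : ℕ) := A K n ⊗[K] (A K n)ᵐᵒᵖ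

/-- generators -/
def gx (K : Type) [Field K] (n : ℕ) (i : Fin n) : A K n := FreeAlgebra.ι K i

/-- augmentation -/
def eps (K : Type) [Field K] (n : ℕ) : A K n →ₐ[K] K := FreeAlgebra.lift K (fun _ => (0 : K))

/-- `I^m`, the span of the monomials of degree at least `m` -/
def Im (K : Type) [Field K] (n : ℕ) (m : ℕ) : Submodule K (A K n) :=
  Submodule.span K {a | ∃ l : List (Fin n), m ≤ l.length ∧ a = (l.map (gx K n)).prod}

/-- good endomorphisms -/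
def Good {K : Type} [Field K] {n : ℕ} (φ : A K n →ₐ[K] A K n) : Prop :=
  ∀ m : ℕ, 1 ≤ m → ∃ (ψ : A K n →ₐ[K] A K n) (θ : A K n ≃ₐ[K] A K n),
    φ = ψ.comp (θ : A K n →ₐ[K] A K n) ∧ ∀ i, ψ (gx K n i) - gx K n i ∈ Im K n m

/-- limits of automorphisms, without constant terms -/
def Lim {K : Type} [Field K] {n : ℕ} (φ : A K n →ₐ[K] A K n) : Prop :=
  (∀ i, eps K n (φ (gx K n i)) = 0) ∧
  ∀ m : ℕ, ∃ θ : A K n ≃ₐ[K] A K n, ∀ i, φ (gx K n i) - θ (gx K n i) ∈ Im K n m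

/-- piece RED -/
def S_RED : Prop := ∀ (K : Type) [Field K] (n : ℕ),
  (∀ φ : A K n →ₐ[K] A K n, Lim φ → Function.Bijective φ) →
  ∀ φ : A K n →ₐ[K] A K n, Good φ → Function.Bijective φ

/-- piece INJ -/
def S_INJ : Prop := ∀ (K : Type) [Field K] (n : ℕ) (φ : A K n →ₐ[K] A K n),
  Lim φ → Function.Injective φ

/-! ### Free derivatives -/

structure IsDer {K : Type} [Field K] {n : ℕ} (d : Fin n → (A K n →ₗ[K] R K n)) : Prop where
  gen : ∀ j k, d j (gx K n k) = if j = k then 1 else 0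
  mul : ∀ j a b, d j (a * b) = ((1 : A K n) ⊗ₜ[K] op b) * d j a + (a ⊗ₜ[K] 1) * d j b

/-- piece DER -/
def S_DER : Prop := ∀ (K : Type) [Field K] (n : ℕ), ∃ d : Fin n → (A K n →ₗ[K] R K n), IsDer d

def Jac {K : Type} [Field K] {n : ℕ} (d : Fin n → (A K n →ₗ[K] R K n))
    (φ : A K n →ₐ[K] A K n) : Matrix (Fin n) (Fin n) (R K n) := fun i j => d j (φ (gx K n i))

/-- piece JAC -/
def S_JAC : Prop := ∀ (K : Type) [Field K] (n : ℕ) (d : Fin n → (A K n →ₗ[K] R K n)), IsDer d →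
  ∀ θ : A K n ≃ₐ[K] A K n, IsUnit (Jac d (θ : A K n →ₐ[K] A K n))

/-- the scaling `x_i -> x_i X` on both tensor factors -/
structure IsSc {K : Type} [Field K] {n : ℕ} (s : R K n →ₐ[K] Polynomial (R K n)) : Prop where
  l : ∀ i, s (gx K n i ⊗ₜ[K] 1) = Polynomial.C (gx K n i ⊗ₜ[K] 1) * Polynomial.X
  r : ∀ i, s ((1 : A K n) ⊗ₜ[K] op (gx K n i)) =
    Polynomial.C ((1 : A K n) ⊗ₜ[K] op (gx K n i)) * Polynomial.X

/-- piece SC: existence, and the coefficients add up to the element -/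
def S_SC : Prop := ∀ (K : Type) [Field K] (n : ℕ), ∃ s : R K n →ₐ[K] Polynomial (R K n), IsSc s ∧
  ∀ z, (s z).sum (fun _ a => a) = z

/-- piece APX -/
def S_APX : Prop := ∀ (K : Type) [Field K] (n : ℕ) (d : Fin n → (A K n →ₗ[K] R K n)), IsDer d →
  ∀ s : R K n →ₐ[K] Polynomial (R K n), IsSc s → ∀ (m : ℕ), ∀ a ∈ Im K n m, ∀ (j : Fin n) (k : ℕ),
  k + 1 < m → (s (d j a)).coeff k = 0

/-! ### The key lemma -/

/-- block matrix -/
def big {K : Type} [Field K] {n : ℕ} {E β : Type} [Field E] [Algebra K E] [Fintype β]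
    [DecidableEq β] (ρ : R K n →ₐ[K] Matrix β β E) {m : ℕ} (C : Matrix (Fin m) (Fin m) (R K n)) :
    Matrix (Fin m × β) (Fin m × β) E := fun p q => ρ (C p.1 q.1) p.2 q.2

/-- piece REP (assembly) -/
def S_REP : Prop := ∀ (K : Type) [Field K] (n : ℕ) (z : R K n), z ≠ 0 →
  ∃ (E : Type) (_ : Field E) (_ : Algebra K E) (β : Type) (_ : Fintype β) (_ : DecidableEq β)
    (ρ : R K n →ₐ[K] Matrix β β E), ρ z ≠ 0 ∧
    ∀ (m : ℕ) (C : Matrix (Fin m) (Fin m) (R K n)), Fintype.card β ∣ (big ρ C).rank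

/-- piece KL (assuming S_REP) -/
def S_KL : Prop := ∀ (K : Type) [Field K] (n m : ℕ) (C : Matrix (Fin m) (Fin m) (R K n))
  (u : Fin m → R K n),
  (∀ (E : Type) [Field E] [Algebra K E] (β : Type) [Fintype β] [DecidableEq β]
    (ρ : R K n →ₐ[K] Matrix β β E), ∃ k : ℕ, ∀ i, ρ (((C ^ k).mulVec u) i) = 0) →
  (C ^ m).mulVec u = 0

/-- piece DIV: semilinear operator with `T^N = S` -/
def S_DIV : Prop := ∀ (E V : Type) [Field E] [AddCommGroup V] [Module E V] [FiniteDimensional E V]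
  (σ : E →+* E) (v : E → ℤ) (N : ℕ) (S : E) (T : V →+ V),
  (∀ c x, T (c • x) = σ c • T x) → (∀ x, (T^[N]) x = S • x) →
  (∀ x y, x ≠ 0 → y ≠ 0 → v (x * y) = v x + v y) → (∀ x, x ≠ 0 → v (σ x) = v x) →
  S ≠ 0 → σ S = S → v S = 1 → N ∣ Module.finrank E V

/-- piece FLD -/
def S_FLD : Prop := ∀ (K : Type) [Field K] (ι : Type) [Finite ι],
  ∃ (E : Type) (_ : Field E) (_ : Algebra K E) (t : ι → E) (S : E) (v : E → ℤ)
    (σ : Equiv.Perm ι →* (E →ₐ[K] E)), AlgebraicIndependent K t ∧ S ≠ 0 ∧ v S = 1 ∧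
    (∀ x y, x ≠ 0 → y ≠ 0 → v (x * y) = v x + v y) ∧
    ∀ π, σ π S = S ∧ (∀ i, σ π (t i) = t (π i)) ∧ ∀ x, x ≠ 0 → v (σ π x) = v x

/-- weighted cyclic shifts on the first and on the second coordinate -/
def Xm {E : Type} [Field E] {n N M : ℕ} [NeZero N] [NeZero M]
    (t : (Fin n × ZMod N) ⊕ (Fin n × ZMod M) → E) (S : E) (j : Fin n) :
    Matrix (ZMod N × ZMod M) (ZMod N × ZMod M) E := fun p q =>
  if p.1 = q.1 + 1 ∧ p.2 = q.2 then t (Sum.inl (j, q.1)) * (if p.1 = 0 then S else 1) else 0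

def Ym {E : Type} [Field E] {n N M : ℕ} [NeZero N] [NeZero M]
    (t : (Fin n × ZMod N) ⊕ (Fin n × ZMod M) → E) (S : E) (j : Fin n) :
    Matrix (ZMod N × ZMod M) (ZMod N × ZMod M) E := fun p q =>
  if p.1 = q.1 ∧ p.2 = q.2 + 1 then t (Sum.inr (j, q.2)) * (if p.2 = 0 then S else 1) else 0

/-- piece HOM: every commuting pair of tuples gives a homomorphism; the shifts commute -/
def S_HOM : Prop :=
  (∀ (K : Type) [Field K] (n : ℕ) (B : Type) [Ring B] [Algebra K B] (X Y : Fin n → B),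
    (∀ i j, X i * Y j = Y j * X i) → ∃ ρ : R K n →ₐ[K] B,
      (∀ i, ρ (gx K n i ⊗ₜ[K] 1) = X i) ∧ ∀ i, ρ ((1 : A K n) ⊗ₜ[K] op (gx K n i)) = Y i) ∧
  (∀ (E : Type) [Field E] (n N M : ℕ) [NeZero N] [NeZero M]
    (t : (Fin n × ZMod N) ⊕ (Fin n × ZMod M) → E) (S : E) (i j : Fin n),
    Xm t S i * Ym t S j = Ym t S j * Xm t S i)

/-- piece RK (assuming S_DIV) -/
def S_RK : Prop := ∀ (K E : Type) [Field K] [Field E] [Algebra K E] (n N M : ℕ) [NeZero N]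
  [NeZero M], Nat.Coprime N M → ∀ (t : (Fin n × ZMod N) ⊕ (Fin n × ZMod M) → E) (S : E) (v : E → ℤ)
  (σ : Equiv.Perm ((Fin n × ZMod N) ⊕ (Fin n × ZMod M)) →* (E →ₐ[K] E)), S ≠ 0 → v S = 1 →
  (∀ x y, x ≠ 0 → y ≠ 0 → v (x * y) = v x + v y) →
  (∀ π, σ π S = S ∧ (∀ i, σ π (t i) = t (π i)) ∧ ∀ x, x ≠ 0 → v (σ π x) = v x) →
  ∀ ρ : R K n →ₐ[K] Matrix (ZMod N × ZMod M) (ZMod N × ZMod M) E,
  (∀ i, ρ (gx K n i ⊗ₜ[K] 1) = Xm t S i) →
  (∀ i, ρ ((1 : A K n) ⊗ₜ[K] op (gx K n i)) = Ym t S i) →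
  ∀ (m : ℕ) (C : Matrix (Fin m) (Fin m) (R K n)), N * M ∣ (big ρ C).rank

/-- piece SEP -/
def S_SEP : Prop := ∀ (K : Type) [Field K] (n : ℕ) (z : R K n), z ≠ 0 → ∃ N0 : ℕ,
  ∀ (E : Type) [Field E] [Algebra K E] (N M : ℕ) [NeZero N] [NeZero M], N0 ≤ N → N0 ≤ M →
  ∀ (t : (Fin n × ZMod N) ⊕ (Fin n × ZMod M) → E) (S : E), AlgebraicIndependent K t →
  ∀ ρ : R K n →ₐ[K] Matrix (ZMod N × ZMod M) (ZMod N × ZMod M) E,
  (∀ i, ρ (gx K n i ⊗ₜ[K] 1) = Xm t S i) →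
  (∀ i, ρ ((1 : A K n) ⊗ₜ[K] op (gx K n i)) = Ym t S i) → ρ z ≠ 0

/-! ### Inverting the Jacobian -/

/-- piece DET: evaluation of an approximable matrix has a polynomial inverse -/
def S_DET : Prop := ∀ (E ι : Type) [Field E] [Fintype ι] [DecidableEq ι]
  (W : Matrix ι ι (Polynomial E)),
  (∀ m : ℕ, ∃ W' : Matrix ι ι (Polynomial E), IsUnit W' ∧
    ∀ i j k, k < m → (W i j).coeff k = (W' i j).coeff k) → IsUnit W

/-- piece BB (assuming S_KL, S_DET) -/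
def S_BB : Prop := ∀ (K : Type) [Field K] (n : ℕ) (s : R K n →ₐ[K] Polynomial (R K n)),
  (∀ z, (s z).sum (fun _ a => a) = z) → ∀ J : Matrix (Fin n) (Fin n) (R K n),
  (∀ m : ℕ, ∃ J' : Matrix (Fin n) (Fin n) (R K n), IsUnit J' ∧
    ∀ i j k, k < m → (s (J i j)).coeff k = (s (J' i j)).coeff k) → IsUnit J

/-! ### Double derivations -/

/-- `Δ_i = (ε ⊗ 1) D_i` -/
def Dl {K : Type} [Field K] {n : ℕ} (D : Fin n → (A K n →ₗ[K] A K n ⊗[K] A K n)) (i : Fin n) :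
    A K n →ₗ[K] A K n :=
  (TensorProduct.lid K (A K n)).toLinearMap ∘ₗ ((eps K n).toLinearMap.rTensor (A K n)) ∘ₗ D i

def CO {K : Type} [Field K] {n : ℕ} (D : Fin n → (A K n →ₗ[K] A K n ⊗[K] A K n)) : Prop :=
  ∀ i j a, TensorProduct.assoc K (A K n) (A K n) (A K n) ((D i).rTensor (A K n) (D j a)) =
    (D j).lTensor (A K n) (D i a)

def EXP {K : Type} [Field K] {n : ℕ} (D : Fin n → (A K n →ₗ[K] A K n ⊗[K] A K n))
    (f : Fin n → A K n) : Prop :=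
  ∀ a, a = algebraMap K (A K n) (eps K n a) + ∑ i, f i * Dl D i a

/-- piece DD -/
def S_DD : Prop := ∀ (K : Type) [Field K] (n : ℕ) (d : Fin n → (A K n →ₗ[K] R K n)), IsDer d →
  ∀ φ : A K n →ₐ[K] A K n, (∀ i, eps K n (φ (gx K n i)) = 0) → IsUnit (Jac d φ) →
  ∃ D : Fin n → (A K n →ₗ[K] A K n ⊗[K] A K n), CO D ∧ EXP D (fun i => φ (gx K n i))

def Fm {K : Type} [Field K] {n p : ℕ} (α : Fin n → Matrix (Fin p) (Fin p) K) (f : Fin n → A K n) :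
    Matrix (Fin p) (Fin p) (A K n) := fun a c => ∑ j, α j a c • f j

/-- piece LIN -/
def S_LIN : Prop := ∀ (K : Type) [Field K] (n : ℕ) (f : Fin n → A K n)
  (D : Fin n → (A K n →ₗ[K] A K n ⊗[K] A K n)), CO D → EXP D f →
  ∃ (p : ℕ) (v : Fin p → A K n) (α : Fin n → Matrix (Fin p) (Fin p) K)
    (Q : Matrix (Fin p) (Fin p) (A K n)), (1 - Fm α f) * Q = 1 ∧
    (∀ a, v a = algebraMap K (A K n) (eps K n (v a)) + ∑ c, Fm α f a c * v c) ∧
    ∀ k, gx K n k ∈ Submodule.span K (Set.range v)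

/-- piece NIL (assuming S_KL, S_DET) -/
def S_NIL : Prop := ∀ (K : Type) [Field K] (n : ℕ) (φ : A K n →ₐ[K] A K n), Lim φ →
  ∀ (p : ℕ) (α : Fin n → Matrix (Fin p) (Fin p) K) (Q : Matrix (Fin p) (Fin p) (A K n)),
  (1 - Fm α (fun i => φ (gx K n i))) * Q = 1 → (Fm α (gx K n)) ^ p = 0

/-- piece SUR (final step) -/
def S_SUR : Prop := ∀ (K : Type) [Field K] (n : ℕ) (φ : A K n →ₐ[K] A K n)
  (p : ℕ) (v : Fin p → A K n) (α : Fin n → Matrix (Fin p) (Fin p) K),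
  (Fm α (gx K n)) ^ p = 0 →
  (∀ a, v a = algebraMap K (A K n) (eps K n (v a)) + ∑ c, Fm α (fun i => φ (gx K n i)) a c * v c) →
  (∀ k, gx K n k ∈ Submodule.span K (Set.range v)) → Function.Surjective φ

end

end Pool.Agent.R433.GE
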